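import Pool.Agent.N154.TB.Fin

/-! The directions of the lines below curves, for abelian varieties. -/

set_option autoImplicit false

open Filter Topology Metric Set

namespace Pool.Agent.N154.TB

open Pool.Agent.Y190.OP Pool.Agent.N155
open Pool.Agent.N154.GG (holP_comp hp_cont hyper_ge)

variable {N m : ℕ} {T : Set (Mat N)} {Λ : AddSubgroup (Fin m → ℂ)} {a : Mat N → Fin m → ℂ}
    {κ : Type} {η : κ → (Fin N → ℂ) → (Fin N → ℂ) → (Fin N → ℂ) → ℂ}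
    {g P Q : ℂ → Mat N} {α β α' β' v : Fin m → ℂ} {C : ℝ} {ℓ : (Fin m → ℂ) →L[ℂ] ℂ}

/-- the image of the lattice under `ℓ` is discrete -/
def Dis (Λ : AddSubgroup (Fin m → ℂ)) (ℓ : (Fin m → ℂ) →L[ℂ] ℂ) : Prop :=
  ∃ δ > 0, ∀ l ∈ Λ, ‖ℓ l‖ < δ → ℓ l = 0

/-- the lines below curves have discrete projections -/
def Spl (T : Set (Mat N)) (Λ : AddSubgroup (Fin m → ℂ)) (a : Mat N → Fin m → ℂ) : Prop :=
  ∀ (v : Fin m → ℂ) (g : ℂ → Mat N) (β : Fin m → ℂ), v ≠ 0 → Lin T Λ a g v β →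
    ∃ ℓ : (Fin m → ℂ) →L[ℂ] ℂ, ℓ v = 1 ∧ Dis Λ ℓ

/-- the kernel of the projection contains a cocompact part of the lattice -/
theorem ker_coc (hT : TV T Λ a) (hdis : Dis Λ ℓ) :
    ∃ D : ℝ, ∀ β, ℓ β = 0 → ∃ l ∈ Λ, ℓ l = 0 ∧ ‖β - l‖ ≤ D := by
  by_contra hcon
  push Not at hcon
  have hcon' : ∀ n : ℕ, ∃ β, ℓ β = 0 ∧ ∀ l ∈ Λ, ℓ l = 0 → (n : ℝ) < ‖β - l‖ := fun n => by
    obtain ⟨β, h1, h2⟩ := hcon n
    exact ⟨β, h1, h2⟩
  choose β hβ0 hβ using hcon'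
  obtain ⟨D, hD⟩ := hT.coc
  choose l hlΛ hl using fun n => hD (β n)
  obtain ⟨δ, hδ, hδΛ⟩ := hdis
  set 𝓤 : Ultrafilter ℕ := hyperfilter ℕ with h𝓤
  obtain ⟨c, hc⟩ := exists_lim (𝓤 := 𝓤) (h := fun n => ℓ (l n)) (C := ‖ℓ‖ * D)
    (Eventually.of_forall fun n => by
      have e1 : ℓ (l n) = -ℓ (β n - l n) := by
        rw [map_sub, hβ0]
        ring
      rw [e1, norm_neg]
      exact (ℓ.le_opNorm _).trans (mul_le_mul_of_nonneg_left (hl n) (norm_nonneg _)))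
  have h1 : ∀ᶠ n in (𝓤 : Filter ℕ), ‖ℓ (l n) - c‖ < δ / 2 := by
    filter_upwards [Metric.tendsto_nhds.1 hc (δ / 2) (by positivity)] with n hn
    rwa [dist_eq_norm] at hn
  obtain ⟨n0, hn0⟩ := h1.exists
  obtain ⟨n, hn, hnL⟩ := (h1.and (hyper_ge (D + ‖l n0‖))).exists
  have h2 : ℓ (l n - l n0) = 0 := by
    apply hδΛ _ (Λ.sub_mem (hlΛ n) (hlΛ n0))
    rw [map_sub]
    have := norm_sub_le (ℓ (l n) - c) (ℓ (l n0) - c)
    rw [sub_sub_sub_cancel_right] at this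
    linarith
  have h3 := hβ n (l n - l n0) (Λ.sub_mem (hlΛ n) (hlΛ n0)) h2
  have h4 : ‖β n - (l n - l n0)‖ ≤ D + ‖l n0‖ := by
    have e1 : β n - (l n - l n0) = (β n - l n) + l n0 := by abel
    rw [e1]
    exact (norm_add_le _ _).trans (add_le_add (hl n) le_rfl)
  linarith

/-- the curves over the lines parallel to `v`, with the parameter given by `ℓ` -/
def Cv (T : Set (Mat N)) (Λ : AddSubgroup (Fin m → ℂ)) (a : Mat N → Fin m → ℂ)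
    (v : Fin m → ℂ) (ℓ : (Fin m → ℂ) →L[ℂ] ℂ) : Set (ℂ → Mat N) :=
  {g | ∃ β, ℓ β = 0 ∧ Lin T Λ a g v β}

theorem Cv_finite (hT : TV T Λ a) (hG : GV T Λ a η) (hC0 : 0 < C) (hC : GE T Λ a C)
    (hv : ℓ v = 1) (hdis : Dis Λ ℓ) : (Cv T Λ a v ℓ).Finite := by
  obtain ⟨D, hD⟩ := ker_coc hT hdis
  refine (lin_finite hT hG hC0 hC (α := v) (by rw [hv]; exact one_ne_zero) D).subset ?_
  rintro g ⟨β, hβ, hL⟩
  obtain ⟨l, hl, hl0, hlD⟩ := hD β hβ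
  exact ⟨β - l, by rw [map_sub, hβ, hl0, sub_zero], hlD, hL.sub hl⟩

theorem Cv_shift (hv : ℓ v = 1) (hg : g ∈ Cv T Λ a v ℓ) {l : Fin m → ℂ} (hl : l ∈ Λ) :
    (fun z => g (ℓ l + z)) ∈ Cv T Λ a v ℓ := by
  obtain ⟨β, hβ, hL⟩ := hg
  refine ⟨ℓ l • v + β - l, ?_, (hL.shift (ℓ l)).sub hl⟩
  rw [map_sub, map_add, map_smul, hv, hβ, smul_eq_mul]
  ring

/-- **Finiteness of the directions** -/
theorem dir_seq (hT : TV T Λ a) (hG : GV T Λ a η) (hC0 : 0 < C) (hC : GE T Λ a C)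
    (hS : Spl T Λ a) {v : ℕ → Fin m → ℂ} (hv : ∀ n, ‖v n‖ = 1) {g : ℕ → ℂ → Mat N}
    {β : ℕ → Fin m → ℂ} (hL : ∀ n, Lin T Λ a (g n) (v n) (β n)) :
    ∃ i j : ℕ, i ≠ j ∧ ∃ c : ℂ, c ≠ 0 ∧ v j = c • v i := by
  classical
  obtain ⟨D, hD⟩ := hT.coc
  choose l hlΛ hl using fun n => hD (β n)
  have hL' : ∀ n, Lin T Λ a (g n) (v n) (β n - l n) := fun n => (hL n).sub (hlΛ n)
  set b : ℕ → Fin m → ℂ := fun n => β n - l n with hb
  set 𝓤 : Ultrafilter ℕ := hyperfilter ℕ with h𝓤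
  have hK : ∀ n z, ‖fderiv ℝ (g n) z‖ ≤ C := fun n z => by
    have := (hL' n).grad hC0 hC z
    rwa [hv, mul_one] at this
  obtain ⟨H, hH, hHT, hHc, -⟩ := exists_limit hT.comp hT.sub (𝓤 := 𝓤) (K := C)
    (fun n => (hL' n).hol) (fun n => (hL' n).mem) hK
  obtain ⟨bl, -, hbl⟩ := exists_lim_v (𝓤 := 𝓤) (h := b) (Eventually.of_forall hl)
  obtain ⟨vl, -, hvl⟩ := exists_lim_v (𝓤 := 𝓤) (h := v) (C := 1)
    (Eventually.of_forall fun n => (hv n).le)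
  have hvl1 : ‖vl‖ = 1 := by
    refine tendsto_nhds_unique hvl.norm ?_
    simp only [hv]
    exact tendsto_const_nhds
  have hvl0 : vl ≠ 0 := by
    intro h0
    rw [h0, norm_zero] at hvl1
    exact zero_ne_one hvl1
  have hHL : Lin T Λ a H vl bl := by
    refine ⟨hH, hHT, fun t => ?_⟩
    exact hT.lim (l := (𝓤 : Filter ℕ)) (Eventually.of_forall fun n => (hL' n).mem t)
      (hHc.pointwise (mem_univ t)) (hHT t) (Eventually.of_forall fun n => (hL' n).ov t)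
      ((hvl.const_smul t).add hbl)
  obtain ⟨ℓ, hℓ, hdis⟩ := hS vl H bl hvl0 hHL
  have hc1 : Tendsto (fun n => ℓ (v n)) 𝓤 (𝓝 1) := by
    have := (ℓ.continuous.tendsto _).comp hvl
    rwa [hℓ] at this
  have hd1 : Tendsto (fun n => ℓ (b n) - ℓ bl) 𝓤 (𝓝 0) := by
    have := ((ℓ.continuous.tendsto _).comp hbl).sub_const (ℓ bl)
    rwa [sub_self] at this
  have hev : ∀ᶠ n in (𝓤 : Filter ℕ), 1 / 2 ≤ ‖ℓ (v n)‖ := by
    have := hc1.norm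
    rw [norm_one] at this
    filter_upwards [this.eventually_const_lt (show (1 / 2 : ℝ) < 1 by norm_num)] with n hn
    exact hn.le
  set Q : ℕ → ℂ → Mat N := fun n z => H (ℓ (v n) * z + (ℓ (b n) - ℓ bl)) with hQ
  have hQL : ∀ n, Lin T Λ a (Q n) (ℓ (v n) • vl) ((ℓ (b n) - ℓ bl) • vl + bl) := fun n =>
    hHL.aff _ _
  have hQc : CConv (𝓤 : Filter ℕ) univ Q H := by
    intro z _
    have h1 : Tendsto (fun p : ℕ × ℂ => ℓ (v p.1) * p.2 + (ℓ (b p.1) - ℓ bl)) ((𝓤 : Filter ℕ) ×ˢ 𝓝 z)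
        (𝓝 (1 * z + 0)) :=
      ((hc1.comp tendsto_fst).mul tendsto_snd).add (hd1.comp tendsto_fst)
    rw [one_mul, add_zero] at h1
    exact (hH.continuousAt (mem_univ z)).tendsto.comp h1
  obtain ⟨R, δ, hR, hδ, hcon⟩ := contr_dis hT hG hC0 hC hdis (max 1 ‖ℓ‖)
    (show (0 : ℝ) < 1 / 2 by norm_num)
  set P' : ℕ → ℂ → Mat N := fun n => if 1 / 2 ≤ ‖ℓ (v n)‖ then g n else H with hP'
  set Q' : ℕ → ℂ → Mat N := fun n => if 1 / 2 ≤ ‖ℓ (v n)‖ then Q n else H with hQ'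
  have hP1 : ∀ n, 1 / 2 ≤ ‖ℓ (v n)‖ → P' n = g n ∧ Q' n = Q n := fun n hn => by
    rw [hP', hQ']
    simp only
    rw [if_pos hn, if_pos hn]
    exact ⟨rfl, rfl⟩
  have hP2 : ∀ n, ¬ 1 / 2 ≤ ‖ℓ (v n)‖ → P' n = H ∧ Q' n = H := fun n hn => by
    rw [hP', hQ']
    simp only
    rw [if_neg hn, if_neg hn]
    exact ⟨rfl, rfl⟩
  have hHK : ∀ z, ‖fderiv ℝ H z‖ ≤ C * max 1 ‖ℓ‖ := fun z => by
    refine (hHL.grad hC0 hC z).trans (mul_le_mul_of_nonneg_left ?_ hC0.le)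
    rw [hvl1]
    exact le_max_left _ _
  have hle : ∀ n, ‖ℓ (v n) • vl‖ ≤ max 1 ‖ℓ‖ := fun n => by
    rw [norm_smul, hvl1, mul_one]
    have := ℓ.le_opNorm (v n)
    rw [hv, mul_one] at this
    exact this.trans (le_max_right _ _)
  have hcc : ∀ n, HolP univ (P' n) ∧ (∀ z, P' n z ∈ T) ∧
      (∀ z, ‖fderiv ℝ (P' n) z‖ ≤ C * max 1 ‖ℓ‖) ∧
      HolP univ (Q' n) ∧ (∀ z, Q' n z ∈ T) ∧ (∀ z, ‖fderiv ℝ (Q' n) z‖ ≤ C * max 1 ‖ℓ‖) ∧
      Contr R δ (1 / 2) (fun z => ‖P' n z - Q' n z‖) := by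
    intro n
    by_cases hn : 1 / 2 ≤ ‖ℓ (v n)‖
    · rw [(hP1 n hn).1, (hP1 n hn).2]
      refine ⟨(hL' n).hol, (hL' n).mem, fun z => (hK n z).trans ?_, (hQL n).hol, (hQL n).mem,
        fun z => ((hQL n).grad hC0 hC z).trans (mul_le_mul_of_nonneg_left (hle n) hC0.le), ?_⟩
      · exact le_mul_of_one_le_right hC0.le (le_max_left _ _)
      · refine hcon (g n) (Q n) _ _ _ _ (hL' n) (hQL n) ((hv n).le.trans (le_max_left _ _)) (hle n)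
          hn ?_ ?_
        · rw [map_smul, hℓ, smul_eq_mul, mul_one]
        · rw [map_add, map_smul, hℓ, smul_eq_mul]
          ring
    · rw [(hP2 n hn).1, (hP2 n hn).2]
      refine ⟨hH, hHT, hHK, hH, hHT, hHK, ?_⟩
      intro z0 _ aa
      refine ⟨z0, mem_closedBall_self hR.le, ?_⟩
      simp
  have hcP : CConv (𝓤 : Filter ℕ) univ P' H := by
    intro z hz
    refine (hHc z hz).congr' ?_
    filter_upwards [hev.prod_inl (𝓝 z)] with p hp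
    rw [(hP1 _ hp).1]
  have hcQ : CConv (𝓤 : Filter ℕ) univ Q' H := by
    intro z hz
    refine (hQc z hz).congr' ?_
    filter_upwards [hev.prod_inl (𝓝 z)] with p hp
    rw [(hP1 _ hp).2]
  have h1 := separation hT.comp hT.sub (K := C * max 1 ‖ℓ‖) (R := R) (δ := δ) (θ := 1 / 2) hR hδ
    (by norm_num) (by norm_num) (φ := P') (ψ := Q') (𝓤 := 𝓤)
    (fun n => (hcc n).1) (fun n => (hcc n).2.1) (fun n => (hcc n).2.2.1)
    (fun n => (hcc n).2.2.2.1) (fun n => (hcc n).2.2.2.2.1) (fun n => (hcc n).2.2.2.2.2.1)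
    (fun n => (hcc n).2.2.2.2.2.2) (H := H) hcP hcQ
  have h2 : ∀ᶠ n in (𝓤 : Filter ℕ), ℓ (v n) ≠ 0 ∧ v n = ℓ (v n) • vl := by
    filter_upwards [h1, hev] with n hn1 hn2
    rw [(hP1 n hn2).1, (hP1 n hn2).2] at hn1
    have h3 : g n = Q n := funext hn1
    have h4 := hQL n
    rw [← h3] at h4
    refine ⟨fun h0 => ?_, ((hL' n).unique hT h4).1⟩
    rw [h0, norm_zero] at hn2
    linarith
  obtain ⟨i, hi⟩ := h2.exists
  obtain ⟨j, hj, hij⟩ := (h2.and (hyper_ge ((i : ℝ) + 1))).exists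
  refine ⟨i, j, ?_, ℓ (v j) * (ℓ (v i))⁻¹, mul_ne_zero hj.1 (inv_ne_zero hi.1), ?_⟩
  · rintro rfl
    linarith
  · conv_rhs => rw [hi.2]
    conv_lhs => rw [hj.2]
    rw [smul_smul, map_smul, hℓ, smul_eq_mul, mul_one, inv_mul_cancel_right₀ hi.1]

end Pool.Agent.N154.TB
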