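import Pool.Agent.N154.TB.Fin
import Pool.Agent.Y190.OP.Bro
import Pool.Agent.N154.DD.Kob

/-! Curves with bounded derivative, and Brody's theorem. -/

set_option autoImplicit false

open Filter Topology Metric Set

namespace Pool.Agent.N154.TB

open Pool.Agent.Y190.OP Pool.Agent.N155
open Pool.Agent.N154.GG (holP_comp hp_cont hyper_ge exists_limit_loc_l path_le holP_comp_l)

variable {N m : ℕ} {T : Set (Mat N)} {Λ : AddSubgroup (Fin m → ℂ)} {a : Mat N → Fin m → ℂ}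
    {κ : Type} {η : κ → (Fin N → ℂ) → (Fin N → ℂ) → (Fin N → ℂ) → ℂ}
    {g P Q : ℂ → Mat N} {α β α' β' : Fin m → ℂ} {C : ℝ} {ℓ : (Fin m → ℂ) →L[ℂ] ℂ}

theorem norm_deriv_eq_norm_fderiv_v {φ : ℂ → Fin m → ℂ} {z : ℂ} :
    ‖deriv φ z‖ = ‖fderiv ℂ φ z‖ := norm_deriv_eq_norm_fderiv

/-- the derivatives of the lifts are bounded by the derivatives of the curves -/
theorem TV.lift_deriv (hT : TV T Λ a) : ∃ K : ℝ, 0 ≤ K ∧ ∀ (P : ℂ → Mat N) (φ : ℂ → Fin m → ℂ),
    HolP univ P → (∀ z, P z ∈ T) → Differentiable ℂ φ → Over Λ a P φ → ∀ z,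
      ‖deriv φ z‖ ≤ K * ‖fderiv ℝ P z‖ := by
  have hloc : ∃ K : ℝ, 0 ≤ K ∧ ∀ (P : ℂ → Mat N) (φ : ℂ → Fin m → ℂ),
    HolP univ P → (∀ z, P z ∈ T) → Differentiable ℂ φ → Over Λ a P φ → ∀ z, P z ∈ T →
      ‖deriv φ z‖ ≤ K * ‖fderiv ℝ P z‖ := by
    refine hT.comp.induction_on (p := fun A => ∃ K : ℝ, 0 ≤ K ∧ ∀ (P : ℂ → Mat N)
      (φ : ℂ → Fin m → ℂ), HolP univ P → (∀ z, P z ∈ T) → Differentiable ℂ φ → Over Λ a P φ →
      ∀ z, P z ∈ A → ‖deriv φ z‖ ≤ K * ‖fderiv ℝ P z‖) ?_ ?_ ?_ ?_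
    · exact ⟨0, le_rfl, fun P φ _ _ _ _ z hz => absurd hz (notMem_empty _)⟩
    · rintro s s' hss ⟨K, hK0, hK⟩
      exact ⟨K, hK0, fun P φ h1 h2 h3 h4 z hz => hK P φ h1 h2 h3 h4 z (hss hz)⟩
    · rintro s s' ⟨K, hK0, hK⟩ ⟨K', hK0', hK'⟩
      refine ⟨max K K', le_max_of_le_left hK0, fun P φ h1 h2 h3 h4 z hz => ?_⟩
      rcases hz with hz | hz
      · exact (hK P φ h1 h2 h3 h4 z hz).trans
          (mul_le_mul_of_nonneg_right (le_max_left _ _) (norm_nonneg _))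
      · exact (hK' P φ h1 h2 h3 h4 z hz).trans
          (mul_le_mul_of_nonneg_right (le_max_right _ _) (norm_nonneg _))
    · intro M0 hM0
      obtain ⟨O, w, hO, hMO, hc, ha, hd⟩ := hT.loc M0 hM0
      have h1 : ContinuousAt (fderiv ℝ w) M0 :=
        ((hc M0 hMO).fderiv_right (m := 0) (by norm_num)).continuousAt
      have h2 : ∀ᶠ M in 𝓝 M0, ‖fderiv ℝ w M‖ < ‖fderiv ℝ w M0‖ + 1 :=
        h1.norm.eventually_lt_const (lt_add_one _)
      refine ⟨O ∩ {M | ‖fderiv ℝ w M‖ < ‖fderiv ℝ w M0‖ + 1},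
        mem_nhdsWithin_of_mem_nhds (inter_mem (hO.mem_nhds hMO) h2), ‖fderiv ℝ w M0‖ + 1,
        by positivity, fun P φ hP hPT hφ ho z hz => ?_⟩
      have hcP : ContinuousAt P z := hP.continuousAt (mem_univ z)
      have hwd : DifferentiableAt ℂ (fun t => w (P t)) z :=
        hd univ P z isOpen_univ (mem_univ z) hP hz.1
      have h3 : ∀ᶠ t in 𝓝 z, φ t - w (P t) ∈ Λ := by
        filter_upwards [hcP.eventually (hO.mem_nhds hz.1)] with t ht
        have e1 := Λ.add_mem (ho t) (ha (P t) ⟨ht, hPT t⟩)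
        have e2 : φ t - w (P t) = φ t - a (P t) + (a (P t) - w (P t)) := by abel
        rw [e2]
        exact e1
      have h4 := hT.ev_const (f := fun t => φ t - w (P t))
        ((hφ z).continuousAt.sub hwd.continuousAt) h3
      have h5 : HasDerivAt (fun t => φ t - w (P t)) 0 z :=
        (hasDerivAt_const z (φ z - w (P z))).congr_of_eventuallyEq h4
      have h6 : deriv φ z = deriv (fun t => w (P t)) z := by
        have h7 := ((hφ z).hasDerivAt.sub hwd.hasDerivAt).unique h5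
        exact sub_eq_zero.1 h7
      rw [h6, norm_deriv_eq_norm_fderiv, ← ContinuousLinearMap.norm_restrictScalars (𝕜' := ℝ)]
      have h8 : HasFDerivAt (fun t => w (P t)) ((fderiv ℂ (fun t => w (P t)) z).restrictScalars ℝ) z :=
        hwd.hasFDerivAt.restrictScalars ℝ
      have h9 : HasFDerivAt (fun t => w (P t)) ((fderiv ℝ w (P z)).comp (fderiv ℝ P z)) z :=
        (((hc (P z) hz.1).differentiableAt (by norm_num)).hasFDerivAt).comp z
          (hP.differentiableAt (mem_univ z)).hasFDerivAt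
      rw [h8.unique h9]
      refine (ContinuousLinearMap.opNorm_comp_le _ _).trans ?_
      exact mul_le_mul_of_nonneg_right hz.2.le (norm_nonneg _)
  obtain ⟨K, hK0, hK⟩ := hloc
  exact ⟨K, hK0, fun P φ h1 h2 h3 h4 z => hK P φ h1 h2 h3 h4 z (h2 z)⟩

/-- curves with bounded derivative lie over lines -/
theorem lin_of_bounded (hT : TV T Λ a) {B : ℝ} (hP : HolP univ P) (hPT : ∀ z, P z ∈ T)
    (hB : ∀ z, ‖fderiv ℝ P z‖ ≤ B) : ∃ α β, Lin T Λ a P α β := by
  obtain ⟨φ, hφ, ho⟩ := hT.exists_lift hP hPT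
  obtain ⟨K, hK0, hK⟩ := hT.lift_deriv
  have hd : Differentiable ℂ (deriv φ) := fun z => by
    have h1 : AnalyticAt ℂ φ z := by
      rw [Complex.analyticAt_iff_eventually_differentiableAt]
      exact Eventually.of_forall hφ
    exact h1.deriv.differentiableAt
  have hc : ∀ z, deriv φ z = deriv φ 0 := fun z => by
    apply hd.apply_eq_apply_of_bounded
    rw [isBounded_iff_forall_norm_le]
    refine ⟨K * B, ?_⟩
    rintro _ ⟨w, rfl⟩
    exact (hK P φ hP hPT hφ ho w).trans (mul_le_mul_of_nonneg_left (hB w) hK0)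
  have haff : ∀ t, φ t = t • deriv φ 0 + φ 0 := by
    intro t
    have h3 : ∀ z, HasDerivAt (fun t => φ t - t • deriv φ 0) 0 z := by
      intro z
      have h4 := (hφ z).hasDerivAt.sub ((hasDerivAt_id z).smul_const (deriv φ 0))
      rw [hc z, one_smul, sub_self] at h4
      exact h4
    have h4 := is_const_of_deriv_eq_zero (fun z => (h3 z).differentiableAt)
      (fun z => (h3 z).deriv) t 0
    rw [zero_smul, sub_zero] at h4
    rw [← h4]
    abel
  refine ⟨deriv φ 0, φ 0, hP, hPT, fun t => ?_⟩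
  change t • deriv φ 0 + φ 0 - a (P t) ∈ Λ
  rw [← haff]
  exact ho t

/-- curves over points are constant -/
theorem Lin.ne (hf : Fib T Λ a) (h : Lin T Λ a P α β) (hne : ¬ ∀ z, P z = P 0) : α ≠ 0 := by
  rintro rfl
  apply hne
  refine hf P β h.hol h.mem fun z => ?_
  have := h.ov z
  simpa using this

/-- **Brody's theorem** -/
theorem brody (hTc : IsCompact T) (hTP : T ⊆ PM)
    (h : ∀ P : ℂ → Mat N, HolP univ P → (∀ z, P z ∈ T) → (∀ z, ‖fderiv ℝ P z‖ ≤ 2) →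
      ∀ z, P z = P 0) : ∃ C : ℝ, 0 < C ∧ ∀ P : ℂ → Mat N, HolP (ball 0 1) P →
      (∀ w ∈ ball (0 : ℂ) 1, P w ∈ T) → ‖fderiv ℝ P 0‖ ≤ C := by
  by_contra hcon
  push Not at hcon
  have h1 : ∀ n : ℕ, ∃ h : ℂ → Mat N, HolP (ball 0 ((n : ℝ) + 1)) h ∧
      (∀ z ∈ ball (0 : ℂ) ((n : ℝ) + 1), h z ∈ T) ∧
      (∀ z ∈ ball (0 : ℂ) (((n : ℝ) + 1) / 2), ‖fderiv ℝ h z‖ ≤ 2) ∧ ‖fderiv ℝ h 0‖ = 1 := by
    intro n
    obtain ⟨P, hP, hPT, hb⟩ := hcon (2 * ((n : ℝ) + 1)) (by positivity)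
    exact rescale (by positivity) hP hPT hb
  choose h hh hhT hh2 hh1 using h1
  set 𝓤 : Ultrafilter ℕ := hyperfilter ℕ with h𝓤
  have hge : ∀ L : ℝ, ∀ᶠ n : ℕ in (𝓤 : Filter ℕ), L ≤ ((n : ℝ) + 1) / 2 := by
    intro L
    filter_upwards [hyper_ge (2 * L)] with n hn
    linarith
  have hmono : ∀ L : ℝ, ∀ᶠ n : ℕ in (𝓤 : Filter ℕ), ball (0 : ℂ) L ⊆ ball 0 ((n : ℝ) + 1) := by
    intro L
    filter_upwards [hge L] with n hn
    apply ball_subset_ball
    have : (0 : ℝ) ≤ n := Nat.cast_nonneg n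
    linarith
  obtain ⟨H, hH, hHT, hHc, hHd⟩ := exists_limit_loc_l hTc hTP (𝓤 := 𝓤) (h := h) (by
      intro L
      filter_upwards [hmono L] with n hn z hz
      obtain ⟨V, F, hV, hzV, hd, hF⟩ := hh n z (hn hz)
      exact ⟨V, F, hV, hzV, hd, hF⟩) (by
      intro L
      filter_upwards [hmono L] with n hn z hz
      exact hhT n z (hn hz)) (by
      intro L
      refine ⟨2, ?_⟩
      filter_upwards [hge L] with n hn z hz
      exact hh2 n z (ball_subset_ball hn hz))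
  have hB : ∀ z, ‖fderiv ℝ H z‖ ≤ 2 := by
    intro z
    refine le_of_tendsto (hHd z).norm ?_
    filter_upwards [hge (‖z‖ + 1)] with n hn
    exact hh2 n z (mem_ball_zero_iff.2 (by linarith))
  have hconst := ‹∀ P : ℂ → Mat N, HolP univ P → (∀ z, P z ∈ T) → (∀ z, ‖fderiv ℝ P z‖ ≤ 2) →
      ∀ z, P z = P 0› H hH hHT hB
  have h3 : fderiv ℝ H 0 = 0 := by
    have : H = fun _ => H 0 := funext hconst
    rw [this]
    simp
  have h4 := (hHd 0).norm
  rw [h3, norm_zero] at h4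
  simp only [hh1] at h4
  exact zero_ne_one (tendsto_nhds_unique h4 tendsto_const_nhds)

/-- the estimate of the truncated distance along a disc -/
theorem disc_trunc_gen {Ξ : Set (Mat N)} {ε C : ℝ} (hε : 0 < ε) (hC : 0 < C)
    (hinf : ∀ P : ℂ → Mat N, HolP (ball 0 1) P → (∀ w ∈ ball (0 : ℂ) 1, P w ∈ T) →
      ∀ D : ℝ, 0 ≤ D → D ≤ 1 → (∀ M ∈ Ξ, D ≤ ‖P 0 - M‖) → ‖fderiv ℝ P 0‖ * D ^ ε ≤ C) :
    ∃ C : ℝ, 0 < C ∧ ∀ (D : ℝ), 0 < D → D ≤ 1 → ∀ M0 : Mat N,
      (∀ M ∈ Ξ, D ≤ ‖M0 - M‖) → ∀ P : ℂ → Mat N, HolP (ball 0 1) P →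
      (∀ w ∈ ball (0 : ℂ) 1, P w ∈ T) → ∀ s ∈ ball (0 : ℂ) 1, ∀ t ∈ ball (0 : ℂ) 1,
      dist (min ‖P t - M0‖ (D / 2)) (min ‖P s - M0‖ (D / 2)) ≤
        C / D ^ ε * Pool.Agent.Helper206.cost s t := by
  refine ⟨2 * C * 2 ^ ε + 1, by positivity, fun D hD0 hD1 M0 hM0 P hP hPT s hs t ht => ?_⟩
  obtain ⟨ζ, hζ, hζn, hζt⟩ := Pool.Agent.Helper206.exists_mob_eq hs ht
  have hmap : MapsTo (Pool.Agent.Helper206.mob s) (ball 0 1) (ball 0 1) := fun z hz =>
    Pool.Agent.Helper206.mob_mem hs hz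
  set h : ℂ → Mat N := fun z => P (Pool.Agent.Helper206.mob s z) with hh
  have hH : HolP (ball 0 1) h :=
    holP_comp_l hP (Pool.Agent.Helper206.mob_differentiableOn hs) isOpen_ball hmap
  have hHT : ∀ z ∈ ball (0 : ℂ) 1, h z ∈ T := fun z hz => hPT _ (hmap hz)
  have hdh : ∀ z ∈ ball (0 : ℂ) 1, DifferentiableAt ℝ h z := fun z hz => hH.differentiableAt hz
  have h0 : h 0 = P s := by rw [hh]; simp only [Pool.Agent.Helper206.mob_zero]
  have h1 : h ζ = P t := by rw [hh]; simp only [hζt]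
  rw [← h0, ← h1]
  clear_value h
  have hDε : 0 < D ^ ε := Real.rpow_pos_of_pos hD0 _
  have hDε1 : D ^ ε ≤ 1 := Real.rpow_le_one hD0.le hD1 hε.le
  have hcost : ‖ζ‖ ≤ Pool.Agent.Helper206.cost s t := by
    rw [hζn]; exact Pool.Agent.Helper206.phd_le_cost hs ht
  suffices dist (min ‖h ζ - M0‖ (D / 2)) (min ‖h 0 - M0‖ (D / 2)) ≤
      (2 * C * 2 ^ ε + 1) / D ^ ε * ‖ζ‖ from
    this.trans (mul_le_mul_of_nonneg_left hcost (by positivity))
  have hK1 : 1 ≤ (2 * C * 2 ^ ε + 1) / D ^ ε := by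
    rw [le_div_iff₀ hDε]
    have : 0 ≤ 2 * C * 2 ^ ε := by positivity
    linarith
  rcases le_or_gt ‖ζ‖ (1 / 2) with hle | hgt
  · set L : ℝ := 2 * C * 2 ^ ε / D ^ ε * ‖ζ‖ with hL
    have hL0 : 0 ≤ L := by positivity
    have hder : ∀ z ∈ closedBall (0 : ℂ) (1 / 2), ‖h z - M0‖ ≤ D / 2 →
        ‖fderiv ℝ h z‖ ≤ 2 * C * 2 ^ ε / D ^ ε := by
      intro z hz hzM
      have hz' : ‖z‖ ≤ 1 / 2 := mem_closedBall_zero_iff.1 hz
      have hz1 : z ∈ ball (0 : ℂ) 1 := mem_ball_zero_iff.2 (by linarith)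
      have hmaps : MapsTo (fun w : ℂ => z + ((1 / 2 : ℝ) : ℂ) * w) (ball 0 1) (ball 0 1) := by
        intro w hw
        rw [mem_ball_zero_iff] at hw ⊢
        refine lt_of_le_of_lt (norm_add_le _ _) ?_
        rw [norm_mul, Complex.norm_real, Real.norm_of_nonneg (by norm_num)]
        linarith
      have h2 := hinf (fun w => h (z + ((1 / 2 : ℝ) : ℂ) * w))
        (holP_comp_l hH (by fun_prop) isOpen_ball hmaps) (fun w hw => hHT _ (hmaps hw)) (D / 2)
        (by positivity) (by linarith) (by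
          intro M hM
          simp only [mul_zero, add_zero]
          have h3 := hM0 M hM
          have h4 : ‖M0 - M‖ ≤ ‖h z - M0‖ + ‖h z - M‖ := by
            have := norm_sub_le (h z - M) (h z - M0)
            rw [sub_sub_sub_cancel_left] at this
            linarith
          linarith)
      have h3 : ‖fderiv ℝ (fun w => h (z + ((1 / 2 : ℝ) : ℂ) * w)) 0‖ =
          (1 / 2) * ‖fderiv ℝ h z‖ := by
        have e1 : aff z (1 / 2) 0 = z := by simp [aff]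
        have := norm_fderiv_aff (Ψ := h) (a := z) (ρ := 1 / 2) (z := 0) (by norm_num)
          (by rw [e1]; exact hH.differentiableAt hz1)
        rw [e1] at this
        rw [← this]
        congr 1
      rw [h3] at h2
      have h4 : (D / 2) ^ ε = D ^ ε / 2 ^ ε := Real.div_rpow hD0.le (by norm_num) _
      rw [h4] at h2
      rw [le_div_iff₀ hDε]
      have h5 : 1 / 2 * ‖fderiv ℝ h z‖ * (D ^ ε / 2 ^ ε) * (2 * 2 ^ ε) ≤ C * (2 * 2 ^ ε) :=
        mul_le_mul_of_nonneg_right h2 (by positivity)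
      have h6 : 1 / 2 * ‖fderiv ℝ h z‖ * (D ^ ε / 2 ^ ε) * (2 * 2 ^ ε) =
          ‖fderiv ℝ h z‖ * D ^ ε := by
        field_simp
      linarith
    have hpath : ∀ z ∈ closedBall (0 : ℂ) (1 / 2), ∀ w ∈ closedBall (0 : ℂ) (1 / 2),
        ‖w - z‖ = ‖ζ‖ → min ‖h w - M0‖ (D / 2) ≤ min ‖h z - M0‖ (D / 2) + L := by
      intro z hz w hw hzw
      have hseg : ∀ u ∈ Icc (0 : ℝ) 1, z + (u : ℂ) * (w - z) ∈ closedBall (0 : ℂ) (1 / 2) := by
        intro u hu
        have := (convex_closedBall (0 : ℂ) (1 / 2)).add_smul_sub_mem hz hw hu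
        rwa [Complex.real_smul] at this
      have h2 := path_le (H := fun u : ℝ => h (z + (u : ℂ) * (w - z)))
        (H' := fun u : ℝ => fderiv ℝ h (z + (u : ℂ) * (w - z)) (w - z)) (M0 := M0) (ρ := D / 2)
        hL0 (fun u hu => by
          have e1 : HasDerivAt (fun u : ℝ => z + (u : ℂ) * (w - z)) (w - z) u := by
            have := ((Complex.ofRealCLM.hasDerivAt (x := u)).mul_const (w - z)).const_add z
            simpa using this
          have e2 : HasFDerivAt h (fderiv ℝ h (z + (u : ℂ) * (w - z))) (z + (u : ℂ) * (w - z)) :=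
            (hdh _ (closedBall_subset_ball (by norm_num) (hseg u hu))).hasFDerivAt
          exact HasFDerivAt.comp_hasDerivAt u e2 e1)
        (fun u hu hub => by
          refine (ContinuousLinearMap.le_opNorm _ _).trans ?_
          rw [hzw, hL]
          exact mul_le_mul_of_nonneg_right (hder _ (hseg u hu) hub) (norm_nonneg _))
      simp only [Complex.ofReal_one, one_mul, Complex.ofReal_zero, zero_mul, add_zero,
        add_sub_cancel] at h2
      exact h2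
    have hζc : ζ ∈ closedBall (0 : ℂ) (1 / 2) := mem_closedBall_zero_iff.2 hle
    have h0c : (0 : ℂ) ∈ closedBall (0 : ℂ) (1 / 2) := mem_closedBall_self (by norm_num)
    have e1 := hpath 0 h0c ζ hζc (by rw [sub_zero])
    have e2 := hpath ζ hζc 0 h0c (by rw [zero_sub, norm_neg])
    have e3 : L ≤ (2 * C * 2 ^ ε + 1) / D ^ ε * ‖ζ‖ := by
      rw [hL]
      gcongr
      linarith
    rw [Real.dist_eq, abs_le]
    constructor <;> linarith
  · have h2 : ∀ M : Mat N, 0 ≤ min ‖M - M0‖ (D / 2) := fun M => le_min (norm_nonneg _) (by positivity)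
    have h3 : ∀ M : Mat N, min ‖M - M0‖ (D / 2) ≤ 1 / 2 := fun M =>
      (min_le_right _ _).trans (by linarith)
    have h4 : 1 / 2 ≤ (2 * C * 2 ^ ε + 1) / D ^ ε * ‖ζ‖ := by
      nlinarith
    rw [Real.dist_eq, abs_le]
    constructor
    · linarith [h2 (h ζ), h3 (h 0)]
    · linarith [h2 (h 0), h3 (h ζ)]

end Pool.Agent.N154.TB
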