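import Pool.Agent.N154.TB.Defs
import Pool.Agent.N154.TB.Bro
import Pool.Agent.N154.GG.Geo2

/-! From projective sets over complex tori to compact sets of projection matrices. -/

set_option autoImplicit false

open Filter Topology Metric Set LinearAlgebra.Projectivization MvPolynomial

namespace Pool.Agent.N154.TB

open FF Pool.Agent.Y190.OP Pool.Agent.W602.GT
open Pool.Agent.N155 (eval_smul val_eval nz nz_Phi)
open Pool.Agent.N154.TT (HolToTorus RiemannForm)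
open Pool.Agent.N154.GG (HolMap GraphAt contDiffAt_chart toProj toProj_Phi Phi_rep_mk
  Phi_rep_toProj proj_ext holMap_of holP_of)

variable {n m : ℕ} {ι : Type} {F : ι → MvPolynomial (Fin (n + 1)) ℂ} {d : ℕ}
  {L : Submodule ℤ (Fin m → ℂ)} {α : (Fin (n + 1) → ℂ) → (Fin m → ℂ) ⧸ L}
  {κ : Type} {k : κ → ℕ} {η : κ → (Fin (n + 1) → ℂ) → (Fin (n + 1) → ℂ) → (Fin (n + 1) → ℂ) → ℂ}
  {X S : Set (Fin (n + 1) → ℂ)}

/-- the projection matrices of the points of a set -/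
def TS (X : Set (Fin (n + 1) → ℂ)) : Set (Mat (n + 1)) := {M | ∃ u ∈ X, M = Phi u}

/-- cones without the origin -/
def Conic (X : Set (Fin (n + 1) → ℂ)) : Prop :=
  ∀ x ∈ X, x ≠ 0 ∧ ∀ c : ℂ, c ≠ 0 → c • x ∈ X

theorem TS_PM (hX : Conic X) : TS X ⊆ PM := by
  rintro M ⟨u, hu, rfl⟩
  exact ⟨u, (hX u hu).1, rfl⟩

theorem cone_conic (hF : ∀ i, IsForm (F i)) : Conic (Cone F) := by
  intro x hx
  refine ⟨hx.1, fun c hc => ⟨smul_ne_zero hc hx.1, fun i => ?_⟩⟩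
  obtain ⟨e, he⟩ := hF i
  rw [val_eval, eval_smul he, ← val_eval, hx.2 i, mul_zero]

theorem TS_chart (hX : Conic X) {M : Mat (n + 1)} (hM : M ∈ TS X) {i : Fin (n + 1)}
    (hi : M i i ≠ 0) : chart i M ∈ X := by
  obtain ⟨u, hu, rfl⟩ := hM
  have h1 := (Phi_diag_ne (hX u hu).1).1 hi
  rw [chart_Phi (hX u hu).1 h1]
  exact (hX u hu).2 _ (inv_ne_zero h1)

theorem isCompact_TF (hF : ∀ i, IsForm (F i)) : IsCompact (TS (Cone F)) := by
  set A : Set (Fin (n + 1) → ℂ) := sphere 0 1 ∩ {u | ∀ i, eval u (F i) = 0} with hA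
  have hcl : IsClosed {u : Fin (n + 1) → ℂ | ∀ i, eval u (F i) = 0} := by
    have h1 : {u : Fin (n + 1) → ℂ | ∀ i, eval u (F i) = 0} =
        ⋂ i, {u | eval u (F i) = 0} := by
      ext u
      simp only [mem_iInter]
      rfl
    rw [h1]
    refine isClosed_iInter fun i => ?_
    have h2 : Continuous fun u : Fin (n + 1) → ℂ => eval u (F i) := by
      simp only [eval_eq']
      fun_prop
    exact isClosed_eq h2 continuous_const
  have hSc : IsCompact A := (isCompact_sphere 0 1).inter_right hcl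
  have hne : ∀ u ∈ A, u ≠ 0 := by
    rintro u ⟨hu, -⟩ rfl
    rw [mem_sphere, dist_self] at hu
    exact zero_ne_one hu
  have himg : TS (Cone F) = Phi '' A := by
    ext M
    constructor
    · rintro ⟨u, hu, rfl⟩
      have hn : (‖u‖ : ℂ) ≠ 0 := by
        have := norm_pos_iff.2 hu.1
        exact_mod_cast this.ne'
      refine ⟨(‖u‖ : ℂ)⁻¹ • u, ⟨?_, ?_⟩, Phi_smul (inv_ne_zero hn) u⟩
      · rw [mem_sphere, dist_zero_right, norm_smul, norm_inv, Complex.norm_real, norm_norm]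
        exact inv_mul_cancel₀ (by exact_mod_cast hn)
      · intro i
        obtain ⟨e, he⟩ := hF i
        rw [eval_smul he, ← val_eval, hu.2 i, mul_zero]
    · rintro ⟨u, hu, rfl⟩
      exact ⟨u, ⟨hne u hu, fun i => by rw [val_eval]; exact hu.2 i⟩, rfl⟩
  rw [himg]
  exact hSc.image_of_continuousOn fun u hu => (continuousAt_Phi (hne u hu)).continuousWithinAt

theorem mem_TS {p : ℙ ℂ (Fin (n + 1) → ℂ)} (hp : p.rep ∈ X) : Phi p.rep ∈ TS X := ⟨_, hp, rfl⟩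

theorem rep_toProj (hX : Conic X) {M : Mat (n + 1)} (hM : M ∈ TS X) : (toProj M).rep ∈ X := by
  obtain ⟨u, hu, rfl⟩ := hM
  rw [toProj_Phi (hX u hu).1]
  obtain ⟨c, hc⟩ := Projectivization.exists_smul_eq_mk_rep ℂ u (hX u hu).1
  rw [← hc]
  exact (hX u hu).2 _ c.ne_zero

/-- the function on the matrices -/
noncomputable def aM (L : Submodule ℤ (Fin m → ℂ)) (α : (Fin (n + 1) → ℂ) → (Fin m → ℂ) ⧸ L)
    (X : Set (Fin (n + 1) → ℂ)) (M : Mat (n + 1)) : Fin m → ℂ := by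
  classical
  exact if h : ∃ u ∈ X, M = Phi u then (α h.choose).out else 0

/-- the lattice -/
noncomputable def La (L : Submodule ℤ (Fin m → ℂ)) : AddSubgroup (Fin m → ℂ) := L.toAddSubgroup

theorem mem_La {L : Submodule ℤ (Fin m → ℂ)} {z : Fin m → ℂ} : z ∈ La L ↔ z ∈ L := Iff.rfl

theorem mem_La_iff {z w : Fin m → ℂ} : z - w ∈ La L ↔
    (Submodule.Quotient.mk z : (Fin m → ℂ) ⧸ L) = Submodule.Quotient.mk w :=
  (Submodule.Quotient.eq L).symm

variable {Z : Set (Fin (n + 1) → ℂ)}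

theorem aM_Phi (hZ : Conic Z) (hα : HolToTorus Z L α) {u : Fin (n + 1) → ℂ} (hu : u ∈ Z) :
    (Submodule.Quotient.mk (aM L α Z (Phi u)) : (Fin m → ℂ) ⧸ L) = α u := by
  classical
  have h : ∃ v ∈ Z, Phi u = Phi v := ⟨u, hu, rfl⟩
  unfold aM
  rw [dif_pos h]
  have h1 := h.choose_spec
  obtain ⟨c, hc, hc'⟩ := Phi_inj (hZ u hu).1 (hZ _ h1.1).1 h1.2
  have h2 : α h.choose = α u := by
    rw [hc']
    exact hα.homog u hu c hc
  rw [← h2]
  exact Quotient.out_eq _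

theorem aM_chart (hZ : Conic Z) (hα : HolToTorus Z L α) {M : Mat (n + 1)}
    (hM : M ∈ TS Z) {i : Fin (n + 1)} (hi : M i i ≠ 0) :
    (Submodule.Quotient.mk (aM L α Z M) : (Fin m → ℂ) ⧸ L) = α (chart i M) := by
  have h1 := TS_chart hZ hM hi
  have h2 := aM_Phi hZ hα h1
  rwa [PM.Phi_chart (TS_PM hZ hM) hi] at h2

theorem aM_rep (hZ : Conic Z) (hα : HolToTorus Z L α) {M : Mat (n + 1)}
    (hM : M ∈ TS Z) :
    (Submodule.Quotient.mk (aM L α Z M) : (Fin m → ℂ) ⧸ L) = α (toProj M).rep := by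
  have h1 := aM_Phi hZ hα (rep_toProj hZ hM)
  rwa [Phi_rep_toProj (TS_PM hZ hM)] at h1

/-- lattices are cocompact -/
theorem exists_coc (L : Submodule ℤ (Fin m → ℂ)) [DiscreteTopology L] [IsZLattice ℝ L] :
    ∃ D : ℝ, ∀ z : Fin m → ℂ, ∃ l ∈ L, ‖z - l‖ ≤ D := by
  classical
  have : Module.Free ℤ L := ZLattice.module_free ℝ L
  have : Module.Finite ℤ L := ZLattice.module_finite ℝ L
  set b0 := Module.Free.chooseBasis ℤ L
  set b := b0.ofZLatticeBasis ℝ L with hb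
  refine ⟨∑ i, ‖b i‖, fun z => ⟨ZSpan.floor b z, ?_, ZSpan.norm_fract_le b z⟩⟩
  exact (Module.Basis.ofZLatticeBasis_span ℝ L b0).le (ZSpan.floor b z).2

/-- the torus data -/
theorem td_of [DiscreteTopology L] [IsZLattice ℝ L] (hZ : Conic Z) (hα : HolToTorus Z L α)
    {T : Set (Mat (n + 1))} (hTc : IsCompact T) (hT : T ⊆ TS Z) : TV T (La L) (aM L α Z) where
  comp := hTc
  sub := fun _ h => TS_PM hZ (hT h)
  disc := by
    have h1 : IsOpen ({0} : Set L) := isOpen_discrete _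
    obtain ⟨δ, hδ, h2⟩ := Metric.isOpen_iff.1 h1 0 rfl
    refine ⟨δ, hδ, fun l hl hlδ => ?_⟩
    have h3 : (⟨l, hl⟩ : L) ∈ ball (0 : L) δ := by
      rw [mem_ball_zero_iff]
      exact hlδ
    have h4 := h2 h3
    rw [mem_singleton_iff] at h4
    exact congrArg Subtype.val h4
  coc := by
    obtain ⟨D, hD⟩ := exists_coc L
    exact ⟨D, hD⟩
  loc := by
    intro M0 hM0
    have hM0' := hT hM0
    obtain ⟨i, hi⟩ := PM.exists_diag (TS_PM hZ hM0')
    obtain ⟨w, hw, hwe⟩ := hα.hol _ (TS_chart hZ hM0' hi)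
    have h1 : ∀ᶠ u in 𝓝 (chart i M0), AnalyticAt ℂ w u ∧
        (u ∈ Z → α u = Submodule.Quotient.mk (w u)) := hw.eventually_analyticAt.and hwe
    obtain ⟨V, hVs, hV, hV0⟩ := _root_.mem_nhds_iff.1 h1
    have h2 : ∀ᶠ M : Mat (n + 1) in 𝓝 M0, M i i ≠ 0 ∧ chart i M ∈ V :=
      ((continuous_apply_apply i i).continuousAt.eventually_ne hi).and
        ((continuousAt_chart hi).eventually (hV.mem_nhds hV0))
    obtain ⟨O, hOs, hO, hMO⟩ := _root_.mem_nhds_iff.1 h2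
    refine ⟨O, fun M => w (chart i M), hO, hMO, fun M hM => ?_, fun M hM => ?_, ?_⟩
    · have h3 : ContDiffAt ℝ 1 w (chart i M) :=
        ((hVs (hOs hM).2).1.contDiffAt (n := 1)).restrict_scalars ℝ
      exact h3.comp M (contDiffAt_chart (hOs hM).1)
    · rw [mem_La_iff, aM_chart hZ hα (hT hM.2) (hOs hM.1).1]
      exact (hVs (hOs hM.1).2).2 (TS_chart hZ (hT hM.2) (hOs hM.1).1)
    · intro U P z _ hz hP hPO
      have h3 := hP.diff_chart hz (hOs hPO).1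
      exact ((hVs (hOs hPO).2).1.differentiableAt).comp z h3

/-- charts at the points where `X` is a manifold -/
theorem graph_chart (hX : Conic X) (hα : HolToTorus X L α) {a : Mat (n + 1) → Fin m → ℂ}
    (ha : ∀ M ∈ TS X, ∀ i, M i i ≠ 0 →
      (Submodule.Quotient.mk (a M) : (Fin m → ℂ) ⧸ L) = α (chart i M))
    {T : Set (Mat (n + 1))} (hT : T ⊆ TS X) {x0 : Fin (n + 1) → ℂ} (hx0 : x0 ∈ X)
    (hg : GraphAt X d x0) :
    ∃ (i : Fin (n + 1)) (J : Fin d → Fin (n + 1)) (O : Set (Mat (n + 1)))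
      (U : Set (Fin d → ℂ)) (Ψ : (Fin d → ℂ) → Fin (n + 1) → ℂ) (W : (Fin d → ℂ) → Fin m → ℂ),
      LC T (La L) a i d J O U Ψ W ∧ Phi x0 ∈ O ∧ x0 i ≠ 0 ∧
      (∀ z ∈ U, Ψ z ∈ X ∧ α (Ψ z) = Submodule.Quotient.mk (W z)) ∧
      (∀ z ∈ U, Ψ z i = 1 ∧ ∀ k, Ψ z (J k) = z k) ∧
      Ψ (fun k => chart i (Phi x0) (J k)) = chart i (Phi x0) := by
  obtain ⟨i, J, U, Ψ, hxi, hU, hxU, hΨ, hΨX, hev⟩ := hg
  have hx00 := (hX x0 hx0).1
  have hi : Phi x0 i i ≠ 0 := (Phi_diag_ne hx00).2 hxi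
  have hch : chart i (Phi x0) = (x0 i)⁻¹ • x0 := chart_Phi hx00 hxi
  have hξ0 : (fun k => chart i (Phi x0) (J k)) = fun k => x0 (J k) / x0 i := by
    funext k
    rw [hch, Pi.smul_apply, smul_eq_mul]
    ring
  have hΨ0 : Ψ (fun k => x0 (J k) / x0 i) = chart i (Phi x0) := by
    have h1 := hev.self_of_nhds hx0
    rw [hch]
    conv_rhs => rw [h1]
    rw [smul_smul, Pi.smul_apply, smul_eq_mul, (hΨX _ hxU).2.1, mul_one,
      inv_mul_cancel₀ hxi, one_smul]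
  have hcX : chart i (Phi x0) ∈ X := TS_chart hX ⟨x0, hx0, rfl⟩ hi
  obtain ⟨w, hw, hwe⟩ := hα.hol _ hcX
  have h1 : ∀ᶠ u in 𝓝 (chart i (Phi x0)), AnalyticAt ℂ w u ∧
      (u ∈ X → α u = Submodule.Quotient.mk (w u)) := hw.eventually_analyticAt.and hwe
  obtain ⟨V, hVs, hV, hV0⟩ := _root_.mem_nhds_iff.1 h1
  have hUo : IsOpen (U ∩ Ψ ⁻¹' V) := hΨ.continuousOn.isOpen_inter_preimage hU hV
  have hU0 : (fun k => chart i (Phi x0) (J k)) ∈ U ∩ Ψ ⁻¹' V := by
    rw [hξ0]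
    refine ⟨hxU, ?_⟩
    rw [mem_preimage, hΨ0]
    exact hV0
  have hcξ : ContinuousAt (fun (M : Mat (n + 1)) k => chart i M (J k)) (Phi x0) := by
    rw [continuousAt_pi]
    intro k
    exact (continuous_apply (J k)).continuousAt.comp (continuousAt_chart hi)
  have h2 : ∀ᶠ M : Mat (n + 1) in 𝓝 (Phi x0), (M i i ≠ 0 ∧ chart i M ∈ V) ∧
      (fun k => chart i M (J k)) ∈ U ∩ Ψ ⁻¹' V ∧
      (x0 i • chart i M ∈ X → x0 i • chart i M =
        (x0 i • chart i M) i • Ψ (fun k => (x0 i • chart i M) (J k) / (x0 i • chart i M) i)) := by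
    refine (((continuous_apply_apply i i).continuousAt.eventually_ne hi).and
      ((continuousAt_chart hi).eventually (hV.mem_nhds hV0))).and
      ((hcξ.eventually (hUo.mem_nhds hU0)).and ?_)
    have h3 : Tendsto (fun M : Mat (n + 1) => x0 i • chart i M) (𝓝 (Phi x0)) (𝓝 x0) := by
      have h4 := (continuousAt_chart hi).tendsto.const_smul (x0 i)
      rwa [hch, smul_smul, mul_inv_cancel₀ hxi, one_smul] at h4
    exact h3.eventually hev
  obtain ⟨O, hOs, hO, hMO⟩ := _root_.mem_nhds_iff.1 h2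
  have hΨ' : AnalyticOnNhd ℂ Ψ (U ∩ Ψ ⁻¹' V) := hΨ.mono inter_subset_left
  refine ⟨i, J, O, U ∩ Ψ ⁻¹' V, Ψ, fun z => w (Ψ z), ⟨hO, hUo, hΨ', fun z hz => ?_,
    fun M hM => ?_⟩, hMO, hxi, fun z hz => ⟨(hΨX z hz.1).1, (hVs hz.2).2 (hΨX z hz.1).1⟩,
    fun z hz => (hΨX z hz.1).2, ?_⟩
  · exact AnalyticAt.fun_comp (g := w) (hVs hz.2).1 (hΨ z hz.1)
  · obtain ⟨⟨e1, e2⟩, e3, e4⟩ := hOs hM
    refine ⟨e1, e3, fun hMT => ?_⟩
    have hcone := TS_chart hX (hT hMT) e1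
    have h5 := e4 ((hX _ hcone).2 _ hxi)
    have h6 : chart i M = Ψ (fun k => chart i M (J k)) := by
      have h7 : (fun k => (x0 i • chart i M) (J k) / (x0 i • chart i M) i) =
          fun k => chart i M (J k) := by
        funext k
        rw [Pi.smul_apply, Pi.smul_apply, smul_eq_mul, smul_eq_mul, PM.chart_self e1, mul_one,
          mul_div_cancel_left₀ _ hxi]
      rw [h7, Pi.smul_apply, smul_eq_mul, PM.chart_self e1, mul_one] at h5
      exact smul_right_injective _ hxi h5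
    refine ⟨h6, ?_⟩
    rw [mem_La_iff, ha M (hT hMT) i e1]
    change α (chart i M) = Submodule.Quotient.mk (w (Ψ fun k => chart i M (J k)))
    rw [← h6]
    exact (hVs e2).2 hcone
  · rw [hξ0]
    exact hΨ0

/-- independence in the charts -/
theorem indep_graph {i : Fin (n + 1)} {J : Fin d → Fin (n + 1)} {U : Set (Fin d → ℂ)}
    {Ψ : (Fin d → ℂ) → Fin (n + 1) → ℂ} (hU : IsOpen U) (hΨ : AnalyticOnNhd ℂ Ψ U)
    (hΨX : ∀ z ∈ U, Ψ z i = 1 ∧ ∀ k, Ψ z (J k) = z k) {z : Fin d → ℂ} (hz : z ∈ U)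
    {v u : Fin d → ℂ} (hli : LinearIndependent ℂ ![v, u]) :
    LinearIndependent ℂ ![Ψ z, fderiv ℂ Ψ z v, fderiv ℂ Ψ z u] := by
  have hd1 := (hΨ z hz).differentiableAt.hasFDerivAt
  have hdi : ∀ v, fderiv ℂ Ψ z v i = 0 := by
    intro v
    have h3 : HasFDerivAt (fun z => Ψ z i) ((ContinuousLinearMap.proj (R := ℂ)
      (φ := fun _ : Fin (n + 1) => ℂ) i).comp (fderiv ℂ Ψ z)) z :=
      (ContinuousLinearMap.proj (R := ℂ) (φ := fun _ : Fin (n + 1) => ℂ) i).hasFDerivAt.comp z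
        hd1
    have h4 : HasFDerivAt (fun z => Ψ z i) (0 : (Fin d → ℂ) →L[ℂ] ℂ) z :=
      (hasFDerivAt_const (1 : ℂ) z).congr_of_eventuallyEq (by
        filter_upwards [hU.mem_nhds hz] with z' hz'
        exact (hΨX z' hz').1)
    have h5 := DFunLike.congr_fun (h3.unique h4) v
    exact h5
  have hdJ : ∀ v k, fderiv ℂ Ψ z v (J k) = v k := by
    intro v k
    have h3 : HasFDerivAt (fun z => Ψ z (J k)) ((ContinuousLinearMap.proj (R := ℂ)
      (φ := fun _ : Fin (n + 1) => ℂ) (J k)).comp (fderiv ℂ Ψ z)) z :=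
      (ContinuousLinearMap.proj (R := ℂ) (φ := fun _ : Fin (n + 1) => ℂ)
        (J k)).hasFDerivAt.comp z hd1
    have h4 : HasFDerivAt (fun z => Ψ z (J k)) (ContinuousLinearMap.proj (R := ℂ)
      (φ := fun _ : Fin d => ℂ) k) z :=
      ((ContinuousLinearMap.proj (R := ℂ)
        (φ := fun _ : Fin d => ℂ) k).hasFDerivAt).congr_of_eventuallyEq (by
        filter_upwards [hU.mem_nhds hz] with z' hz'
        exact (hΨX z' hz').2 k)
    have h5 := DFunLike.congr_fun (h3.unique h4) v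
    exact h5
  rw [LinearIndependent.pair_iff] at hli
  rw [Fintype.linearIndependent_iff]
  intro g hg
  rw [Fin.sum_univ_three] at hg
  change g 0 • Ψ z + g 1 • fderiv ℂ Ψ z v + g 2 • fderiv ℂ Ψ z u = 0 at hg
  have e0 : g 0 = 0 := by
    have h3 := congrFun hg i
    simp only [Pi.add_apply, Pi.smul_apply, smul_eq_mul, hdi, (hΨX z hz).1, mul_zero,
      add_zero, mul_one, Pi.zero_apply] at h3
    exact h3
  have e1 : g 1 • v + g 2 • u = 0 := by
    funext k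
    have h3 := congrFun hg (J k)
    simp only [Pi.add_apply, Pi.smul_apply, smul_eq_mul, hdJ, e0, zero_mul, zero_add,
      Pi.zero_apply] at h3 ⊢
    exact h3
  obtain ⟨e2, e3⟩ := hli _ _ e1
  intro k
  fin_cases k
  · exact e0
  · exact e2
  · exact e3

/-- the affine chart of projective space -/
noncomputable def ins (i : Fin (n + 1)) (z : Fin n → ℂ) : Fin (n + 1) → ℂ :=
  i.insertNth (α := fun _ => ℂ) 1 z

theorem ins_an (i : Fin (n + 1)) (U : Set (Fin n → ℂ)) : AnalyticOnNhd ℂ (ins i) U := by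
  intro z _
  rw [analyticAt_pi_iff]
  intro l
  rcases Fin.eq_self_or_eq_succAbove i l with rfl | ⟨l', rfl⟩
  · have e : (fun z : Fin n → ℂ => ins l z l) = fun _ => 1 := by
      funext z
      unfold ins
      rw [Fin.insertNth_apply_same]
    rw [e]
    exact analyticAt_const
  · have e : (fun z : Fin n → ℂ => ins i z (i.succAbove l')) = fun z => z l' := by
      funext z
      unfold ins
      rw [Fin.insertNth_apply_succAbove]
    rw [e]
    exact (ContinuousLinearMap.proj (R := ℂ) (φ := fun _ : Fin n => ℂ) l').analyticAt z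

theorem ins_chart {M : Mat (n + 1)} {i : Fin (n + 1)} (hi : M i i ≠ 0) :
    chart i M = ins i (fun k => chart i M (i.succAbove k)) := by
  funext l
  rcases Fin.eq_self_or_eq_succAbove i l with rfl | ⟨l', rfl⟩
  · unfold ins
    rw [Fin.insertNth_apply_same, PM.chart_self hi]
  · unfold ins
    rw [Fin.insertNth_apply_succAbove]

/-- charts of the ambient space -/
theorem amb_chart (hX : Conic X) (hα : HolToTorus X L α) {a : Mat (n + 1) → Fin m → ℂ}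
    (ha : ∀ M ∈ TS X, ∀ i, M i i ≠ 0 →
      (Submodule.Quotient.mk (a M) : (Fin m → ℂ) ⧸ L) = α (chart i M))
    {T : Set (Mat (n + 1))} (hT : T ⊆ TS X) {M0 : Mat (n + 1)} (hM0 : M0 ∈ T)
    {i : Fin (n + 1)} (hi : M0 i i ≠ 0) {V0 : Set (Fin (n + 1) → ℂ)} (hV0 : IsOpen V0)
    (hx0 : chart i M0 ∈ V0) :
    ∃ (O : Set (Mat (n + 1))) (U : Set (Fin n → ℂ)) (W : (Fin n → ℂ) → Fin m → ℂ),
      LC T (La L) a i n i.succAbove O U (ins i) W ∧ M0 ∈ O ∧ ∀ z ∈ U, ins i z ∈ V0 := by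
  obtain ⟨w, hw, hwe⟩ := hα.hol _ (TS_chart hX (hT hM0) hi)
  have h1 : ∀ᶠ u in 𝓝 (chart i M0), AnalyticAt ℂ w u ∧
      (u ∈ X → α u = Submodule.Quotient.mk (w u)) := hw.eventually_analyticAt.and hwe
  obtain ⟨V, hVs, hV, hV1⟩ := _root_.mem_nhds_iff.1 h1
  set U : Set (Fin n → ℂ) := univ ∩ ins i ⁻¹' (V ∩ V0) with hUdef
  have hUo : IsOpen U := (ins_an i univ).continuousOn.isOpen_inter_preimage isOpen_univ
    (hV.inter hV0)
  have h2 : ∀ᶠ M : Mat (n + 1) in 𝓝 M0, M i i ≠ 0 ∧ chart i M ∈ V ∩ V0 :=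
    ((continuous_apply_apply i i).continuousAt.eventually_ne hi).and
      ((continuousAt_chart hi).eventually ((hV.inter hV0).mem_nhds ⟨hV1, hx0⟩))
  obtain ⟨O, hOs, hO, hMO⟩ := _root_.mem_nhds_iff.1 h2
  refine ⟨O, U, fun z => w (ins i z), ⟨hO, hUo, ins_an i U, fun z hz => ?_, fun M hM => ?_⟩, hMO,
    fun z hz => hz.2.2⟩
  · exact AnalyticAt.fun_comp (g := w) (hVs hz.2.1).1 (ins_an i univ z (mem_univ z))
  · obtain ⟨e1, e2⟩ := hOs hM
    have e3 := ins_chart e1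
    refine ⟨e1, ⟨mem_univ _, ?_⟩, fun hMT => ⟨e3, ?_⟩⟩
    · rw [mem_preimage, ← e3]
      exact e2
    · rw [mem_La_iff, ha M (hT hMT) i e1]
      change α (chart i M) = Submodule.Quotient.mk (w (ins i fun k => chart i M (i.succAbove k)))
      rw [← e3]
      exact (hVs e2.1).2 (TS_chart hX (hT hMT) e1)

/-- the matrices of the points of `S` -/
def SM (S : Set (Fin (n + 1) → ℂ)) : Set (Mat (n + 1)) := {M | ∀ i, M i i ≠ 0 → chart i M ∈ S}

/-- the data of the forms -/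
theorem gd_of (hX : Conic X) (hS : ∀ x ∈ S, ∀ c : ℂ, c ≠ 0 → c • x ∈ S)
    (hα : HolToTorus X L α) {a : Mat (n + 1) → Fin m → ℂ}
    (ha : ∀ M ∈ TS X, ∀ i, M i i ≠ 0 →
      (Submodule.Quotient.mk (a M) : (Fin m → ℂ) ⧸ L) = α (chart i M))
    (hη : TwoForms X S d α k η) {T : Set (Mat (n + 1))} (hT : T ⊆ TS X)
    (hd : ∀ H : ℂ → Mat (n + 1), HolP univ H → (∀ z, H z ∈ T) → ¬ (∀ z, H z = H 0) →
      Dense {t | H t ∉ SM S}) : GVk T (La L) a η k (SM S) where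
  homog := fun M hM i hi q v w c e f hc => hη.tw.twist q _ (TS_chart hX (hT hM) hi) v w c e f hc
  kle := hη.tw.le
  zero := by
    intro q hq H v w hv hH hHT ho
    obtain ⟨D, hD, hD'⟩ := hη.tw.zeros q hq
    obtain ⟨t, ht⟩ := hD v w hv
    refine ⟨t, fun i hi => hD' _ (TS_chart hX (hT (hHT t)) hi) ?_⟩
    rw [← ha _ (hT (hHT t)) i hi, ← mem_La_iff.1 (ho t)]
    exact ht
  dense := hd
  loc := by
    intro M0 hM0
    obtain ⟨i0, hi0⟩ := PM.exists_diag (TS_PM hX (hT hM0))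
    have hx := TS_chart hX (hT hM0) hi0
    by_cases hg : GraphAt X d (chart i0 M0)
    · obtain ⟨i, J, O, U, Ψ, W, hLC, hMO, -, hU1, -, -⟩ := graph_chart hX hα ha hT hx hg
      rw [PM.Phi_chart (TS_PM hX (hT hM0)) hi0] at hMO
      exact ⟨i, d, J, O, U, Ψ, W, hLC, hMO, fun q => hη.hol.hol q U Ψ hLC.2.1 hLC.2.2.1
        fun z hz => (hU1 z hz).1⟩
    · obtain ⟨V, hV, hxV, hVη⟩ := hη.hol.sing _ hx hg
      obtain ⟨O, U, W, hLC, hMO, hUV⟩ := amb_chart hX hα ha hT hM0 hi0 hV hxV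
      refine ⟨i0, n, i0.succAbove, O, U, ins i0, W, hLC, hMO, fun q p hp => ?_⟩
      have h1 : AnalyticAt ℂ (fun p : (Fin n → ℂ) × (Fin n → ℂ) × (Fin n → ℂ) =>
          ((ins i0 p.1, fderiv ℂ (ins i0) p.1 p.2.1, fderiv ℂ (ins i0) p.1 p.2.2) :
            (Fin (n + 1) → ℂ) × (Fin (n + 1) → ℂ) × (Fin (n + 1) → ℂ))) p := by
        have h2 := ins_an i0 univ p.1 (mem_univ _)
        have h3 : AnalyticAt ℂ (fun p : (Fin n → ℂ) × (Fin n → ℂ) × (Fin n → ℂ) =>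
            fderiv ℂ (ins i0) p.1) p := AnalyticAt.fun_comp (g := fderiv ℂ (ins i0)) h2.fderiv
              analyticAt_fst
        have h4 : ∀ g : (Fin n → ℂ) × (Fin n → ℂ) × (Fin n → ℂ) → (Fin n → ℂ), AnalyticAt ℂ g p →
            AnalyticAt ℂ (fun p => fderiv ℂ (ins i0) p.1 (g p)) p := fun g hg =>
          AnalyticAt.fun_comp (g := fun q : ((Fin n → ℂ) →L[ℂ] (Fin (n + 1) → ℂ)) ×
            (Fin n → ℂ) => (ContinuousLinearMap.id ℂ _ q.1) q.2)
            ((ContinuousLinearMap.id ℂ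
              ((Fin n → ℂ) →L[ℂ] (Fin (n + 1) → ℂ))).analyticAt_bilinear _) (h3.prod hg)
        exact (AnalyticAt.fun_comp (g := ins i0) h2 analyticAt_fst).prod
          ((h4 _ (AnalyticAt.fun_comp (g := Prod.fst) analyticAt_fst analyticAt_snd)).prod
            (h4 _ (AnalyticAt.fun_comp (g := Prod.snd) analyticAt_snd analyticAt_snd)))
      exact AnalyticAt.fun_comp
        (g := fun p : (Fin (n + 1) → ℂ) × (Fin (n + 1) → ℂ) × (Fin (n + 1) → ℂ) =>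
          η q p.1 p.2.1 p.2.2) (hVη q _ ⟨hUV _ hp.1, mem_univ _⟩) h1
  pos := by
    intro M0 hM0 hMS
    have hMS' : ¬ ∀ i, M0 i i ≠ 0 → chart i M0 ∈ S := hMS
    push Not at hMS'
    obtain ⟨i0, hi0, hxS⟩ := hMS'
    have hx := TS_chart hX (hT hM0) hi0
    obtain ⟨i, J, O, U, Ψ, W, hLC, hMO, hxi, hU1, hU2, hΨ0⟩ :=
      graph_chart hX hα ha hT hx (hη.smooth _ hx hxS)
    rw [PM.Phi_chart (TS_PM hX (hT hM0)) hi0] at hMO hΨ0
    refine ⟨i, d, J, O, U, Ψ, W, hLC, hMO, fun v w hli hv => ?_⟩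
    obtain ⟨hii, hzU, -⟩ := hLC.2.2.2.2 _ hMO
    refine hη.pos U Ψ W hLC.2.1 hLC.2.2.1 hLC.2.2.2.1 hU1 _ hzU ?_ v w
      (indep_graph hLC.2.1 hLC.2.2.1 hU2 hzU hli) hv
    rw [hΨ0]
    intro hcS
    apply hxS
    have h1 : chart i M0 = (chart i0 M0 i)⁻¹ • chart i0 M0 := by
      have h2 := chart_Phi (hX _ hx).1 hxi
      rwa [PM.Phi_chart (TS_PM hX (hT hM0)) hi0] at h2
    have h3 := hS _ hcS (chart i0 M0 i) hxi
    rwa [h1, smul_smul, mul_inv_cancel₀ hxi, one_smul] at h3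

theorem fib_of (hX : Conic X) {a : Mat (n + 1) → Fin m → ℂ}
    (ha : ∀ M ∈ TS X, (Submodule.Quotient.mk (a M) : (Fin m → ℂ) ⧸ L) = α (toProj M).rep)
    {T : Set (Mat (n + 1))} (hT : T ⊆ TS X)
    (hfib : HypFibres X α) : Fib T (La L) a := by
  intro P c hP hPT ho z
  have h1 := hfib (fun z => toProj (P z)) ⟨holMap_of hP, fun z => rep_toProj hX (hT (hPT z))⟩ (by
    intro z w
    rw [← ha _ (hT (hPT z)), ← ha _ (hT (hPT w))]
    rw [← mem_La_iff.1 (ho z), ← mem_La_iff.1 (ho w)]) z 0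
  have h2 := congrArg (fun p : ℙ ℂ (Fin (n + 1) → ℂ) => Phi p.rep) h1
  change Phi (toProj (P z)).rep = Phi (toProj (P 0)).rep at h2
  rwa [Phi_rep_toProj (TS_PM hX (hT (hPT z))), Phi_rep_toProj (TS_PM hX (hT (hPT 0)))] at h2

end Pool.Agent.N154.TB
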