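import Pool.Agent.N154.TT.ADefs
import Pool.Agent.N154.TB.Geo
import Pool.Agent.N154.TB.Dir

/-! Projections to elliptic curves, from Riemann forms. -/

set_option autoImplicit false

open Filter Topology Metric Set

namespace Pool.Agent.N154.TB

open Pool.Agent.Y190.OP Pool.Agent.N155
open Pool.Agent.N154.TT (RiemannForm)

variable {N m : ℕ} {T : Set (Mat N)} {L : Submodule ℤ (Fin m → ℂ)} {a : Mat N → Fin m → ℂ}
    {κ : Type} {η : κ → (Fin N → ℂ) → (Fin N → ℂ) → (Fin N → ℂ) → ℂ}
    {H : (Fin m → ℂ) → (Fin m → ℂ) → ℂ} {C : ℝ}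

theorem indep_real {p q x : ℂ} (hind : LinearIndependent ℝ ![p, q])
    (hp : ((starRingEnd ℂ) p * x).im = 0) (hq : ((starRingEnd ℂ) q * x).im = 0) : x = 0 := by
  by_contra hx
  rw [LinearIndependent.pair_iff] at hind
  have hxn : x.re ^ 2 + x.im ^ 2 ≠ 0 := by
    intro h0
    apply hx
    have h1 : x.re = 0 := by nlinarith [sq_nonneg x.re, sq_nonneg x.im]
    have h2 : x.im = 0 := by nlinarith [sq_nonneg x.re, sq_nonneg x.im]
    exact Complex.ext h1 h2
  have hp' : p.re * x.im - p.im * x.re = 0 := by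
    rw [Complex.mul_im, Complex.conj_re, Complex.conj_im] at hp
    linarith
  have hq' : q.re * x.im - q.im * x.re = 0 := by
    rw [Complex.mul_im, Complex.conj_re, Complex.conj_im] at hq
    linarith
  -- `q`, `p` are both real multiples of `x`
  have h0 : ((q.re * x.re + q.im * x.im : ℝ) : ℝ) • p + (-(p.re * x.re + p.im * x.im) : ℝ) • q = 0 := by
    apply Complex.ext
    · simp only [Complex.add_re, Complex.real_smul, Complex.mul_re, Complex.ofReal_re,
        Complex.ofReal_im, zero_mul, sub_zero, Complex.zero_re]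
      linear_combination (q.im) * hp' - p.im * hq'
    · simp only [Complex.add_im, Complex.real_smul, Complex.mul_im, Complex.ofReal_re,
        Complex.ofReal_im, zero_mul, add_zero, Complex.zero_im]
      linear_combination (-q.re) * hp' + p.re * hq'
  obtain ⟨h1, h2⟩ := hind _ _ h0
  -- then both are zero
  have hq0 : q = 0 := by
    have e1 : q.re * (x.re ^ 2 + x.im ^ 2) = 0 := by
      linear_combination x.re * h1 + x.im * hq'
    have e2 : q.im * (x.re ^ 2 + x.im ^ 2) = 0 := by
      linear_combination x.im * h1 - x.re * hq'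
    exact Complex.ext ((mul_eq_zero.1 e1).resolve_right hxn) ((mul_eq_zero.1 e2).resolve_right hxn)
  have h3 := hind 0 1 (by rw [hq0]; simp)
  exact one_ne_zero h3.2

/-- **Riemann forms give projections** -/
theorem spl_of (hH : RiemannForm L H) (hT : TV T (La L) a) (hG : GV T (La L) a η) (hC0 : 0 < C)
    (hC : GE T (La L) a C) : Spl T (La L) a := by
  intro v g β hv hL
  obtain ⟨p, q, hind, hp, hq⟩ := hL.periods hT hG hC0 hC hv
  have hmem : ∀ p : ℂ, (∀ z, g (z + p) = g z) → p • v ∈ L := by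
    intro p hp
    have h1 := hL.shift p
    have h2 : (fun z => g (p + z)) = g := by
      funext z
      rw [add_comm, hp]
    rw [h2] at h1
    have h3 := (h1.unique hT hL).2
    rwa [add_sub_cancel_right] at h3
  have hvv : H v v ≠ 0 := by
    intro h0
    have := hH.pos v hv
    rw [h0, Complex.zero_re] at this
    exact lt_irrefl _ this
  have hvn : 0 < ‖H v v‖ := norm_pos_iff.2 hvv
  set ℓ0 : (Fin m → ℂ) →ₗ[ℂ] ℂ :=
    { toFun := fun w => H w v / H v v
      map_add' := fun x y => by rw [hH.add, add_div]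
      map_smul' := fun c x => by
        rw [hH.smul, RingHom.id_apply, smul_eq_mul, mul_div_assoc] } with hℓ0
  have hℓ : ∀ w, LinearMap.toContinuousLinearMap ℓ0 w = H w v / H v v := fun w => rfl
  refine ⟨LinearMap.toContinuousLinearMap ℓ0, by rw [hℓ, div_self hvv],
    1 / ((‖p‖ + ‖q‖ + 1) * ‖H v v‖), by positivity, fun l hl hlδ => ?_⟩
  rw [hℓ] at hlδ ⊢
  have h1 : ‖H l v‖ < 1 / (‖p‖ + ‖q‖ + 1) := by
    rw [norm_div, div_lt_iff₀ hvn] at hlδ
    refine hlδ.trans_le (le_of_eq ?_)
    field_simp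
  have h2 : ‖H l v‖ * (‖p‖ + ‖q‖ + 1) < 1 := by
    rwa [lt_div_iff₀ (by positivity)] at h1
  have hsm : ∀ (p : ℂ), H l (p • v) = (starRingEnd ℂ) p * H l v := by
    intro p
    rw [hH.symm (p • v) l, hH.smul, map_mul, ← hH.symm v l]
  have hz : ∀ p : ℂ, p • v ∈ L → ‖H l v‖ * ‖p‖ < 1 → ((starRingEnd ℂ) p * H l v).im = 0 := by
    intro p hpL hpn
    obtain ⟨k, hk⟩ := hH.int l hl (p • v) hpL
    rw [hsm] at hk
    have h3 : |(k : ℝ)| < 1 := by
      rw [← hk]
      refine (Complex.abs_im_le_norm _).trans_lt ?_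
      rw [norm_mul, RCLike.norm_conj, mul_comm]
      exact hpn
    have h4 : k = 0 := by
      have : |k| < 1 := by exact_mod_cast h3
      exact Int.abs_lt_one_iff.1 this
    rw [hk, h4, Int.cast_zero]
  have hn := norm_nonneg (H l v)
  have h5 := indep_real hind
    (hz p (hmem p hp) (by nlinarith [norm_nonneg p, norm_nonneg q]))
    (hz q (hmem q hq) (by nlinarith [norm_nonneg p, norm_nonneg q]))
  rw [h5, zero_div]

end Pool.Agent.N154.TB
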