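import Pool.Agent.N154.TB.Pic
import Pool.Agent.N154.TB.Spl
import Pool.Agent.N154.TB.Geo2
import Pool.Agent.N154.DD.PGeo

/-! Projective sets over abelian varieties. -/

set_option autoImplicit false

open Filter Topology Metric Set LinearAlgebra.Projectivization

namespace Pool.Agent.N154.TB

open FF Pool.Agent.Y190.OP Pool.Agent.W602.GT
open Pool.Agent.N155 (TX isCompact_TX TX_PM exists_shift nz nz_Phi val_eval)
open Pool.Agent.N154.TT (HolToTorus RiemannForm)
open Pool.Agent.N154.GG (HolMap toProj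
  Phi_rep_toProj proj_ext holMap_of holP_of kobayashi projDist
  isForm_prod val_prod doubly_periodic_not_dense Xi PunctIn Extends PDisc HP isOpen_HP
  exp_mem_PDisc log_mem_HP toProj_Phi_rep holMapOn_of holP_remove holP_of_on tpi holP_comp_l
  hp_cont)

variable {n m : ℕ} {ι ι' : Type} {F : ι → MvPolynomial (Fin (n + 1)) ℂ}
  {G : ι' → MvPolynomial (Fin (n + 1)) ℂ} {d : ℕ} {L : Submodule ℤ (Fin m → ℂ)}
  {α : (Fin (n + 1) → ℂ) → (Fin m → ℂ) ⧸ L} {H : (Fin m → ℂ) → (Fin m → ℂ) → ℂ}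
  {κ : Type} {k : κ → ℕ} {η : κ → (Fin (n + 1) → ℂ) → (Fin (n + 1) → ℂ) → (Fin (n + 1) → ℂ) → ℂ}

/-- periods -/
theorem pair_periods {X : Type*} {f : ℂ → X} {p q : ℂ} (hind : LinearIndependent ℝ ![p, q])
    (hp : ∀ z, f (z + p) = f z) (hq : ∀ z, f (z + q) = f z) :
    ∃ L : PeriodPair, ∀ l ∈ L.lattice, ∀ z, f (z + l) = f z := by
  refine ⟨⟨p, q, hind⟩, fun l hl z => ?_⟩
  have hn : ∀ {p : ℂ}, (∀ z, f (z + p) = f z) → ∀ (k : ℕ) (z : ℂ), f (z + k * p) = f z := by
    intro p hp k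
    induction k with
    | zero => intro z; simp
    | succ k ih =>
      intro z
      have e : z + ((k + 1 : ℕ) : ℂ) * p = z + k * p + p := by
        push_cast
        ring
      rw [e, hp, ih]
  have hi : ∀ {p : ℂ}, (∀ z, f (z + p) = f z) → ∀ (k : ℤ) (z : ℂ), f (z + k * p) = f z := by
    intro p hp k z
    obtain ⟨j, rfl | rfl⟩ := k.eq_nat_or_neg
    · have := hn hp j z
      simpa using this
    · have := hn hp j (z + ((-(j : ℤ) : ℤ) : ℂ) * p)
      rw [← this]
      congr 1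
      push_cast
      ring
  obtain ⟨i, j, rfl⟩ := PeriodPair.mem_lattice.1 hl
  rw [← add_assoc]
  have h1 := hi hq j (z + i * p)
  have h2 := hi hp i z
  exact h1.trans h2

/-- Lipschitz curves have bounded derivatives -/
theorem bounded_of_lip {P : ℂ → Mat (n + 1)} {K : ℝ} (hL : ∀ z w, ‖P z - P w‖ ≤ K * ‖z - w‖)
    (z : ℂ) : ‖fderiv ℝ P z‖ ≤ K := by
  have hK : 0 ≤ K := by
    have := hL 1 0
    rw [sub_zero, norm_one, mul_one] at this
    exact (norm_nonneg _).trans this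
  have h1 : LipschitzWith ⟨K, hK⟩ P := LipschitzWith.of_dist_le_mul fun z w => by
    rw [dist_eq_norm, dist_eq_norm]
    exact hL z w
  exact norm_fderiv_le_of_lipschitz ℝ h1

/-- doubly periodic continuous maps have compact images -/
theorem compact_range {X : Type*} [TopologicalSpace X] {g : ℂ → X} (hg : Continuous g)
    {L : PeriodPair} (hL : ∀ l ∈ L.lattice, ∀ z, g (z + l) = g z) : IsCompact (range g) := by
  obtain ⟨D, hD⟩ : ∃ D : ℝ, ∀ z : ℂ, ∃ l ∈ L.lattice, ‖z - l‖ ≤ D := by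
    classical
    have : Module.Free ℤ L.lattice := ZLattice.module_free ℝ L.lattice
    have : Module.Finite ℤ L.lattice := ZLattice.module_finite ℝ L.lattice
    set b0 := Module.Free.chooseBasis ℤ L.lattice
    set b := b0.ofZLatticeBasis ℝ L.lattice with hb
    refine ⟨∑ i, ‖b i‖, fun z => ⟨ZSpan.floor b z, ?_, ZSpan.norm_fract_le b z⟩⟩
    exact (Module.Basis.ofZLatticeBasis_span ℝ L.lattice b0).le (ZSpan.floor b z).2
  have h1 : range g = g '' closedBall (0 : ℂ) D := by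
    apply Subset.antisymm
    · rintro _ ⟨z, rfl⟩
      obtain ⟨l, hl, hlD⟩ := hD z
      refine ⟨z - l, mem_closedBall_zero_iff.2 hlD, ?_⟩
      have := hL l hl (z - l)
      rw [sub_add_cancel] at this
      exact this.symm
    · rintro _ ⟨z, -, rfl⟩
      exact ⟨z, rfl⟩
  rw [h1]
  exact (isCompact_closedBall _ _).image hg

/-- lines do not lie in the lattice -/
theorem mk_line_ne [DiscreteTopology L] {v w : Fin m → ℂ} (hv : v ≠ 0)
    (h : ∀ z : ℂ, (Submodule.Quotient.mk (z • v + w) : (Fin m → ℂ) ⧸ L) =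
      Submodule.Quotient.mk ((0 : ℂ) • v + w)) : False := by
  have h1 : ∀ z : ℂ, z • v ∈ L := fun z => by
    have := (Submodule.Quotient.eq L).1 (h z)
    rwa [zero_smul, zero_add, add_sub_cancel_right] at this
  have h2 : IsOpen ({0} : Set L) := isOpen_discrete _
  obtain ⟨δ, hδ, h3⟩ := Metric.isOpen_iff.1 h2 0 rfl
  have hvn : 0 < ‖v‖ := norm_pos_iff.2 hv
  set z : ℂ := ((δ / (2 * ‖v‖) : ℝ) : ℂ) with hz
  have hzn : ‖z‖ = δ / (2 * ‖v‖) := by
    rw [hz, Complex.norm_real, Real.norm_of_nonneg (by positivity)]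
  have h4 : (⟨z • v, h1 z⟩ : L) ∈ ball (0 : L) δ := by
    rw [mem_ball_zero_iff]
    change ‖z • v‖ < δ
    rw [norm_smul, hzn]
    have : δ / (2 * ‖v‖) * ‖v‖ = δ / 2 := by field_simp
    rw [this]
    linarith
  have h5 : (⟨z • v, h1 z⟩ : L) = 0 := h3 h4
  have h6 : z • v = 0 := congrArg Subtype.val h5
  rcases smul_eq_zero.1 h6 with h7 | h7
  · rw [h7, norm_zero] at hzn
    have : 0 < δ / (2 * ‖v‖) := by positivity
    linarith
  · exact hv h7

/-- **Projective sets over abelian varieties** -/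
theorem abel_geo [DiscreteTopology L] [IsZLattice ℝ L] (hF : ∀ i, IsForm (F i))
    (hGf : ∀ j, IsForm (G j)) (hB : BrodyHyp (Cone F ∩ Zeros G))
    (hη : TwoForms (Cone F) (Zeros G) d α k η) (hH : RiemannForm L H)
    (hα : HolToTorus (Cone F) L α) (hfib : HypFibres (Cone F) α) :
    ∃ S : Set (ℂ → ℙ ℂ (Fin (n + 1) → ℂ)), S.Finite ∧
      (∀ g ∈ S, CurveIn (Cone F) g ∧
        (∃ L' : PeriodPair, ∀ l ∈ L'.lattice, ∀ z, g (z + l) = g z) ∧
        ∃ v w : Fin m → ℂ, v ≠ 0 ∧ ∀ z : ℂ, α (g z).rep = Submodule.Quotient.mk (z • v + w)) ∧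
      (∀ f, CurveIn (Cone F) f → (∀ z w, f z = f w) ∨
        ∃ g ∈ S, ∃ s : ℂ → ℂ, Differentiable ℂ s ∧ ∀ z, f z = g (s z)) ∧
      (∀ f, PunctIn F f → Extends F f ∨ ∃ g ∈ S, ∃ s : ℂ → ℂ,
        DifferentiableOn ℂ s {z | z.re < 0} ∧
        ∀ z : ℂ, z.re < 0 → f (Complex.exp z) = g (s z)) ∧
      (∀ ε : ℝ, 0 < ε → ∃ c : ℝ, 0 < c ∧ ∀ p q : ℙ ℂ (Fin (n + 1) → ℂ), p.rep ∈ Cone F →
        q.rep ∈ Cone F → ∀ D : ℝ, 0 ≤ D → D ≤ 1 → (∀ g ∈ S, ∀ z, D ≤ projDist p (g z)) →
          ENNReal.ofReal (c * D ^ ε * min D (projDist p q)) ≤ kobayashi (Cone F) p q) ∧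
      (∀ p : ℙ ℂ (Fin (n + 1) → ℂ), (∀ g ∈ S, ∀ z, p ≠ g z) →
        ∃ D : ℝ, 0 < D ∧ D ≤ 1 ∧ ∀ g ∈ S, ∀ z, D ≤ projDist p (g z)) ∧
      (∀ (K : Type) [Field K] [Algebra ℂ K] (w : ℕ) (y : Fin (n + 1) → K), 2 ≤ w →
        SubVar F K w y → Cone F ⊆ VarPts ℂ y →
        ∃ G : MvPolynomial (Fin (n + 1)) ℂ, IsForm G ∧ val y G ≠ 0 ∧
        ∀ g ∈ S, ∀ z, val (g z).rep G = 0) := by
  classical
  have hX := cone_conic hF
  have hT := td_of hX hα (isCompact_TF hF) Subset.rfl
  have hf : Fib (TS (Cone F)) (La L) (aM L α (Cone F)) :=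
    fib_of hX (fun M hM => aM_rep hX hα hM) Subset.rfl hfib
  have hG : GV (TS (Cone F)) (La L) (aM L α (Cone F)) η := ⟨k, SM (Zeros G),
    gd_of hX (Zeros_smul hGf) hα (fun M hM i hi => aM_chart hX hα hM hi) hη Subset.rfl
      (dense_of hX hGf hB Subset.rfl)⟩
  obtain ⟨C, hC0, hC⟩ := gradient_l hT hf
  have hS := spl_of hH hT hG hC0 hC
  obtain ⟨r, v, β, ℓ, e, hE⟩ := exists_En hT hG hC0 hC hS
  have hvne : ∀ j, v j ≠ 0 := fun j h0 => by
    have := hE.one j
    rw [h0, map_zero] at this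
    exact zero_ne_one this
  have hper : ∀ j, ∃ L' : PeriodPair, ∀ l ∈ L'.lattice, ∀ z, e j (z + l) = e j z := fun j => by
    obtain ⟨p, q, hind, hp, hq⟩ := (hE.lin j).periods hT hG hC0 hC (hvne j)
    exact pair_periods hind hp hq
  set S : Set (ℂ → ℙ ℂ (Fin (n + 1) → ℂ)) := range fun (j : Fin r) (z : ℂ) => toProj (e j z) with hSdef
  have hXi : ∀ M ∈ Xi e, ∃ g ∈ S, ∃ z, M = Phi (g z).rep := by
    rintro M ⟨j, z, rfl⟩
    exact ⟨_, ⟨j, rfl⟩, z, (Phi_rep_toProj (TS_PM hX ((hE.lin j).mem z))).symm⟩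
  have hSmem : ∀ g ∈ S, CurveIn (Cone F) g ∧ (∃ L' : PeriodPair, ∀ l ∈ L'.lattice, ∀ z, g (z + l) = g z) ∧
        ∃ v w : Fin m → ℂ, v ≠ 0 ∧
          ∀ z : ℂ, α (g z).rep = Submodule.Quotient.mk (z • v + w) := by
    rintro _ ⟨j, rfl⟩
    refine ⟨⟨holMap_of (hE.lin j).hol, fun z => rep_toProj hX ((hE.lin j).mem z)⟩, ?_, v j, β j,
      hvne j, fun z => ?_⟩
    · obtain ⟨L', hL'⟩ := hper j
      refine ⟨L', fun l hl z => ?_⟩
      change toProj (e j (z + l)) = toProj (e j z)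
      rw [hL' l hl]
    · change α (toProj (e j z)).rep = _
      rw [← aM_rep hX hα ((hE.lin j).mem z)]
      exact (mem_La_iff.1 ((hE.lin j).ov z)).symm
  refine ⟨S, finite_range _, hSmem, ?_, ?_, ?_, ?_, ?_⟩
  · -- entire curves
    intro f hf'
    have h1 : ∀ z, Phi (f z).rep ∈ TS (Cone F) := fun z => mem_TS (hf'.2 z)
    obtain ⟨φ, hφ, ho⟩ := hT.exists_lift (holP_of hf'.1) h1
    rcases entire_eq hT hf hG hE (holP_of hf'.1) h1 hφ ho with h2 | ⟨j, h2⟩
    · left
      intro z w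
      exact proj_ext ((h2 z).trans (h2 w).symm)
    · right
      refine ⟨_, ⟨j, rfl⟩, fun z => ℓ j (φ z), (ℓ j).differentiable.comp hφ,
        fun z => proj_ext ?_⟩
      change _ = Phi (toProj (e j (ℓ j (φ z)))).rep
      rw [Phi_rep_toProj (TS_PM hX ((hE.lin j).mem _))]
      exact h2 z
  · -- punctured discs
    intro f hf'
    set Q : ℂ → Mat (n + 1) := fun z => Phi (f z).rep with hQ
    have hQh : HolP PDisc Q := holP_of_on hf'.1
    have hQT : ∀ z ∈ PDisc, Q z ∈ TS (Cone F) := fun z hz => mem_TS (hf'.2 z hz)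
    set P : ℂ → Mat (n + 1) := fun z => Q (Complex.exp z) with hPdef
    have hP : HolP HP P := holP_comp_l hQh Complex.differentiable_exp.differentiableOn isOpen_HP
      (fun z hz => exp_mem_PDisc hz)
    have hPT : ∀ z ∈ HP, P z ∈ TS (Cone F) := fun z hz => hQT _ (exp_mem_PDisc hz)
    have hper : ∀ z ∈ HP, P (z + tpi) = P z := by
      intro z _
      change Q (Complex.exp (z + tpi)) = Q (Complex.exp z)
      rw [show Complex.exp (z + tpi) = Complex.exp z from Complex.exp_periodic z]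
    obtain ⟨φ, hφ⟩ := exists_PD hT hP hPT hper
    rcases hφ.picard hT hf hG hE with ⟨M0, hM0, hlim⟩ | ⟨j, hj⟩
    · left
      have hQext := holP_remove hQh (TS_PM hX hM0) (by
        intro ε hε
        obtain ⟨A, hA, hA'⟩ := hlim ε hε
        refine ⟨Real.exp (-A), Real.exp_pos _, fun z hz hzA => ?_⟩
        obtain ⟨h1, h2⟩ := log_mem_HP hz
        have h3 := hA' (Complex.log z) (by
          rw [Complex.log_re]
          rw [← Real.log_exp (-A)]
          exact Real.log_le_log (norm_pos_iff.2 hz.2) hzA.le)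
        change ‖Q (Complex.exp (Complex.log z)) - M0‖ ≤ ε at h3
        rwa [h2] at h3)
      refine ⟨_, holMapOn_of hQext, fun z hz => rep_toProj hX ?_, fun z hz => ?_⟩
      · by_cases h0 : z = 0
        · rw [if_pos h0]
          exact hM0
        · rw [if_neg h0]
          exact hQT z ⟨hz, h0⟩
      · have h0 : z ≠ 0 := hz.2
        rw [if_neg h0]
        exact toProj_Phi_rep _
    · right
      refine ⟨_, ⟨j, rfl⟩, fun z => ℓ j (φ z), (ℓ j).differentiable.comp_differentiableOn hφ.dif,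
        fun z hz => ?_⟩
      have h1 := hj z hz
      change Q (Complex.exp z) = e j (ℓ j (φ z)) at h1
      change f (Complex.exp z) = toProj (e j (ℓ j (φ z)))
      rw [← h1]
      exact (toProj_Phi_rep _).symm
  · -- the Kobayashi pseudodistance
    intro ε hε
    obtain ⟨C1, hC1, hdisc⟩ := disc_trunc_gen (T := TS (Cone F)) (Ξ := Xi e) hε
      (inf_estimate hT hf hG hE hε).choose_spec.1 (inf_estimate hT hf hG hE hε).choose_spec.2
    refine ⟨C1⁻¹ / 2, by positivity, fun p q hp hq D hD0 hD1 hDS => ?_⟩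
    rcases hD0.eq_or_lt with h0 | h0
    · rw [← h0, Real.zero_rpow hε.ne']
      simp
    · have hM0 : ∀ M ∈ Xi e, D ≤ ‖Phi p.rep - M‖ := by
        intro M hM
        obtain ⟨g, hg, z, rfl⟩ := hXi M hM
        exact hDS g hg z
      unfold kobayashi
      refine le_iInf₂ fun c hc => ENNReal.ofReal_le_ofReal ?_
      have hDε : 0 < D ^ ε := Real.rpow_pos_of_pos h0 _
      have h1 := chain_trunc (A := C1 / D ^ ε) (by positivity)
        (hdisc D h0 hD1 (Phi p.rep) hM0) hc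
      have h2 : dist (min ‖Phi q.rep - Phi p.rep‖ (D / 2)) (min ‖Phi p.rep - Phi p.rep‖ (D / 2)) =
          min ‖Phi q.rep - Phi p.rep‖ (D / 2) := by
        rw [sub_self, norm_zero, min_eq_left (show (0 : ℝ) ≤ D / 2 by positivity), Real.dist_eq,
          sub_zero, abs_of_nonneg (by positivity)]
      rw [h2] at h1
      have h3 : min D (projDist p q) / 2 ≤ min ‖Phi q.rep - Phi p.rep‖ (D / 2) := by
        have e1 : projDist p q = ‖Phi q.rep - Phi p.rep‖ := norm_sub_rev _ _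
        rw [← e1]
        have e2 : 0 ≤ projDist p q := norm_nonneg _
        apply le_min
        · have := min_le_right D (projDist p q)
          have := min_le_left D (projDist p q)
          have : 0 ≤ min D (projDist p q) := le_min hD0 e2
          linarith
        · have := min_le_left D (projDist p q)
          linarith
      calc C1⁻¹ / 2 * D ^ ε * min D (projDist p q) =
            C1⁻¹ * D ^ ε * (min D (projDist p q) / 2) := by ring
        _ ≤ C1⁻¹ * D ^ ε * (C1 / D ^ ε * c) :=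
          mul_le_mul_of_nonneg_left (h3.trans h1) (by positivity)
        _ = c := by field_simp
  · -- the exceptional set is closed
    intro p hp
    have hK : IsCompact (⋃ j : Fin r, range (e j)) := by
      apply isCompact_iUnion
      intro j
      obtain ⟨L', hL'⟩ := hper j
      exact compact_range (hp_cont (hE.lin j).hol) hL'
    have hpn : Phi p.rep ∉ ⋃ j : Fin r, range (e j) := by
      intro hmem
      obtain ⟨j, z, hz⟩ := mem_iUnion.1 hmem
      apply hp _ ⟨j, rfl⟩ z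
      apply proj_ext
      change Phi p.rep = Phi (toProj (e j z)).rep
      rw [Phi_rep_toProj (TS_PM hX ((hE.lin j).mem z)), hz]
    obtain ⟨D, hD, hDb⟩ := Metric.isOpen_iff.1 hK.isClosed.isOpen_compl _ hpn
    refine ⟨min D 1, lt_min hD one_pos, min_le_right _ _, ?_⟩
    rintro _ ⟨j, rfl⟩ z
    by_contra hlt
    push Not at hlt
    have h1 : e j z ∈ ball (Phi p.rep) D := by
      rw [mem_ball, dist_comm, dist_eq_norm]
      refine lt_of_lt_of_le ?_ (min_le_left D 1)
      have e1 : projDist p (toProj (e j z)) = ‖Phi p.rep - e j z‖ := by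
        unfold projDist
        rw [Phi_rep_toProj (TS_PM hX ((hE.lin j).mem z))]
      rwa [← e1]
    exact hDb h1 (mem_iUnion.2 ⟨j, z, rfl⟩)
  · -- the equation
    intro K _ _ w y hw hsub hirr
    have hTX : ∀ M ∈ TS (Cone F), M ∈ TX y := by
      rintro M ⟨u, hu, rfl⟩
      exact ⟨u, hirr hu, rfl⟩
    have hex : ∀ j, ∃ G : MvPolynomial (Fin (n + 1)) ℂ,
        IsForm G ∧ val y G ≠ 0 ∧ ∀ z, ¬ nz G (e j z) := by
      intro j
      obtain ⟨p, q, hind, hp, hq⟩ := (hE.lin j).periods hT hG hC0 hC (hvne j)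
      exact doubly_periodic_not_dense hsub.gen hsub.dim hw (hE.lin j).hol
        (fun z => hTX _ ((hE.lin j).mem z)) hind hp hq
    choose G hG1 hG2 hG3 using hex
    refine ⟨∏ j, G j, isForm_prod _ _ fun j _ => hG1 j, ?_, ?_⟩
    · rw [val_prod, Finset.prod_ne_zero_iff]
      exact fun j _ => hG2 j
    · rintro _ ⟨j, rfl⟩ z
      rw [val_prod, Finset.prod_eq_zero_iff]
      refine ⟨j, Finset.mem_univ j, ?_⟩
      have h2 := hG3 j z
      obtain ⟨k, hk⟩ := hG1 j
      rw [← Phi_rep_toProj (TS_PM hX ((hE.lin j).mem z)), nz_Phi hk (toProj (e j z)).rep_nonzero,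
        not_not] at h2
      rw [val_eval]
      exact h2

end Pool.Agent.N154.TB
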