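import Pool.Agent.N154.DD.Lim
import Pool.Agent.N154.TB.Sig

/-! Holomorphic maps of compact sets of projection matrices to a complex torus of any dimension, and
the lifts of holomorphic curves to the universal covering of the torus. -/

set_option autoImplicit false

open Filter Topology Metric Set

namespace Pool.Agent.N154.TB

open Pool.Agent.Y190.OP Pool.Agent.N155
open Pool.Agent.N154.GG (holP_comp_l exists_limit_loc_l exists_limit_fun_l hp_cont)

variable {N m : ℕ}

/-- the curve `P` lies over the function `φ` -/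
def Over (Λ : AddSubgroup (Fin m → ℂ)) (a : Mat N → Fin m → ℂ) (P : ℂ → Mat N)
    (φ : ℂ → Fin m → ℂ) : Prop :=
  ∀ z, φ z - a (P z) ∈ Λ

/-- the curve `P` lies over the function `φ`, on `U` -/
def OverOn (Λ : AddSubgroup (Fin m → ℂ)) (a : Mat N → Fin m → ℂ) (U : Set ℂ) (P : ℂ → Mat N)
    (φ : ℂ → Fin m → ℂ) : Prop := ∀ z ∈ U, φ z - a (P z) ∈ Λ

/-- a compact set of projection matrices with a holomorphic map to a complex torus -/
structure TV (T : Set (Mat N)) (Λ : AddSubgroup (Fin m → ℂ)) (a : Mat N → Fin m → ℂ) : Prop where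
  comp : IsCompact T
  sub : T ⊆ PM
  disc : ∃ δ > 0, ∀ l ∈ Λ, ‖l‖ < δ → l = 0
  coc : ∃ D : ℝ, ∀ z : Fin m → ℂ, ∃ l ∈ Λ, ‖z - l‖ ≤ D
  loc : ∀ M0 ∈ T, ∃ (O : Set (Mat N)) (w : Mat N → Fin m → ℂ), IsOpen O ∧ M0 ∈ O ∧
    (∀ M ∈ O, ContDiffAt ℝ 1 w M) ∧ (∀ M ∈ O ∩ T, a M - w M ∈ Λ) ∧
    ∀ (U : Set ℂ) (P : ℂ → Mat N) (z : ℂ), IsOpen U → z ∈ U → HolP U P → P z ∈ O →
      DifferentiableAt ℂ (fun t => w (P t)) z

variable {T : Set (Mat N)} {Λ : AddSubgroup (Fin m → ℂ)} {a : Mat N → Fin m → ℂ}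

/-- a function with values in the lattice is locally constant -/
theorem TV.ev_const (h : TV T Λ a) {X : Type*} [TopologicalSpace X] {f : X → Fin m → ℂ} {z0 : X}
    (hc : ContinuousAt f z0) (hf : ∀ᶠ z in 𝓝 z0, f z ∈ Λ) : ∀ᶠ z in 𝓝 z0, f z = f z0 := by
  obtain ⟨δ, hδ, hd⟩ := h.disc
  have h1 : ∀ᶠ z in 𝓝 z0, ‖f z - f z0‖ < δ := by
    have := (Metric.tendsto_nhds.1 hc δ hδ)
    filter_upwards [this] with z hz
    rwa [dist_eq_norm] at hz
  filter_upwards [h1, hf] with z h2 h3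
  exact sub_eq_zero.1 (hd _ (Λ.sub_mem h3 hf.self_of_nhds) h2)

/-- the lattice is closed -/
theorem TV.mem_lim (h : TV T Λ a) {ι : Type*} {l : Filter ι} [l.NeBot] {s : ι → Fin m → ℂ} {s0 : Fin m → ℂ}
    (hs : ∀ᶠ i in l, s i ∈ Λ) (ht : Tendsto s l (𝓝 s0)) :
    (∀ᶠ i in l, s i = s0) ∧ s0 ∈ Λ := by
  obtain ⟨δ, hδ, hd⟩ := h.disc
  have h1 : ∀ᶠ i in l, ‖s i - s0‖ < δ / 2 := by
    filter_upwards [Metric.tendsto_nhds.1 ht (δ / 2) (by positivity)] with i hi
    rwa [dist_eq_norm] at hi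
  obtain ⟨i0, hi0, hi0'⟩ := (hs.and h1).exists
  have h2 : ∀ᶠ i in l, s i = s i0 := by
    filter_upwards [hs, h1] with i h3 h4
    refine sub_eq_zero.1 (hd _ (Λ.sub_mem h3 hi0) ?_)
    calc ‖s i - s i0‖ = ‖(s i - s0) - (s i0 - s0)‖ := by congr 1; abel
      _ ≤ ‖s i - s0‖ + ‖s i0 - s0‖ := norm_sub_le _ _
      _ < δ := by linarith
  have h3 : s0 = s i0 := tendsto_nhds_unique ht (tendsto_const_nhds.congr' (by
    filter_upwards [h2] with i hi
    exact hi.symm))
  rw [h3]
  exact ⟨h2, hi0⟩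

theorem ev_const_of_deriv {f : ℂ → Fin m → ℂ} {z0 : ℂ} (h : ∀ᶠ z in 𝓝 z0, HasDerivAt f 0 z) :
    ∀ᶠ z in 𝓝 z0, f z = f z0 := by
  obtain ⟨r, hr, hsub⟩ := Metric.mem_nhds_iff.1 h
  filter_upwards [ball_mem_nhds z0 hr] with z hz
  have h1 := (convex_ball z0 r).norm_image_sub_le_of_norm_hasDerivWithin_le (f := f)
    (f' := fun _ => 0) (C := 0) (fun x hx => (hsub hx).hasDerivWithinAt) (by simp)
    (mem_ball_self hr) hz
  rw [zero_mul] at h1
  exact sub_eq_zero.1 (norm_eq_zero.1 (le_antisymm h1 (norm_nonneg _)))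

variable {P Q : ℂ → Mat N} {φ ψ : ℂ → Fin m → ℂ}

/-- **Lifting** of curves -/
theorem TV.exists_lift (h : TV T Λ a) (hP : HolP univ P) (hT : ∀ z, P z ∈ T) :
    ∃ φ : ℂ → Fin m → ℂ, Differentiable ℂ φ ∧ Over Λ a P φ := by
  have hcP := hp_cont hP
  choose O w hO hM hc ha hd using fun z => h.loc (P z) (hT z)
  set u : ℂ → Fin m → ℂ := fun z => deriv (fun t => w z (P t)) z with hu
  have hdiff : ∀ z0, ∀ᶠ z in 𝓝 z0, DifferentiableAt ℂ (fun t => w z0 (P t)) z := by
    intro z0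
    filter_upwards [hcP.continuousAt.eventually ((hO z0).mem_nhds (hM z0))] with z hz
    exact hd z0 univ P z isOpen_univ (mem_univ _) hP hz
  have hloc : ∀ z0, ∀ᶠ z in 𝓝 z0, u z = deriv (fun t => w z0 (P t)) z := by
    intro z0
    filter_upwards [hcP.continuousAt.eventually ((hO z0).mem_nhds (hM z0))] with z hz
    have e1 : DifferentiableAt ℂ (fun t => w z0 (P t)) z :=
      hd z0 univ P z isOpen_univ (mem_univ _) hP hz
    have e2 : DifferentiableAt ℂ (fun t => w z (P t)) z :=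
      hd z univ P z isOpen_univ (mem_univ _) hP (hM z)
    have e3 : ∀ᶠ t in 𝓝 z, w z (P t) - w z0 (P t) ∈ Λ := by
      filter_upwards [hcP.continuousAt.eventually ((hO z0).mem_nhds hz),
        hcP.continuousAt.eventually ((hO z).mem_nhds (hM z))] with t h1 h2
      have := Λ.sub_mem (ha z0 (P t) ⟨h1, hT t⟩) (ha z (P t) ⟨h2, hT t⟩)
      have e : w z (P t) - w z0 (P t) = a (P t) - w z0 (P t) - (a (P t) - w z (P t)) := by abel
      rw [e]
      exact this
    have e4 := h.ev_const (e2.continuousAt.sub e1.continuousAt) e3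
    have e5 : (fun t => w z (P t)) =ᶠ[𝓝 z]
        fun t => w z0 (P t) + (w z (P z) - w z0 (P z)) := by
      filter_upwards [e4] with t ht
      have ht' : w z (P t) - w z0 (P t) = w z (P z) - w z0 (P z) := ht
      linear_combination ht'
    change deriv (fun t => w z (P t)) z = _
    rw [e5.deriv_eq, deriv_add_const]
  have hud : Differentiable ℂ u := by
    intro z0
    have h1 : DifferentiableAt ℂ (deriv (fun t => w z0 (P t))) z0 := by
      have h2 : AnalyticAt ℂ (fun t => w z0 (P t)) z0 := by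
        rw [Complex.analyticAt_iff_eventually_differentiableAt]
        exact hdiff z0
      exact h2.deriv.differentiableAt
    exact h1.congr_of_eventuallyEq (hloc z0)
  obtain ⟨φ0, hφ0⟩ := hud.isExactOn_univ
  have hφ0' : ∀ z, HasDerivAt φ0 (u z) z := fun z => hφ0 z (mem_univ z)
  set D : ℂ → Fin m → ℂ := fun z => φ0 z - a (P z) with hD
  have key : ∀ z0, ∀ᶠ z in 𝓝 z0, D z - D z0 ∈ Λ := by
    intro z0
    have h1 : ∀ᶠ z in 𝓝 z0, φ0 z - w z0 (P z) = φ0 z0 - w z0 (P z0) := by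
      apply ev_const_of_deriv (f := fun z => φ0 z - w z0 (P z))
      filter_upwards [hdiff z0, hloc z0] with z h2 h3
      have := (hφ0' z).sub h2.hasDerivAt
      rwa [h3, sub_self] at this
    filter_upwards [h1, hcP.continuousAt.eventually ((hO z0).mem_nhds (hM z0))] with z h2 h3
    have e1 := Λ.sub_mem (ha z0 (P z0) ⟨hM z0, hT z0⟩) (ha z0 (P z) ⟨h3, hT z⟩)
    have e2 : D z - D z0 = a (P z0) - w z0 (P z0) - (a (P z) - w z0 (P z)) := by
      rw [hD]
      linear_combination h2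
    rw [e2]
    exact e1
  have hall : ∀ z, D z - D 0 ∈ Λ := by
    set A : Set ℂ := {z | D z - D 0 ∈ Λ} with hA
    have hAo : IsOpen A := by
      rw [isOpen_iff_mem_nhds]
      intro z0 hz0
      filter_upwards [key z0] with z hz
      have := Λ.add_mem hz hz0
      have e : D z - D 0 = D z - D z0 + (D z0 - D 0) := by abel
      change D z - D 0 ∈ Λ
      rw [e]
      exact this
    have hAc : IsOpen Aᶜ := by
      rw [isOpen_iff_mem_nhds]
      intro z0 hz0
      filter_upwards [key z0] with z hz hz1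
      apply hz0
      have hz1' : D z - D 0 ∈ Λ := hz1
      have := Λ.sub_mem hz1' hz
      have e : D z0 - D 0 = D z - D 0 - (D z - D z0) := by abel
      change D z0 - D 0 ∈ Λ
      rw [e]
      exact this
    have hcl : IsClopen A := ⟨⟨hAc⟩, hAo⟩
    rcases isClopen_iff.1 hcl with h1 | h1
    · exfalso
      have : (0 : ℂ) ∈ A := by
        change D 0 - D 0 ∈ Λ
        rw [sub_self]
        exact Λ.zero_mem
      rw [h1] at this
      exact this
    · intro z
      have : z ∈ A := by rw [h1]; exact mem_univ z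
      exact this
  refine ⟨fun z => φ0 z - D 0, fun z => (hφ0' z).differentiableAt.sub_const _, fun z => ?_⟩
  have e : φ0 z - D 0 - a (P z) = D z - D 0 := by rw [hD]; ring
  rw [e]
  exact hall z

/-- two lifts differ by an element of the lattice -/
theorem TV.over_unique (h : TV T Λ a) (hφ : Differentiable ℂ φ) (hψ : Differentiable ℂ ψ)
    (h1 : Over Λ a P φ) (h2 : Over Λ a P ψ) : ∃ l ∈ Λ, ∀ z, ψ z = φ z + l := by
  have hmem : ∀ z, ψ z - φ z ∈ Λ := by
    intro z
    have := Λ.sub_mem (h2 z) (h1 z)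
    have e : ψ z - φ z = ψ z - a (P z) - (φ z - a (P z)) := by abel
    rw [e]
    exact this
  have hc : ∀ z, HasDerivAt (fun z => ψ z - φ z) 0 z := by
    intro z
    have h3 := h.ev_const (f := fun z => ψ z - φ z) (z0 := z)
      ((hψ.sub hφ).continuous.continuousAt) (Eventually.of_forall hmem)
    exact (hasDerivAt_const z (ψ z - φ z)).congr_of_eventuallyEq h3
  have h4 : ∀ z, ψ z - φ z = ψ 0 - φ 0 := fun z =>
    is_const_of_deriv_eq_zero (hψ.sub hφ) (fun w => (hc w).deriv) z 0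
  exact ⟨ψ 0 - φ 0, hmem 0, fun z => by linear_combination h4 z⟩

/-- limits of curves over functions -/
theorem TV.lim (h : TV T Λ a) {ι : Type*} {l : Filter ι} [l.NeBot] {M : ι → Mat N} {M0 : Mat N}
    {s : ι → Fin m → ℂ} {s0 : Fin m → ℂ} (hM : ∀ᶠ i in l, M i ∈ T) (ht : Tendsto M l (𝓝 M0)) (hM0 : M0 ∈ T)
    (hs : ∀ᶠ i in l, s i - a (M i) ∈ Λ) (hst : Tendsto s l (𝓝 s0)) : s0 - a M0 ∈ Λ := by
  obtain ⟨O, w, hO, hMO, hc, ha, -⟩ := h.loc M0 hM0
  have h1 : Tendsto (fun i => s i - w (M i)) l (𝓝 (s0 - w M0)) :=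
    hst.sub ((hc M0 hMO).continuousAt.tendsto.comp ht)
  have h2 : ∀ᶠ i in l, s i - w (M i) ∈ Λ := by
    filter_upwards [hM, hs, ht.eventually (hO.mem_nhds hMO)] with i e1 e2 e3
    have := Λ.add_mem e2 (ha _ ⟨e3, e1⟩)
    have e : s i - w (M i) = s i - a (M i) + (a (M i) - w (M i)) := by abel
    rw [e]
    exact this
  have h3 := (h.mem_lim h2 h1).2
  have := Λ.sub_mem h3 (ha _ ⟨hMO, hM0⟩)
  have e : s0 - a M0 = s0 - w M0 - (a M0 - w M0) := by abel
  rw [e]
  exact this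

theorem Over.comp (h : Over Λ a P φ) (f : ℂ → ℂ) : Over Λ a (fun z => P (f z)) (fun z => φ (f z)) :=
  fun z => h (f z)

theorem Over.add (h : Over Λ a P φ) {l : Fin m → ℂ} (hl : l ∈ Λ) : Over Λ a P (fun z => φ z + l) :=
  fun z => by
    have := Λ.add_mem (h z) hl
    have e : φ z + l - a (P z) = φ z - a (P z) + l := by abel
    rw [e]
    exact this

/-- **Lifting** of curves, on discs -/
theorem TV.exists_lift_ball (h : TV T Λ a) {c : ℂ} {R : ℝ} {P : ℂ → Mat N}
    (hP : HolP (ball c R) P) (hT : ∀ z ∈ ball c R, P z ∈ T) :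
    ∃ φ : ℂ → Fin m → ℂ, DifferentiableOn ℂ φ (ball c R) ∧ OverOn Λ a (ball c R) P φ := by
  classical
  rcases le_or_gt R 0 with hR | hR
  · rw [ball_eq_empty.2 hR]
    exact ⟨0, differentiableOn_empty, fun z hz => absurd hz (notMem_empty z)⟩
  have hopen : IsOpen (ball c R) := isOpen_ball
  have hcP : ∀ z ∈ ball c R, ContinuousAt P z := fun z hz => hP.continuousAt hz
  choose! O w hO hM hc ha hd using fun z (hz : z ∈ ball c R) => h.loc (P z) (hT z hz)
  set u : ℂ → Fin m → ℂ := fun z => deriv (fun t => w z (P t)) z with hu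
  have hdiff : ∀ z0 ∈ ball c R, ∀ᶠ z in 𝓝 z0, DifferentiableAt ℂ (fun t => w z0 (P t)) z := by
    intro z0 hz0
    filter_upwards [(hcP z0 hz0).eventually ((hO z0 hz0).mem_nhds (hM z0 hz0)),
      hopen.mem_nhds hz0] with z hz hzB
    exact hd z0 hz0 (ball c R) P z hopen hzB hP hz
  have hloc : ∀ z0 ∈ ball c R, ∀ᶠ z in 𝓝 z0, u z = deriv (fun t => w z0 (P t)) z := by
    intro z0 hz0
    filter_upwards [(hcP z0 hz0).eventually ((hO z0 hz0).mem_nhds (hM z0 hz0)),
      hopen.mem_nhds hz0] with z hz hzB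
    have e1 : DifferentiableAt ℂ (fun t => w z0 (P t)) z :=
      hd z0 hz0 (ball c R) P z hopen hzB hP hz
    have e2 : DifferentiableAt ℂ (fun t => w z (P t)) z :=
      hd z hzB (ball c R) P z hopen hzB hP (hM z hzB)
    have e3 : ∀ᶠ t in 𝓝 z, w z (P t) - w z0 (P t) ∈ Λ := by
      filter_upwards [(hcP z hzB).eventually ((hO z0 hz0).mem_nhds hz),
        (hcP z hzB).eventually ((hO z hzB).mem_nhds (hM z hzB)), hopen.mem_nhds hzB]
        with t h1 h2 h3
      have := Λ.sub_mem (ha z0 hz0 (P t) ⟨h1, hT t h3⟩) (ha z hzB (P t) ⟨h2, hT t h3⟩)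
      have e : w z (P t) - w z0 (P t) = a (P t) - w z0 (P t) - (a (P t) - w z (P t)) := by abel
      rw [e]
      exact this
    have e4 := h.ev_const (e2.continuousAt.sub e1.continuousAt) e3
    have e5 : (fun t => w z (P t)) =ᶠ[𝓝 z]
        fun t => w z0 (P t) + (w z (P z) - w z0 (P z)) := by
      filter_upwards [e4] with t ht
      have ht' : w z (P t) - w z0 (P t) = w z (P z) - w z0 (P z) := ht
      linear_combination ht'
    change deriv (fun t => w z (P t)) z = _
    rw [e5.deriv_eq, deriv_add_const]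
  have hud : DifferentiableOn ℂ u (ball c R) := by
    intro z0 hz0
    have h1 : DifferentiableAt ℂ (deriv (fun t => w z0 (P t))) z0 := by
      have h2 : AnalyticAt ℂ (fun t => w z0 (P t)) z0 := by
        rw [Complex.analyticAt_iff_eventually_differentiableAt]
        exact hdiff z0 hz0
      exact h2.deriv.differentiableAt
    exact (h1.congr_of_eventuallyEq (hloc z0 hz0)).differentiableWithinAt
  obtain ⟨φ0, hφ0'⟩ := hud.isExactOn_ball
  set D : ℂ → Fin m → ℂ := fun z => φ0 z - a (P z) with hD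
  have key : ∀ z0 ∈ ball c R, ∀ᶠ z in 𝓝 z0, D z - D z0 ∈ Λ := by
    intro z0 hz0
    have h1 : ∀ᶠ z in 𝓝 z0, φ0 z - w z0 (P z) = φ0 z0 - w z0 (P z0) := by
      apply ev_const_of_deriv (f := fun z => φ0 z - w z0 (P z))
      filter_upwards [hdiff z0 hz0, hloc z0 hz0, hopen.mem_nhds hz0] with z h2 h3 h4
      have := (hφ0' z h4).sub h2.hasDerivAt
      rwa [h3, sub_self] at this
    filter_upwards [h1, (hcP z0 hz0).eventually ((hO z0 hz0).mem_nhds (hM z0 hz0)),
      hopen.mem_nhds hz0] with z h2 h3 h4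
    have e1 := Λ.sub_mem (ha z0 hz0 (P z0) ⟨hM z0 hz0, hT z0 hz0⟩)
      (ha z0 hz0 (P z) ⟨h3, hT z h4⟩)
    have e2 : D z - D z0 = a (P z0) - w z0 (P z0) - (a (P z) - w z0 (P z)) := by
      rw [hD]
      linear_combination h2
    rw [e2]
    exact e1
  have hpre : IsPreconnected (ball c R) := (convex_ball c R).isPreconnected
  have hall : ∀ z ∈ ball c R, D z - D c ∈ Λ := by
    set A : Set ℂ := {z | z ∈ ball c R ∧ D z - D c ∈ Λ} with hA
    set A' : Set ℂ := {z | z ∈ ball c R ∧ D z - D c ∉ Λ} with hA'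
    have hAo : IsOpen A := by
      rw [isOpen_iff_mem_nhds]
      intro z0 hz0
      filter_upwards [key z0 hz0.1, hopen.mem_nhds hz0.1] with z hz hzB
      have := Λ.add_mem hz hz0.2
      have e : D z - D c = D z - D z0 + (D z0 - D c) := by abel
      refine ⟨hzB, ?_⟩
      rw [e]
      exact this
    have hAc : IsOpen A' := by
      rw [isOpen_iff_mem_nhds]
      intro z0 hz0
      filter_upwards [key z0 hz0.1, hopen.mem_nhds hz0.1] with z hz hzB
      refine ⟨hzB, fun hz1 => hz0.2 ?_⟩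
      have := Λ.sub_mem hz1 hz
      have e : D z0 - D c = D z - D c - (D z - D z0) := by abel
      rw [e]
      exact this
    intro z hz
    by_contra hcon
    obtain ⟨x, -, hx1, hx2⟩ := hpre A A' hAo hAc (fun x hx => by
      by_cases h1 : D x - D c ∈ Λ
      · exact Or.inl ⟨hx, h1⟩
      · exact Or.inr ⟨hx, h1⟩) ⟨c, mem_ball_self hR, mem_ball_self hR, by
        rw [sub_self]
        exact Λ.zero_mem⟩ ⟨z, hz, hz, hcon⟩
    exact hx2.2 hx1.2
  refine ⟨fun z => φ0 z - D c, fun z hz =>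
    ((hφ0' z hz).differentiableAt.sub_const _).differentiableWithinAt, fun z hz => ?_⟩
  have e : φ0 z - D c - a (P z) = D z - D c := by rw [hD]; ring
  rw [e]
  exact hall z hz



end Pool.Agent.N154.TB
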