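import Pool.Agent.N154.TB.LGeo

/-! The degrees of curves in projective sets over complex tori. -/

set_option autoImplicit false

open Filter Topology Metric Set LinearAlgebra.Projectivization

namespace Pool.Agent.N154.TB

open FF Pool.Agent.Y190.OP Pool.Agent.W602.GT
open Pool.Agent.N154.TT (HolToTorus RiemannForm)
open Pool.Agent.N154.GG (HolMap HolMapOn toProj toProj_Phi Phi_rep_mk projDist
  Phi_rep_toProj proj_ext holMap_of holP_of Xi holP_of_on toProj_Phi_rep holP_comp_l)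

variable {n m N : ℕ} {ι ι' : Type} {F : ι → MvPolynomial (Fin (n + 1)) ℂ}
  {G : ι' → MvPolynomial (Fin (n + 1)) ℂ} {d : ℕ} {L : Submodule ℤ (Fin m → ℂ)}
  {α : (Fin (n + 1) → ℂ) → (Fin m → ℂ) ⧸ L} {H : (Fin m → ℂ) → (Fin m → ℂ) → ℂ}
  {κ : Type} {k : κ → ℕ} {η : κ → (Fin (n + 1) → ℂ) → (Fin (n + 1) → ℂ) → (Fin (n + 1) → ℂ) → ℂ}
  {X : Set (Fin (n + 1) → ℂ)}

/-- the density of a curve is bounded by its derivative -/
theorem dens_of {q : ℂ → ℙ ℂ (Fin (N + 1) → ℂ)} {R : ℂ → Mat (N + 1)} (hRh : HolP (ball 0 1) R)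
    (hRf : ∀ z, R z = Phi (q z).rep) {ρ : ℂ → ℝ} (hρ : Density (ball 0 1) q ρ) {z : ℂ}
    (hz : z ∈ ball (0 : ℂ) 1) {K : ℝ} (hder : ‖fderiv ℝ R z‖ ≤ K / (1 - ‖z‖)) :
    ρ z ≤ 32 * ((N + 1 : ℕ) : ℝ) ^ 4 * K ^ 2 / (1 - ‖z‖ ^ 2) ^ 2 := by
  have hz1 : ‖z‖ < 1 := mem_ball_zero_iff.1 hz
  have hz0 : 0 ≤ ‖z‖ := norm_nonneg z
  obtain ⟨V, h, hV, hzV, hd, hh⟩ := hRh z hz
  have hVs : IsOpen (V ∩ ball (0 : ℂ) 1) := hV.inter isOpen_ball
  have hρz := hρ (V ∩ ball 0 1) h hVs inter_subset_right (hd.mono inter_subset_left) (by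
    intro w hw
    obtain ⟨h0, h1⟩ := hh w hw.1
    refine ⟨h0, proj_ext ?_⟩
    rw [Phi_rep_mk, ← h1, hRf]) z ⟨hzV, hz⟩
  have hRV : ∀ᶠ w in 𝓝 z, R w = Phi (h w) := by
    filter_upwards [hV.mem_nhds hzV] with w hw
    exact (hh w hw).2
  have hfe : fderiv ℝ (fun w => Phi (h w)) z = fderiv ℝ R z :=
    (Filter.EventuallyEq.fderiv_eq hRV).symm
  have h3 := density_le hV hd (fun w hw => (hh w hw).1) hzV (B := K / (1 - ‖z‖)) (by
    rw [hfe]
    exact hder)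
  rw [hρz]
  refine h3.trans ?_
  have e1 : 1 - ‖z‖ ^ 2 = (1 - ‖z‖) * (1 + ‖z‖) := by ring
  have e2 : 0 < 1 - ‖z‖ := by linarith
  have e3 : (1 - ‖z‖ ^ 2) ^ 2 ≤ 4 * (1 - ‖z‖) ^ 2 := by
    rw [e1, mul_pow]
    have : (1 + ‖z‖) ^ 2 ≤ 4 := by nlinarith
    nlinarith [sq_nonneg (1 - ‖z‖)]
  have e4 : 0 < 1 - ‖z‖ ^ 2 := by
    rw [e1]
    positivity
  rw [div_pow, le_div_iff₀ (by positivity)]
  calc 8 * ((N + 1 : ℕ) : ℝ) ^ 4 * (K ^ 2 / (1 - ‖z‖) ^ 2) * (1 - ‖z‖ ^ 2) ^ 2 ≤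
        8 * ((N + 1 : ℕ) : ℝ) ^ 4 * (K ^ 2 / (1 - ‖z‖) ^ 2) * (4 * (1 - ‖z‖) ^ 2) :=
        mul_le_mul_of_nonneg_left e3 (by positivity)
    _ = 32 * ((N + 1 : ℕ) : ℝ) ^ 4 * K ^ 2 := by
        field_simp
        ring

theorem aff_maps {z : ℂ} (hz : z ∈ ball (0 : ℂ) 1) :
    MapsTo (fun w : ℂ => aff z (1 - ‖z‖) w) (ball 0 1) (ball 0 1) := by
  have hz1 : ‖z‖ < 1 := mem_ball_zero_iff.1 hz
  intro w hw
  rw [mem_ball_zero_iff] at hw ⊢
  unfold aff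
  refine lt_of_le_of_lt (norm_add_le _ _) ?_
  rw [norm_mul, Complex.norm_real, Real.norm_of_nonneg (by linarith)]
  nlinarith

/-- **Densities of curves** -/
theorem deg_geo [DiscreteTopology L] [IsZLattice ℝ L] (hF : ∀ i, IsForm (F i))
    (hGf : ∀ j, IsForm (G j)) (hB : BrodyHyp (Cone F ∩ Zeros G))
    (hη : TwoForms (Cone F) (Zeros G) d α k η)
    (hα : HolToTorus (Cone F) L α) (hfib : HypFibres (Cone F) α)
    (hH : RiemannForm L H ∨ ∀ g, CurveIn (Cone F) g → Elliptic g → IsConst g) :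
    ∃ S : Set (ℂ → ℙ ℂ (Fin (n + 1) → ℂ)), S.Finite ∧
      (∀ g ∈ S, CurveIn (Cone F) g ∧ Elliptic g ∧ OverLine α g) ∧
      (∀ f, CurveIn (Cone F) f → IsConst f ∨ Factors S f) ∧
      (∀ ε : ℝ, 0 < ε → ∃ A : ℝ, 0 < A ∧ ∀ f, DiscIn (Cone F) f → ∀ ρ, Density (ball 0 1) f ρ →
        ∀ z ∈ ball (0 : ℂ) 1, ∀ D : ℝ, 0 ≤ D → D ≤ 1 → (∀ g ∈ S, ∀ w, D ≤ projDist (f z) (g w)) →
          D ^ ε * ρ z ≤ A / (1 - ‖z‖ ^ 2) ^ 2) ∧
      (∀ (N : ℕ) (c : (Fin (n + 1) → ℂ) → ℙ ℂ (Fin (N + 1) → ℂ)), HolToProj (Cone F) c →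
        (∀ g ∈ S, IsConst fun z => c (g z).rep) → ∃ A : ℝ, 0 < A ∧ ∀ f, DiscIn (Cone F) f →
        ∀ ρ, Density (ball 0 1) (fun z => c (f z).rep) ρ →
          ∀ z ∈ ball (0 : ℂ) 1, ρ z ≤ A / (1 - ‖z‖ ^ 2) ^ 2) := by
  classical
  have hX := cone_conic hF
  have hT := td_of hX hα (isCompact_TF hF) Subset.rfl
  have hf : Fib (TS (Cone F)) (La L) (aM L α (Cone F)) :=
    fib_of hX (fun M hM => aM_rep hX hα hM) Subset.rfl hfib
  have hG : GV (TS (Cone F)) (La L) (aM L α (Cone F)) η := ⟨k, SM (Zeros G),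
    gd_of hX (Zeros_smul hGf) hα (fun M hM i hi => aM_chart hX hα hM hi) hη Subset.rfl
      (dense_of hX hGf hB Subset.rfl)⟩
  obtain ⟨C, hC0, hC⟩ := gradient_l hT hf
  have hS : Spl (TS (Cone F)) (La L) (aM L α (Cone F)) := by
    rcases hH with hH | hH
    · exact spl_of hH hT hG hC0 hC
    · intro v g β hv hg
      exfalso
      obtain ⟨p, q, hind, hp, hq⟩ := hg.periods hT hG hC0 hC hv
      have h1 := hH (fun z => toProj (g z)) ⟨holMap_of hg.hol, fun z => rep_toProj hX (hg.mem z)⟩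
        (by
          obtain ⟨L', hL'⟩ := pair_periods hind hp hq
          exact ⟨L', fun l hl z => by
            change toProj (g (z + l)) = toProj (g z)
            rw [hL' l hl z]⟩)
      apply mk_line_ne (L := L) hv (w := β)
      intro z
      rw [← mem_La_iff]
      have h2 : g z = g 0 := by
        have h3 := congrArg (fun p : ℙ ℂ (Fin (n + 1) → ℂ) => Phi p.rep) (h1 z 0)
        change Phi (toProj (g z)).rep = Phi (toProj (g 0)).rep at h3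
        rwa [Phi_rep_toProj (TS_PM hX (hg.mem z)), Phi_rep_toProj (TS_PM hX (hg.mem 0))] at h3
      have h3 := (La L).sub_mem (hg.ov z) (hg.ov 0)
      rw [h2] at h3
      have e : z • v + β - ((0 : ℂ) • v + β) = z • v + β - aM L α (Cone F) (g 0) -
          ((0 : ℂ) • v + β - aM L α (Cone F) (g 0)) := by abel
      rw [e]
      exact h3
  obtain ⟨r, v, β, ℓ, e, hE⟩ := exists_En hT hG hC0 hC hS
  have hvne : ∀ j, v j ≠ 0 := fun j h0 => by
    have := hE.one j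
    rw [h0, map_zero] at this
    exact zero_ne_one this
  have hper : ∀ j, ∃ L' : PeriodPair, ∀ l ∈ L'.lattice, ∀ z, e j (z + l) = e j z := fun j => by
    obtain ⟨p, q, hind, hp, hq⟩ := (hE.lin j).periods hT hG hC0 hC (hvne j)
    exact pair_periods hind hp hq
  set S : Set (ℂ → ℙ ℂ (Fin (n + 1) → ℂ)) := range fun (j : Fin r) (z : ℂ) => toProj (e j z) with hSdef
  have hXi : ∀ M ∈ Xi e, ∃ g ∈ S, ∃ z, M = Phi (g z).rep := by
    rintro M ⟨j, z, rfl⟩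
    exact ⟨_, ⟨j, rfl⟩, z, (Phi_rep_toProj (TS_PM hX ((hE.lin j).mem z))).symm⟩
  have hSmem : ∀ g ∈ S, CurveIn (Cone F) g ∧ Elliptic g ∧ OverLine α g := by
    rintro _ ⟨j, rfl⟩
    refine ⟨⟨holMap_of (hE.lin j).hol, fun z => rep_toProj hX ((hE.lin j).mem z)⟩, ?_, v j, β j,
      hvne j, fun z => ?_⟩
    · obtain ⟨L', hL'⟩ := hper j
      refine ⟨L', fun l hl z => ?_⟩
      change toProj (e j (z + l)) = toProj (e j z)
      rw [hL' l hl]
    · change α (toProj (e j z)).rep = _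
      rw [← aM_rep hX hα ((hE.lin j).mem z)]
      exact (mem_La_iff.1 ((hE.lin j).ov z)).symm
  refine ⟨S, finite_range _, hSmem, ?_, ?_, ?_⟩
  · -- entire curves
    intro f hf'
    have h1 : ∀ z, Phi (f z).rep ∈ TS (Cone F) := fun z => mem_TS (hf'.2 z)
    obtain ⟨φ, hφ, ho⟩ := hT.exists_lift (holP_of hf'.1) h1
    rcases entire_eq hT hf hG hE (holP_of hf'.1) h1 hφ ho with h2 | ⟨j, h2⟩
    · left
      intro z w
      exact proj_ext ((h2 z).trans (h2 w).symm)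
    · right
      refine ⟨_, ⟨j, rfl⟩, fun z => ℓ j (φ z), (ℓ j).differentiable.comp hφ,
        fun z => proj_ext ?_⟩
      change _ = Phi (toProj (e j (ℓ j (φ z)))).rep
      rw [Phi_rep_toProj (TS_PM hX ((hE.lin j).mem _))]
      exact h2 z
  · -- the weighted estimate
    intro ε hε
    obtain ⟨C1, hC1, hinf⟩ := inf_estimate hT hf hG hE (half_pos hε)
    refine ⟨32 * ((n + 1 : ℕ) : ℝ) ^ 4 * C1 ^ 2, by positivity,
      fun f hf' ρ hρ z hz D hD0 hD1 hD => ?_⟩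
    have hz1 : ‖z‖ < 1 := mem_ball_zero_iff.1 hz
    have hz0 : 0 ≤ ‖z‖ := norm_nonneg z
    set Q : ℂ → Mat (n + 1) := fun z => Phi (f z).rep with hQ
    have hQh : HolP (ball 0 1) Q := holP_of_on hf'.1
    have hQT : ∀ z ∈ ball (0 : ℂ) 1, Q z ∈ TS (Cone F) := fun z hz => mem_TS (hf'.2 z hz)
    rcases hD0.eq_or_lt with h0 | h0
    · rw [← h0, Real.zero_rpow hε.ne', zero_mul]
      positivity
    have hDε : 0 < D ^ (ε / 2) := Real.rpow_pos_of_pos h0 _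
    have e1 : aff z (1 - ‖z‖) 0 = z := by simp [aff]
    have h1 := hinf (fun w => Q (aff z (1 - ‖z‖) w))
      (holP_comp_l hQh (aff_diff _ _).differentiableOn isOpen_ball (aff_maps hz))
      (fun w hw => hQT _ (aff_maps hz hw)) D hD0 hD1 (by
        intro M hM
        obtain ⟨g, hg, w, rfl⟩ := hXi M hM
        rw [e1]
        exact hD g hg w)
    have h2 := norm_fderiv_aff (Ψ := Q) (a := z) (ρ := 1 - ‖z‖) (z := 0) (by linarith)
      (by rw [e1]; exact hQh.differentiableAt hz)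
    rw [e1] at h2
    rw [h2] at h1
    have h3 : ‖fderiv ℝ Q z‖ ≤ C1 / D ^ (ε / 2) / (1 - ‖z‖) := by
      rw [div_div, le_div_iff₀ (mul_pos hDε (by linarith))]
      linarith
    have h4 := dens_of hQh (fun _ => rfl) hρ hz h3
    have h5 : D ^ ε = (D ^ (ε / 2)) ^ 2 := by
      rw [← Real.rpow_natCast, ← Real.rpow_mul h0.le]
      congr 1
      push_cast
      ring
    calc D ^ ε * ρ z ≤ D ^ ε * (32 * ((n + 1 : ℕ) : ℝ) ^ 4 * (C1 / D ^ (ε / 2)) ^ 2 /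
          (1 - ‖z‖ ^ 2) ^ 2) := mul_le_mul_of_nonneg_left h4 (Real.rpow_nonneg hD0 _)
      _ = 32 * ((n + 1 : ℕ) : ℝ) ^ 4 * C1 ^ 2 / (1 - ‖z‖ ^ 2) ^ 2 := by
        rw [h5]
        field_simp
  · -- maps which contract the elliptic curves
    intro N c hc hcE
    have hce : ∀ j z, cM c (e j z) = cM c (e j 0) := by
      intro j z
      have h1 := hcE _ ⟨j, rfl⟩ z 0
      have h2 : c (toProj (e j z)).rep = c (toProj (e j 0)).rep := h1
      unfold cM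
      rw [h2]
    obtain ⟨K, hK0, hK⟩ := lip_of hT hf hG hE (cM_cont hX hc) (fun M _ => cM_PM M) (cM_hol hX hc) hce
    refine ⟨32 * ((N + 1 : ℕ) : ℝ) ^ 4 * K ^ 2, by positivity, fun f hf' ρ hρ z hz => ?_⟩
    have hz1 : ‖z‖ < 1 := mem_ball_zero_iff.1 hz
    set Q : ℂ → Mat (n + 1) := fun z => Phi (f z).rep with hQ
    have hQh : HolP (ball 0 1) Q := holP_of_on hf'.1
    have hQT : ∀ z ∈ ball (0 : ℂ) 1, Q z ∈ TS (Cone F) := fun z hz => mem_TS (hf'.2 z hz)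
    set R : ℂ → Mat (N + 1) := fun z => cM c (Q z) with hR
    have hRh : HolP (ball 0 1) R := cM_hol hX hc _ _ isOpen_ball hQh hQT
    have hRf : ∀ z, R z = Phi (c (f z).rep).rep := by
      intro z
      rw [hR, hQ]
      simp only
      unfold cM
      rw [toProj_Phi_rep]
    refine dens_of hRh hRf hρ hz ?_
    have h1 := hK (fun w => Q (aff z (1 - ‖z‖) w))
      (holP_comp_l hQh (aff_diff _ _).differentiableOn isOpen_ball (aff_maps hz))
      (fun w hw => hQT _ (aff_maps hz hw))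
    have e1 : aff z (1 - ‖z‖) 0 = z := by simp [aff]
    have h2 := norm_fderiv_aff (Ψ := R) (a := z) (ρ := 1 - ‖z‖) (z := 0) (by linarith)
      (by rw [e1]; exact hRh.differentiableAt hz)
    rw [e1] at h2
    rw [le_div_iff₀ (by linarith), mul_comm, ← h2]
    exact h1

end Pool.Agent.N154.TB
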