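import Pool.Agent.N154.TT.ADefs

/-!
Positivity of the 2-forms of a projective or quasi-projective set with a holomorphic map to a
complex torus: the set may be singular, the forms may have common zeros on a set without entire
curves, and only the planes which are not tangent to the fibres are considered.
-/

set_option autoImplicit false

open Filter Topology FF LinearAlgebra.Projectivization Pool.Agent.W602.GT
open Pool.Agent.N154.GG (GraphAt HolMap)

namespace Pool.Agent.N154.TB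

variable {n m : ℕ}

/-- The common zeros of the polynomials `G j`. -/
def Zeros {ι : Type} (G : ι → MvPolynomial (Fin (n + 1)) ℂ) : Set (Fin (n + 1) → ℂ) :=
  {x | ∀ j, val x (G j) = 0}

/-- `f` is a holomorphic map from the complex plane to the subset of projective space with the cone
`X`. -/
def CurveIn (X : Set (Fin (n + 1) → ℂ)) (f : ℂ → ℙ ℂ (Fin (n + 1) → ℂ)) : Prop :=
  HolMap f ∧ ∀ z, (f z).rep ∈ X

/-- The map `f` is constant. -/
def IsConst {E : Type} (f : ℂ → E) : Prop := ∀ z w, f z = f w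

/-- Brody hyperbolicity: every holomorphic map from the complex plane to the subset of projective
space with the cone `X` is constant. -/
def BrodyHyp (X : Set (Fin (n + 1) → ℂ)) : Prop :=
  ∀ f : ℂ → ℙ ℂ (Fin (n + 1) → ℂ), CurveIn X f → IsConst f

/-- The fibres of the map `α` on the set with the cone `X` are Brody hyperbolic: every holomorphic
map from the complex plane to a fibre is constant. -/
def HypFibres (X : Set (Fin (n + 1) → ℂ)) {E : Type} (α : (Fin (n + 1) → ℂ) → E) : Prop :=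
  ∀ f : ℂ → ℙ ℂ (Fin (n + 1) → ℂ), CurveIn X f → (∀ z w, α (f z).rep = α (f w).rep) → IsConst f

/-- `g` is a map from an elliptic curve: it is doubly periodic. -/
def Elliptic {E : Type} (g : ℂ → E) : Prop :=
  ∃ L : PeriodPair, ∀ l ∈ L.lattice, ∀ z, g (z + l) = g z

/-- `α ∘ g` is a nonconstant affine map to the torus (so `g` is not constant). -/
def OverLine {L : Submodule ℤ (Fin m → ℂ)} (α : (Fin (n + 1) → ℂ) → (Fin m → ℂ) ⧸ L)
    (g : ℂ → ℙ ℂ (Fin (n + 1) → ℂ)) : Prop :=
  ∃ v w : Fin m → ℂ, v ≠ 0 ∧ ∀ z : ℂ, α (g z).rep = Submodule.Quotient.mk (z • v + w)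

/-- `f` is the composition of a map of the set `T` with an entire function. -/
def Factors {E : Type} (T : Set (ℂ → E)) (f : ℂ → E) : Prop :=
  ∃ g ∈ T, ∃ s : ℂ → ℂ, Differentiable ℂ s ∧ ∀ z, f z = g (s z)

/-- The `η q x v w`, for `x` in `X` and for tangent vectors `v`, `w` of `X` at `x`, satisfy
`η (c x) (c (v + e x)) (c (w + f x)) = c⁻ᵏ η x v w` (`c`, `e`, `f` numbers), `k = k q` in `{0, 1}`;
thus they are twisted by `O (-k)` and depend only on the point of projective space and on the two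
tangent vectors there which are given by `v`, `w`. If `k q = 0`, then `η q` is zero over a set `D`
of the torus which meets all complex lines `{t v + w}` of the torus (for example `D` is an ample
divisor; or any point, if `m = 1`). -/
structure Twisted (X : Set (Fin (n + 1) → ℂ)) {L : Submodule ℤ (Fin m → ℂ)}
    (α : (Fin (n + 1) → ℂ) → (Fin m → ℂ) ⧸ L) {κ : Type} (k : κ → ℕ)
    (η : κ → (Fin (n + 1) → ℂ) → (Fin (n + 1) → ℂ) → (Fin (n + 1) → ℂ) → ℂ) : Prop where
  twist : ∀ (q : κ), ∀ x ∈ X, ∀ (v w : Fin (n + 1) → ℂ) (c e f : ℂ), c ≠ 0 →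
    η q (c • x) (c • (v + e • x)) (c • (w + f • x)) = c⁻¹ ^ k q * η q x v w
  le : ∀ q, k q ≤ 1
  zeros : ∀ q, k q = 0 → ∃ D : Set ((Fin m → ℂ) ⧸ L),
    (∀ v w : Fin m → ℂ, v ≠ 0 → ∃ t : ℂ, Submodule.Quotient.mk (t • v + w) ∈ D) ∧
    ∀ x ∈ X, α x ∈ D → ∀ v w, η q x v w = 0

/-- The `η q x v w` are holomorphic along `X`, for tangent vectors `v`, `w` of `X` at `x`. At the
points where `X` is not a manifold of dimension `d`, they are restrictions of functions which are
holomorphic in a neighbourhood in the ambient space. -/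
structure HolForms (X : Set (Fin (n + 1) → ℂ)) (d : ℕ) {κ : Type}
    (η : κ → (Fin (n + 1) → ℂ) → (Fin (n + 1) → ℂ) → (Fin (n + 1) → ℂ) → ℂ) : Prop where
  hol : ∀ (q : κ) (U : Set (Fin d → ℂ)) (Ψ : (Fin d → ℂ) → Fin (n + 1) → ℂ), IsOpen U →
    AnalyticOnNhd ℂ Ψ U → (∀ z ∈ U, Ψ z ∈ X) →
    AnalyticOnNhd ℂ (fun p : (Fin d → ℂ) × (Fin d → ℂ) × (Fin d → ℂ) =>
      η q (Ψ p.1) (fderiv ℂ Ψ p.1 p.2.1) (fderiv ℂ Ψ p.1 p.2.2)) (U ×ˢ Set.univ)
  sing : ∀ x ∈ X, ¬ GraphAt X d x → ∃ V : Set (Fin (n + 1) → ℂ), IsOpen V ∧ x ∈ V ∧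
    ∀ q, AnalyticOnNhd ℂ (fun p : (Fin (n + 1) → ℂ) × (Fin (n + 1) → ℂ) × (Fin (n + 1) → ℂ) =>
      η q p.1 p.2.1 p.2.2) (V ×ˢ Set.univ)

/-- Whenever `v` and `w` give linearly independent tangent vectors at a point `x` of `X` outside
`S`, and `v` is not tangent to the fibre of `α`, some `η q x v w` is not zero. (`Ψ` is a holomorphic
parametrisation near the point, `W` a lift of `α ∘ Ψ`.) -/
def PosForms (X S : Set (Fin (n + 1) → ℂ)) (d : ℕ) {L : Submodule ℤ (Fin m → ℂ)}
    (α : (Fin (n + 1) → ℂ) → (Fin m → ℂ) ⧸ L) {κ : Type}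
    (η : κ → (Fin (n + 1) → ℂ) → (Fin (n + 1) → ℂ) → (Fin (n + 1) → ℂ) → ℂ) : Prop :=
  ∀ (U : Set (Fin d → ℂ)) (Ψ : (Fin d → ℂ) → Fin (n + 1) → ℂ) (W : (Fin d → ℂ) → Fin m → ℂ),
    IsOpen U → AnalyticOnNhd ℂ Ψ U → AnalyticOnNhd ℂ W U →
    (∀ z ∈ U, Ψ z ∈ X ∧ α (Ψ z) = Submodule.Quotient.mk (W z)) → ∀ z ∈ U, Ψ z ∉ S →
    ∀ a b : Fin d → ℂ, LinearIndependent ℂ ![Ψ z, fderiv ℂ Ψ z a, fderiv ℂ Ψ z b] →
    fderiv ℂ W z a ≠ 0 → ∃ q, η q (Ψ z) (fderiv ℂ Ψ z a) (fderiv ℂ Ψ z b) ≠ 0

/-- Positivity of the 2-forms, in the directions of the complex torus `ℂᵐ / L`, on the subset of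
projective space with the cone `X`, with the map `α` to the torus, outside the set `S`: outside `S`,
`X` is a complex manifold of dimension `d`; the `η q x v w`, for `x` in `X` and for tangent vectors
`v`, `w` of `X` at `x`, are holomorphic and twisted by `O (-1)`, or not twisted but zero over a set
which meets all lines of the torus; and at the points outside `S`, for tangent vectors `v`, `w`
which are linearly independent, where `v` is not tangent to the fibre, some of them is not zero.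

For example, `η q x v w` may be the value at `(v ∧ w) ^ ν` of a holomorphic section of
`Sym ^ ν (Λ² Ω) ⊗ O (-1)`, or of a section of `Sym ^ ν (Λ² Ω)` which vanishes over an ample divisor
of the torus. -/
structure TwoForms (X S : Set (Fin (n + 1) → ℂ)) (d : ℕ) {L : Submodule ℤ (Fin m → ℂ)}
    (α : (Fin (n + 1) → ℂ) → (Fin m → ℂ) ⧸ L) {κ : Type} (k : κ → ℕ)
    (η : κ → (Fin (n + 1) → ℂ) → (Fin (n + 1) → ℂ) → (Fin (n + 1) → ℂ) → ℂ) : Prop where
  smooth : ∀ x ∈ X, x ∉ S → GraphAt X d x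
  tw : Twisted X α k η
  hol : HolForms X d η
  pos : PosForms X S d α η

end Pool.Agent.N154.TB
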