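import Pool.Agent.N154.TB.Defs
import Pool.Agent.N154.DD.KDefs

/-!
Holomorphic discs, holomorphic maps to projective spaces, and the Fubini-Study density.
-/

set_option autoImplicit false

open Filter Topology LinearAlgebra.Projectivization Pool.Agent.W602.GT
open Pool.Agent.N154.GG (HolMapOn)

namespace Pool.Agent.N154.TB

variable {n N : ℕ}

/-- `f` is a holomorphic map from the unit disc to the subset of projective space with the cone
`X`. -/
def DiscIn (X : Set (Fin (n + 1) → ℂ)) (f : ℂ → ℙ ℂ (Fin (n + 1) → ℂ)) : Prop :=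
  HolMapOn (Metric.ball 0 1) f ∧ ∀ z ∈ Metric.ball (0 : ℂ) 1, (f z).rep ∈ X

/-- `c` is a holomorphic map from the subset of projective space with the cone `X` to a projective
space of dimension `N`: near every point it is given by holomorphic homogeneous coordinates. -/
structure HolToProj (X : Set (Fin (n + 1) → ℂ)) (c : (Fin (n + 1) → ℂ) → ℙ ℂ (Fin (N + 1) → ℂ)) :
    Prop where
  homog : ∀ x ∈ X, ∀ t : ℂ, t ≠ 0 → c (t • x) = c x
  hol : ∀ x ∈ X, ∃ (V : Set (Fin (n + 1) → ℂ)) (h : (Fin (n + 1) → ℂ) → Fin (N + 1) → ℂ),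
    IsOpen V ∧ x ∈ V ∧ DifferentiableOn ℂ h V ∧
      ∀ u ∈ V, u ∈ X → ∃ h0 : h u ≠ 0, c u = Projectivization.mk ℂ (h u) h0

/-- `ρ` is the density of the pull-back of the Fubini-Study form `ω` of projective space (with
`∫ ω = π` on a line) under the holomorphic map `f` of the open set `U` of the complex plane:
`f^* ω = ρ dx dy`. If `h` are holomorphic homogeneous coordinates of `f`, then `ρ` is the sum of the
`|h i h' j - h j h' i|² / |h|⁴` for `i < j`. -/
def Density (U : Set ℂ) (f : ℂ → ℙ ℂ (Fin (N + 1) → ℂ)) (ρ : ℂ → ℝ) : Prop :=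
  ∀ (V : Set ℂ) (h : ℂ → Fin (N + 1) → ℂ), IsOpen V → V ⊆ U → DifferentiableOn ℂ h V →
    (∀ w ∈ V, ∃ h0 : h w ≠ 0, f w = Projectivization.mk ℂ (h w) h0) → ∀ z ∈ V,
      ρ z = (∑ i, ∑ j, ‖h z i * deriv h z j - h z j * deriv h z i‖ ^ 2) / 2 /
        (∑ j, ‖h z j‖ ^ 2) ^ 2

end Pool.Agent.N154.TB
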