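import Pool.Agent.N154.TB.Ent
import Pool.Agent.N154.TB.Bro

/-! Holomorphic maps which contract the elliptic curves have bounded derivatives on all holomorphic
discs. -/

set_option autoImplicit false

open Filter Topology Metric Set

namespace Pool.Agent.N154.TB

open Pool.Agent.Y190.OP Pool.Agent.N155
open Pool.Agent.N154.GG (holP_comp hp_cont hyper_ge exists_limit_loc_l holP_comp_l Xi aff_eq)

variable {N m : ℕ} {T : Set (Mat N)} {Λ : AddSubgroup (Fin m → ℂ)} {a : Mat N → Fin m → ℂ}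
    {κ : Type} {η : κ → (Fin N → ℂ) → (Fin N → ℂ) → (Fin N → ℂ) → ℂ}
  {r : ℕ} {v β : Fin r → Fin m → ℂ} {ℓ : Fin r → ((Fin m → ℂ) →L[ℂ] ℂ)}
  {e : Fin r → ℂ → Mat N}

/-- the derivatives of the lifts are bounded by the derivatives of the curves, on discs -/
theorem TV.lift_deriv_l (hT : TV T Λ a) : ∃ K : ℝ, 0 ≤ K ∧ ∀ (P : ℂ → Mat N) (φ : ℂ → Fin m → ℂ)
    (c : ℂ) (R : ℝ), Dsc T Λ a c R P φ → ∀ z ∈ ball c R, ‖deriv φ z‖ ≤ K * ‖fderiv ℝ P z‖ := by
  have hloc : ∃ K : ℝ, 0 ≤ K ∧ ∀ (P : ℂ → Mat N) (φ : ℂ → Fin m → ℂ) (c : ℂ) (R : ℝ),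
      Dsc T Λ a c R P φ → ∀ z ∈ ball c R, P z ∈ T → ‖deriv φ z‖ ≤ K * ‖fderiv ℝ P z‖ := by
    refine hT.comp.induction_on (p := fun A => ∃ K : ℝ, 0 ≤ K ∧ ∀ (P : ℂ → Mat N)
      (φ : ℂ → Fin m → ℂ) (c : ℂ) (R : ℝ), Dsc T Λ a c R P φ → ∀ z ∈ ball c R,
      P z ∈ A → ‖deriv φ z‖ ≤ K * ‖fderiv ℝ P z‖) ?_ ?_ ?_ ?_
    · exact ⟨0, le_rfl, fun P φ _ _ _ z _ hz => absurd hz (notMem_empty _)⟩
    · rintro s s' hss ⟨K, hK0, hK⟩
      exact ⟨K, hK0, fun P φ c R h1 z h2 hz => hK P φ c R h1 z h2 (hss hz)⟩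
    · rintro s s' ⟨K, hK0, hK⟩ ⟨K', hK0', hK'⟩
      refine ⟨max K K', le_max_of_le_left hK0, fun P φ c R h1 z h2 hz => ?_⟩
      rcases hz with hz | hz
      · exact (hK P φ c R h1 z h2 hz).trans
          (mul_le_mul_of_nonneg_right (le_max_left _ _) (norm_nonneg _))
      · exact (hK' P φ c R h1 z h2 hz).trans
          (mul_le_mul_of_nonneg_right (le_max_right _ _) (norm_nonneg _))
    · intro M0 hM0
      obtain ⟨O, w, hO, hMO, hc, ha, hd⟩ := hT.loc M0 hM0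
      have h1 : ContinuousAt (fderiv ℝ w) M0 :=
        ((hc M0 hMO).fderiv_right (m := 0) (by norm_num)).continuousAt
      have h2 : ∀ᶠ M in 𝓝 M0, ‖fderiv ℝ w M‖ < ‖fderiv ℝ w M0‖ + 1 :=
        h1.norm.eventually_lt_const (lt_add_one _)
      refine ⟨O ∩ {M | ‖fderiv ℝ w M‖ < ‖fderiv ℝ w M0‖ + 1},
        mem_nhdsWithin_of_mem_nhds (inter_mem (hO.mem_nhds hMO) h2), ‖fderiv ℝ w M0‖ + 1,
        by positivity, fun P φ c R hD z hzB hz => ?_⟩
      have hcP : ContinuousAt P z := hD.hol.continuousAt hzB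
      have hwd : DifferentiableAt ℂ (fun t => w (P t)) z :=
        hd (ball c R) P z isOpen_ball hzB hD.hol hz.1
      have hφz : DifferentiableAt ℂ φ z := hD.dif.differentiableAt (isOpen_ball.mem_nhds hzB)
      have h3 : ∀ᶠ t in 𝓝 z, φ t - w (P t) ∈ Λ := by
        filter_upwards [hcP.eventually (hO.mem_nhds hz.1), isOpen_ball.mem_nhds hzB] with t ht htB
        have e1 := Λ.add_mem (hD.ov t htB) (ha (P t) ⟨ht, hD.mem t htB⟩)
        have e2 : φ t - w (P t) = φ t - a (P t) + (a (P t) - w (P t)) := by abel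
        rw [e2]
        exact e1
      have h4 := hT.ev_const (f := fun t => φ t - w (P t))
        (hφz.continuousAt.sub hwd.continuousAt) h3
      have h5 : HasDerivAt (fun t => φ t - w (P t)) 0 z :=
        (hasDerivAt_const z (φ z - w (P z))).congr_of_eventuallyEq h4
      have h6 : deriv φ z = deriv (fun t => w (P t)) z := by
        have h7 := (hφz.hasDerivAt.sub hwd.hasDerivAt).unique h5
        exact sub_eq_zero.1 h7
      rw [h6, norm_deriv_eq_norm_fderiv, ← ContinuousLinearMap.norm_restrictScalars (𝕜' := ℝ)]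
      have h8 : HasFDerivAt (fun t => w (P t)) ((fderiv ℂ (fun t => w (P t)) z).restrictScalars ℝ) z :=
        hwd.hasFDerivAt.restrictScalars ℝ
      have h9 : HasFDerivAt (fun t => w (P t)) ((fderiv ℝ w (P z)).comp (fderiv ℝ P z)) z :=
        (((hc (P z) hz.1).differentiableAt (by norm_num)).hasFDerivAt).comp z
          (hD.hol.differentiableAt hzB).hasFDerivAt
      rw [h8.unique h9]
      refine (ContinuousLinearMap.opNorm_comp_le _ _).trans ?_
      exact mul_le_mul_of_nonneg_right hz.2.le (norm_nonneg _)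
  obtain ⟨K, hK0, hK⟩ := hloc
  exact ⟨K, hK0, fun P φ c R h1 z h2 => hK P φ c R h1 z h2 (h1.mem z h2)⟩

/-- Brody's reparametrization, with the map -/
theorem rescale_map {N' : ℕ} {Ψ : ℂ → Mat N'} {M : ℝ} (hM : 0 < M)
    (hΨ : HolP (ball 0 1) Ψ) (hbig : 2 * M < ‖fderiv ℝ Ψ 0‖) :
    ∃ (b : ℂ) (s : ℝ), 0 < s ∧ (∀ z ∈ ball (0 : ℂ) M, b + (s : ℂ) * z ∈ ball (0 : ℂ) 1) ∧
      (∀ z ∈ ball (0 : ℂ) (M / 2), ‖fderiv ℝ (fun t : ℂ => Ψ (b + (s : ℂ) * t)) z‖ ≤ 2) ∧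
      ‖fderiv ℝ (fun t : ℂ => Ψ (b + (s : ℂ) * t)) 0‖ = 1 := by
  have h12 : closedBall (0 : ℂ) (1 / 2) ⊆ ball 0 1 := closedBall_subset_ball (by norm_num)
  have hcont : ContinuousOn (fun z => (1 / 2 - ‖z‖) * ‖fderiv ℝ Ψ z‖) (closedBall (0 : ℂ) (1 / 2)) := by
    intro z hz
    apply ContinuousAt.continuousWithinAt
    exact (continuousAt_const.sub continuousAt_id.norm).mul
      (hΨ.continuousAt_fderiv (h12 hz)).norm
  obtain ⟨z0, hz0, hmax⟩ := (isCompact_closedBall (0 : ℂ) (1 / 2)).exists_isMaxOn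
    ⟨0, mem_closedBall_self (by norm_num)⟩ hcont
  have hmax' : ∀ z ∈ closedBall (0 : ℂ) (1 / 2), (1 / 2 - ‖z‖) * ‖fderiv ℝ Ψ z‖ ≤
      (1 / 2 - ‖z0‖) * ‖fderiv ℝ Ψ z0‖ := fun z hz => hmax hz
  set D := ‖fderiv ℝ Ψ z0‖ with hD
  have h0 : M < (1 / 2 - ‖z0‖) * D := by
    have := hmax' 0 (mem_closedBall_self (by norm_num))
    rw [norm_zero, sub_zero] at this
    linarith
  have hz0n : ‖z0‖ ≤ 1 / 2 := mem_closedBall_zero_iff.1 hz0
  have hDnn : 0 ≤ D := norm_nonneg _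
  have hz0lt : 0 < 1 / 2 - ‖z0‖ := by
    by_contra hcon
    push Not at hcon
    have := mul_nonpos_of_nonpos_of_nonneg hcon hDnn
    linarith
  have hDpos : 0 < D := by
    by_contra hcon
    push Not at hcon
    have : D = 0 := le_antisymm hcon hDnn
    rw [this] at h0
    linarith
  set ρ := 1 / D with hρ
  have hρpos : 0 < ρ := by positivity
  have hρD : ρ * D = 1 := by rw [hρ]; field_simp
  have hρM : ρ * M < 1 / 2 - ‖z0‖ := by
    have := mul_lt_mul_of_pos_left h0 hρpos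
    calc ρ * M < ρ * ((1 / 2 - ‖z0‖) * D) := this
      _ = (1 / 2 - ‖z0‖) * (ρ * D) := by ring
      _ = 1 / 2 - ‖z0‖ := by rw [hρD, mul_one]
  have hnorm : ∀ z : ℂ, ‖aff z0 ρ z‖ ≤ ‖z0‖ + ρ * ‖z‖ := by
    intro z
    unfold aff
    refine (norm_add_le _ _).trans ?_
    rw [norm_mul, Complex.norm_real, Real.norm_of_nonneg hρpos.le]
  have hball : ∀ z ∈ ball (0 : ℂ) M, aff z0 ρ z ∈ ball (0 : ℂ) 1 := by
    intro z hz
    rw [mem_ball_zero_iff] at hz ⊢
    have := hnorm z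
    have h1 : ρ * ‖z‖ < ρ * M := mul_lt_mul_of_pos_left hz hρpos
    linarith
  have hderiv : ∀ z ∈ ball (0 : ℂ) M, ‖fderiv ℝ (fun z => Ψ (aff z0 ρ z)) z‖ =
      ρ * ‖fderiv ℝ Ψ (aff z0 ρ z)‖ := fun z hz =>
    norm_fderiv_aff hρpos.le (hΨ.differentiableAt (hball z hz))
  refine ⟨z0, ρ, hρpos, hball, fun z hz => ?_, ?_⟩
  · have hz' : ‖z‖ < M / 2 := mem_ball_zero_iff.1 hz
    have e0 := hderiv z (ball_subset_ball (by linarith) hz)
    change ‖fderiv ℝ (fun z => Ψ (aff z0 ρ z)) z‖ ≤ 2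
    rw [e0]
    have h1 := hnorm z
    have h2 : ρ * ‖z‖ < ρ * (M / 2) := mul_lt_mul_of_pos_left hz' hρpos
    have h3 : (1 / 2 - ‖z0‖) / 2 ≤ 1 / 2 - ‖aff z0 ρ z‖ := by linarith
    have h4 := hmax' (aff z0 ρ z) (mem_closedBall_zero_iff.2 (by linarith))
    have h5 : (1 / 2 - ‖z0‖) / 2 * ‖fderiv ℝ Ψ (aff z0 ρ z)‖ ≤ (1 / 2 - ‖z0‖) * D :=
      (mul_le_mul_of_nonneg_right h3 (norm_nonneg _)).trans h4
    have h6 : ‖fderiv ℝ Ψ (aff z0 ρ z)‖ ≤ 2 * D := by
      by_contra hcon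
      push Not at hcon
      have := mul_lt_mul_of_pos_left hcon (half_pos hz0lt)
      linarith
    calc ρ * ‖fderiv ℝ Ψ (aff z0 ρ z)‖ ≤ ρ * (2 * D) := mul_le_mul_of_nonneg_left h6 hρpos.le
      _ = 2 * (ρ * D) := by ring
      _ = 2 := by rw [hρD, mul_one]
  · have e0 := hderiv 0 (mem_ball_self hM)
    have : aff z0 ρ 0 = z0 := by simp [aff]
    rw [this] at e0
    change ‖fderiv ℝ (fun z => Ψ (aff z0 ρ z)) 0‖ = 1
    rw [e0]
    exact hρD

/-- **Maps which contract the comparison curves** have bounded derivatives on discs -/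
theorem lip_of (hT : TV T Λ a) (hf : Fib T Λ a) (hG : GV T Λ a η) (hE : En T Λ a v β ℓ e)
    {N' : ℕ} {c : Mat N → Mat N'} (hc : ContinuousOn c T) (hcP : ∀ M ∈ T, c M ∈ PM)
    (hch : ∀ (U : Set ℂ) (P : ℂ → Mat N), IsOpen U → HolP U P → (∀ z ∈ U, P z ∈ T) →
      HolP U (fun z => c (P z)))
    (hce : ∀ j z, c (e j z) = c (e j 0)) :
    ∃ C : ℝ, 0 < C ∧ ∀ P : ℂ → Mat N, HolP (ball 0 1) P → (∀ w ∈ ball (0 : ℂ) 1, P w ∈ T) →
      ‖fderiv ℝ (fun t => c (P t)) 0‖ ≤ C := by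
  classical
  by_contra hcon
  push Not at hcon
  have h1 : ∀ n : ℕ, ∃ (P : ℂ → Mat N) (b : ℂ) (s : ℝ), HolP (ball 0 1) P ∧
      (∀ w ∈ ball (0 : ℂ) 1, P w ∈ T) ∧ 0 < s ∧
      (∀ z ∈ ball (0 : ℂ) ((n : ℝ) + 1), b + (s : ℂ) * z ∈ ball (0 : ℂ) 1) ∧
      (∀ z ∈ ball (0 : ℂ) (((n : ℝ) + 1) / 2),
        ‖fderiv ℝ (fun t : ℂ => c (P (b + (s : ℂ) * t))) z‖ ≤ 2) ∧
      ‖fderiv ℝ (fun t : ℂ => c (P (b + (s : ℂ) * t))) 0‖ = 1 := by
    intro n
    obtain ⟨P, hP, hPT, hb⟩ := hcon (2 * ((n : ℝ) + 1)) (by positivity)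
    obtain ⟨b, s, h1, h2, h3, h4⟩ := rescale_map (Ψ := fun t => c (P t)) (M := (n : ℝ) + 1)
      (by positivity) (hch _ P isOpen_ball hP hPT) hb
    exact ⟨P, b, s, hP, hPT, h1, h2, h3, h4⟩
  choose P b s hP hPT hs hbs hG2 hG1 using h1
  set h : ℕ → ℂ → Mat N := fun n t => P n (b n + (s n : ℂ) * t) with hh
  have hh1 : ∀ n : ℕ, HolP (ball 0 ((n : ℝ) + 1)) (h n) := fun n =>
    holP_comp_l (hP n) (f := fun t : ℂ => b n + (s n : ℂ) * t) (by fun_prop) isOpen_ball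
      (fun z hz => hbs n z hz)
  have hhT : ∀ n : ℕ, ∀ z ∈ ball (0 : ℂ) ((n : ℝ) + 1), h n z ∈ T := fun n z hz =>
    hPT n _ (hbs n z hz)
  choose φ hφ hov using fun n => hT.exists_lift_ball (hh1 n) (hhT n)
  have hD : ∀ n : ℕ, Dsc T Λ a 0 ((n : ℝ) + 1) (h n) (φ n) := fun n =>
    ⟨hh1 n, hhT n, hφ n, hov n⟩
  have hDt : ∀ (n : ℕ) (t : ℂ) (R : ℝ), ‖t‖ + R ≤ (n : ℝ) + 1 → Dsc T Λ a t R (h n) (φ n) :=
    fun n t R hR => (hD n).mono (ball_subset_ball' (by rw [dist_zero_right]; linarith))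
  set 𝓤 : Ultrafilter ℕ := hyperfilter ℕ with h𝓤
  have hge : ∀ L : ℝ, ∀ᶠ n : ℕ in (𝓤 : Filter ℕ), L ≤ ((n : ℝ) + 1) / 2 := by
    intro L
    filter_upwards [hyper_ge (2 * L)] with n hn
    linarith
  -- the limit of the images
  obtain ⟨G, hGh, hGT, hGc, hGd⟩ := exists_limit_loc_l (hT.comp.image_of_continuousOn hc)
    (by rintro _ ⟨M, hM, rfl⟩; exact hcP M hM) (𝓤 := 𝓤) (h := fun n t => c (h n t)) (by
      intro L
      filter_upwards [hge L] with n hn
      exact (hch _ (h n) isOpen_ball (hh1 n) (hhT n)).mono (ball_subset_ball (by linarith))) (by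
      intro L
      filter_upwards [hge L] with n hn z hz
      exact ⟨_, hhT n z (ball_subset_ball (by linarith) hz), rfl⟩) (by
      intro L
      refine ⟨2, ?_⟩
      filter_upwards [hge L] with n hn z hz
      exact hG2 n z (ball_subset_ball hn hz))
  have hG0 : ‖fderiv ℝ G 0‖ = 1 := by
    have h2 := (hGd 0).norm
    have h3 : ∀ n, ‖fderiv ℝ (fun t => c (h n t)) 0‖ = 1 := hG1
    simp only [h3] at h2
    exact tendsto_nhds_unique h2 tendsto_const_nhds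
  have hGne : ¬ ∀ z, G z = G 0 := by
    intro hcst
    have : G = fun _ => G 0 := funext hcst
    rw [this] at hG0
    simp at hG0
  have hcod : ∀ j, ∀ᶠ z in codiscrete ℂ, G z ≠ c (e j 0) := by
    intro j
    have h2 : HolP univ (fun z => c (e j z)) :=
      hch univ (e j) isOpen_univ (hE.lin j).hol (fun z _ => (hE.lin j).mem z)
    rcases holP_dich hGh h2 with h3 | h3
    · exfalso
      apply hGne
      intro z
      rw [h3 z, h3 0]
      exact hce j z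
    · filter_upwards [h3] with z hz
      rwa [hce] at hz
  obtain ⟨C1, hC1, hinf⟩ := inf_estimate hT hf hG hE one_pos
  obtain ⟨C2, hC2, hgrad⟩ := gradient_l hT hf
  obtain ⟨K2, hK20, hK2⟩ := hT.lift_deriv_l
  -- bounded derivatives away from the bad points
  have hA : ∀ t0, (∀ j, G t0 ≠ c (e j 0)) → ∃ ρ : ℝ, 0 < ρ ∧ ∃ K : ℝ, 0 ≤ K ∧
      ∀ᶠ n in (𝓤 : Filter ℕ), ∀ t ∈ ball t0 ρ, ‖fderiv ℝ (h n) t‖ ≤ K := by
    intro t0 ht0
    have hZ : IsClosed (range fun j => c (e j 0)) := (finite_range _).isClosed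
    obtain ⟨ε, hε, hεb⟩ := Metric.isOpen_iff.1 hZ.isOpen_compl (G t0) (by
      rintro ⟨j, hj⟩
      exact ht0 j hj.symm)
    obtain ⟨δ, hδ, hδc⟩ := Metric.uniformContinuousOn_iff.1
      (hT.comp.uniformContinuousOn_of_continuous hc) (ε / 2) (half_pos hε)
    have h2 := Metric.tendsto_nhds.1 (hGc t0 (mem_univ _)) (ε / 2) (half_pos hε)
    rw [eventually_prod_iff] at h2
    obtain ⟨pa, hpa, pb, hpb, hpp⟩ := h2
    obtain ⟨ρ, hρ, hρb⟩ := Metric.mem_nhds_iff.1 hpb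
    set d : ℝ := min δ 1 with hd
    have hd0 : 0 < d := lt_min hδ one_pos
    refine ⟨ρ, hρ, C1 / d, by positivity, ?_⟩
    filter_upwards [hpa, hge (‖t0‖ + ρ + 1)] with n hn hn2 t ht
    have htn : ‖t‖ ≤ ‖t0‖ + ρ := by
      have h3 : ‖t - t0‖ < ρ := by rwa [mem_ball, dist_eq_norm] at ht
      have h4 := norm_add_le (t - t0) t0
      rw [sub_add_cancel] at h4
      linarith
    have htn0 : 0 ≤ ‖t0‖ := norm_nonneg _
    have hmaps : MapsTo (fun w : ℂ => t + w) (ball 0 1) (ball 0 ((n : ℝ) + 1)) := by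
      intro w hw
      rw [mem_ball_zero_iff] at hw ⊢
      have := norm_add_le t w
      linarith
    have h3 := hinf (fun w => h n (t + w))
      (holP_comp_l (hh1 n) (f := fun w : ℂ => t + w) (by fun_prop) isOpen_ball hmaps)
      (fun w hw => hhT n _ (hmaps hw)) d hd0.le (min_le_right _ _) (by
        rintro _ ⟨j, z, rfl⟩
        by_contra hlt
        push Not at hlt
        have ht1 : h n (t + 0) ∈ T := hhT n _ (hmaps (mem_ball_self one_pos))
        have h4 := hδc _ ht1 _ ((hE.lin j).mem z) (by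
          rw [dist_eq_norm]
          exact hlt.trans_le (min_le_left _ _))
        rw [add_zero] at h4
        have h5 : dist (c (h n t)) (G t0) < ε / 2 := hpp hn (hρb ht)
        have h6 : c (e j z) ∈ ball (G t0) ε := by
          rw [mem_ball]
          have e1 := dist_triangle (c (e j z)) (c (h n t)) (G t0)
          have e2 := dist_comm (c (e j z)) (c (h n t))
          linarith
        exact hεb h6 ⟨j, (hce j z).symm⟩)
    rw [Real.rpow_one] at h3
    have h4 : fderiv ℝ (fun w => h n (t + w)) 0 = fderiv ℝ (h n) t := by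
      rw [fderiv_comp_add_left, add_zero]
    rw [h4] at h3
    rw [le_div_iff₀ hd0]
    exact h3
  have hA' : ∀ t0, (∀ j, G t0 ≠ c (e j 0)) → ∃ ρ : ℝ, 0 < ρ ∧ ∃ K : ℝ,
      ∀ᶠ n in (𝓤 : Filter ℕ), ∀ t ∈ ball t0 ρ, sv (φ n) t ≤ K := by
    intro t0 ht0
    obtain ⟨ρ, hρ, K, hK0, hK⟩ := hA t0 ht0
    set ρ1 : ℝ := min (min (ρ / 4) (1 / (K2 * K + 1))) (1 / 2) with hρ1
    have hρ10 : 0 < ρ1 := lt_min (lt_min (by positivity) (by positivity)) (by norm_num)
    refine ⟨ρ / 2, by positivity, 1 / ρ1, ?_⟩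
    filter_upwards [hK, hge (‖t0‖ + ρ + 1)] with n hn hn2 t ht
    have h3 : ‖t - t0‖ < ρ / 2 := by rwa [mem_ball, dist_eq_norm] at ht
    have htn : ‖t‖ ≤ ‖t0‖ + ρ := by
      have h4 := norm_add_le (t - t0) t0
      rw [sub_add_cancel] at h4
      linarith
    have htn0 : 0 ≤ ‖t0‖ := norm_nonneg _
    have hDn := hDt n t 1 (by linarith)
    refine sv_le_of_bound_l (R := 1) (c := φ n t) hDn.dif hρ10
      (lt_of_le_of_lt (min_le_right _ _) (by norm_num)) fun w hw => ?_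
    have hw' : ‖w - t‖ = ρ1 := by rwa [mem_sphere, dist_eq_norm] at hw
    have hsub : ball t0 ρ ⊆ ball (0 : ℂ) ((n : ℝ) + 1) :=
      ball_subset_ball' (by rw [dist_zero_right]; linarith)
    have h5 := (convex_ball t0 ρ).norm_image_sub_le_of_norm_deriv_le (f := φ n) (C := K2 * K)
      (x := t) (y := w) (fun x hx => (hφ n).differentiableAt (isOpen_ball.mem_nhds (hsub hx)))
      (fun x hx => (hK2 (h n) (φ n) 0 _ (hD n) x (hsub hx)).trans
        (mul_le_mul_of_nonneg_left (hn x hx) hK20))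
      (ball_subset_ball (by linarith) ht) (by
        rw [mem_ball, dist_eq_norm]
        have h6 := norm_add_le (w - t) (t - t0)
        rw [sub_add_sub_cancel, hw'] at h6
        have h7 : ρ1 ≤ ρ / 4 := (min_le_left _ _).trans (min_le_left _ _)
        linarith)
    refine h5.trans ?_
    rw [hw']
    have h7 : ρ1 ≤ 1 / (K2 * K + 1) := (min_le_left _ _).trans (min_le_right _ _)
    have h8 : 0 ≤ K2 * K := mul_nonneg hK20 hK0
    calc K2 * K * ρ1 ≤ K2 * K * (1 / (K2 * K + 1)) := mul_le_mul_of_nonneg_left h7 h8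
      _ ≤ 1 := by
        rw [mul_one_div, div_le_one (by positivity)]
        linarith
  -- bounded derivatives everywhere
  have hB : ∀ t0 : ℂ, ∃ ρ : ℝ, 0 < ρ ∧ ∃ K : ℝ,
      ∀ᶠ n in (𝓤 : Filter ℕ), ∀ t ∈ ball t0 ρ, ‖fderiv ℝ (h n) t‖ ≤ K := by
    intro t0
    have h2 : ∀ᶠ z in 𝓝[≠] t0, ∀ j, G z ≠ c (e j 0) :=
      eventually_all.2 fun j => codis_ev (hcod j) t0
    rw [eventually_nhdsWithin_iff] at h2
    obtain ⟨ε, hε, hεb⟩ := Metric.mem_nhds_iff.1 h2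
    set r0 : ℝ := ε / 2 with hr0
    have hr00 : 0 < r0 := by positivity
    obtain ⟨K, hK⟩ : ∃ K : ℝ, ∀ᶠ n in (𝓤 : Filter ℕ), ∀ t ∈ sphere t0 r0, sv (φ n) t ≤ K := by
      refine (isCompact_sphere t0 r0).induction_on (p := fun A => ∃ K : ℝ,
        ∀ᶠ n in (𝓤 : Filter ℕ), ∀ t ∈ A, sv (φ n) t ≤ K) ?_ ?_ ?_ ?_
      · exact ⟨0, Eventually.of_forall fun n t ht => absurd ht (notMem_empty _)⟩
      · rintro A B hAB ⟨K, hK⟩
        exact ⟨K, hK.mono fun n hn t ht => hn t (hAB ht)⟩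
      · rintro A B ⟨K, hK⟩ ⟨K', hK'⟩
        refine ⟨max K K', ?_⟩
        filter_upwards [hK, hK'] with n hn hn' t ht
        rcases ht with ht | ht
        · exact (hn t ht).trans (le_max_left _ _)
        · exact (hn' t ht).trans (le_max_right _ _)
      · intro w hw
        have hw' : dist w t0 = r0 := hw
        have hwne : w ≠ t0 := by
          rintro rfl
          rw [dist_self] at hw'
          linarith
        obtain ⟨ρ, hρ, K, hK⟩ := hA' w (hεb (show w ∈ ball t0 ε by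
          rw [mem_ball, hw']; linarith) hwne)
        exact ⟨ball w ρ, mem_nhdsWithin_of_mem_nhds (ball_mem_nhds w hρ), K, hK⟩
    refine ⟨r0, hr00, C2 * max (max K 0) (1 / 1), ?_⟩
    filter_upwards [hK, hge (‖t0‖ + ε + 1)] with n hn hn2 t ht
    have h3 : ‖t - t0‖ < r0 := by rwa [mem_ball, dist_eq_norm] at ht
    have htn : ‖t‖ ≤ ‖t0‖ + r0 := by
      have h4 := norm_add_le (t - t0) t0
      rw [sub_add_cancel] at h4
      linarith
    have htn0 : 0 ≤ ‖t0‖ := norm_nonneg _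
    have hsv : sv (φ n) t ≤ max K 0 := by
      by_contra hlt
      push Not at hlt
      set ψ : ℂ → Fin m → ℂ := fun t => φ n (t0 + 1 * t) - 0 with hψ
      have hψd : DifferentiableOn ℂ ψ (ball 0 ε) := by
        refine DifferentiableOn.sub_const ?_ 0
        refine (hφ n).comp (by fun_prop) fun w hw => ?_
        rw [mem_ball_zero_iff] at hw ⊢
        have := norm_add_le t0 (1 * w)
        rw [one_mul] at this ⊢
        linarith
      have hsvψ : ∀ w, sv ψ w = sv (φ n) (t0 + w) := by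
        intro w
        have := sv_comp_l (φ n) t0 1 0 w
        rw [norm_one, one_mul, one_mul] at this
        exact this
      obtain ⟨w, hw, hw2⟩ := sv_max_l hψd (z := t - t0) (s := max K 0) (r := r0)
        (le_max_right _ _) (by rw [hsvψ, add_sub_cancel]; exact hlt) h3 (by linarith)
      rw [hsvψ] at hw2
      have h4 := hn (t0 + w) (by
        rw [mem_sphere, dist_eq_norm, add_sub_cancel_left]
        exact hw)
      have := le_max_left K 0
      linarith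
    refine (hgrad (h n) (φ n) t 1 one_pos (hDt n t 1 (by linarith))).trans ?_
    exact mul_le_mul_of_nonneg_left (max_le_max hsv le_rfl) hC2.le
  have hC : ∀ L : ℝ, ∃ K : ℝ, ∀ᶠ n in (𝓤 : Filter ℕ), ∀ t ∈ closedBall (0 : ℂ) L,
      ‖fderiv ℝ (h n) t‖ ≤ K := by
    intro L
    refine (isCompact_closedBall (0 : ℂ) L).induction_on (p := fun A => ∃ K : ℝ,
      ∀ᶠ n in (𝓤 : Filter ℕ), ∀ t ∈ A, ‖fderiv ℝ (h n) t‖ ≤ K) ?_ ?_ ?_ ?_
    · exact ⟨0, Eventually.of_forall fun n t ht => absurd ht (notMem_empty _)⟩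
    · rintro A B hAB ⟨K, hK⟩
      exact ⟨K, hK.mono fun n hn t ht => hn t (hAB ht)⟩
    · rintro A B ⟨K, hK⟩ ⟨K', hK'⟩
      refine ⟨max K K', ?_⟩
      filter_upwards [hK, hK'] with n hn hn' t ht
      rcases ht with ht | ht
      · exact (hn t ht).trans (le_max_left _ _)
      · exact (hn' t ht).trans (le_max_right _ _)
    · intro w _
      obtain ⟨ρ, hρ, K, hK⟩ := hB w
      exact ⟨ball w ρ, mem_nhdsWithin_of_mem_nhds (ball_mem_nhds w hρ), K, hK⟩
  obtain ⟨H, hH, hHT, hHc, hHd⟩ := exists_limit_loc_l hT.comp hT.sub (𝓤 := 𝓤) (h := h) (by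
      intro L
      filter_upwards [hge L] with n hn
      exact (hh1 n).mono (ball_subset_ball (by linarith))) (by
      intro L
      filter_upwards [hge L] with n hn z hz
      exact hhT n z (ball_subset_ball (by linarith) hz)) (by
      intro L
      obtain ⟨K, hK⟩ := hC L
      exact ⟨K, hK.mono fun n hn z hz => hn z (ball_subset_closedBall hz)⟩)
  have hcH : ∀ z, G z = c (H z) := by
    intro z
    have h2 : Tendsto (fun n => h n z) 𝓤 (𝓝 (H z)) := hHc.pointwise (mem_univ z)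
    have h3 : ∀ᶠ n in (𝓤 : Filter ℕ), h n z ∈ T := by
      filter_upwards [hge (‖z‖ + 1)] with n hn
      exact hhT n z (mem_ball_zero_iff.2 (by linarith [norm_nonneg z]))
    have h4 : Tendsto (fun n => c (h n z)) 𝓤 (𝓝 (c (H z))) :=
      ((hc (H z) (hHT z)).tendsto).comp (tendsto_nhdsWithin_iff.2 ⟨h2, h3⟩)
    exact tendsto_nhds_unique (hGc.pointwise (mem_univ z)) h4
  obtain ⟨Φ, hΦ, hΦo⟩ := hT.exists_lift hH hHT
  apply hGne
  rcases entire_eq hT hf hG hE hH hHT hΦ hΦo with h2 | ⟨j, h2⟩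
  · intro z
    rw [hcH z, hcH 0, h2 z]
  · intro z
    rw [hcH z, hcH 0, h2 z, h2 0]
    change c (e j _) = c (e j _)
    rw [hce, hce j (ℓ j (Φ 0))]

end Pool.Agent.N154.TB
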