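import Pool.Agent.Y190.OP.Bro

/-! The Fubini-Study density and the derivative of the projection matrices. -/

set_option autoImplicit false

open Filter Topology Metric Set

namespace Pool.Agent.N154.TB

open Pool.Agent.Y190.OP

variable {N : ℕ}

theorem Phi_norm_le {u : Fin N → ℂ} {j : Fin N} (hj : ∀ i, ‖u i‖ ≤ ‖u j‖) (i : Fin N) :
    ‖Phi u i j‖ ≤ ‖Phi u j j‖ := by
  unfold Phi
  rw [norm_div, norm_div, norm_mul, norm_mul]
  apply div_le_div_of_nonneg_right _ (norm_nonneg _)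
  exact mul_le_mul_of_nonneg_right (hj i) (norm_nonneg _)

theorem Phi_diag_ge {u : Fin N → ℂ} (hu : u ≠ 0) {j : Fin N} (hj : ∀ i, ‖u i‖ ≤ ‖u j‖) :
    1 ≤ N * ‖Phi u j j‖ := by
  have h1 : ‖Phi u j j‖ = ‖u j‖ ^ 2 / ∑ l, ‖u l‖ ^ 2 := by
    unfold Phi
    rw [norm_div, norm_mul, RCLike.norm_conj, nsq_eq, Complex.norm_real,
      Real.norm_of_nonneg (Finset.sum_nonneg fun _ _ => by positivity), sq]
  have h2 : 0 < ∑ l, ‖u l‖ ^ 2 := by
    obtain ⟨i, hi⟩ := Function.ne_iff.1 hu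
    have h3 : 0 < ‖u i‖ := norm_pos_iff.2 hi
    exact Finset.sum_pos' (fun _ _ => by positivity) ⟨i, Finset.mem_univ i, by positivity⟩
  have h3 : ∑ l, ‖u l‖ ^ 2 ≤ N * ‖u j‖ ^ 2 := by
    calc ∑ l, ‖u l‖ ^ 2 ≤ ∑ _l : Fin N, ‖u j‖ ^ 2 :=
          Finset.sum_le_sum fun l _ => pow_le_pow_left₀ (norm_nonneg _) (hj l) 2
      _ = N * ‖u j‖ ^ 2 := by rw [Finset.sum_const, Finset.card_univ, Fintype.card_fin, nsmul_eq_mul]
  rw [h1, ← mul_div_assoc, le_div_iff₀ h2, one_mul]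
  exact h3

/-- the derivative of the ratios of the homogeneous coordinates -/
theorem ratio_deriv_le {h : ℂ → Fin N → ℂ} {V : Set ℂ} (hV : IsOpen V)
    (hd : DifferentiableOn ℂ h V) (h0 : ∀ w ∈ V, h w ≠ 0) {z : ℂ} (hz : z ∈ V) {j : Fin N}
    (hj : ∀ i, ‖h z i‖ ≤ ‖h z j‖) (i : Fin N) :
    ‖deriv (fun w => h w i / h w j) z‖ ≤ 2 * N * ‖fderiv ℝ (fun w => Phi (h w)) z‖ := by
  have hne : h z j ≠ 0 := by
    intro h1
    apply h0 z hz
    funext i
    have := hj i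
    rw [h1, norm_zero] at this
    exact norm_le_zero_iff.1 this
  have hdz : DifferentiableAt ℂ h z := hd.differentiableAt (hV.mem_nhds hz)
  have hcomp : ∀ k, DifferentiableAt ℂ (fun w => h w k) z := fun k => differentiableAt_pi.1 hdz k
  have hr : DifferentiableAt ℂ (fun w => h w i / h w j) z := (hcomp i).div (hcomp j) hne
  have hP : HolP V fun w => Phi (h w) := fun w hw => ⟨V, h, hV, hw, hd, fun t ht => ⟨h0 t ht, rfl⟩⟩
  have hPd : HasFDerivAt (fun w => Phi (h w)) (fderiv ℝ (fun w => Phi (h w)) z) z :=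
    (hP.differentiableAt hz).hasFDerivAt
  set D := fderiv ℝ (fun w => Phi (h w)) z with hD
  have hent : ∀ k l, HasDerivAt (fun t : ℝ => Phi (h (z + (t : ℂ))) k l) (D 1 k l) 0 := by
    intro k l
    have e1 : HasDerivAt (fun t : ℝ => z + (t : ℂ)) 1 (0 : ℝ) := by
      simpa using (Complex.ofRealCLM.hasDerivAt (x := 0)).const_add z
    have e2 : HasFDerivAt (fun w => Phi (h w)) D (z + ((0 : ℝ) : ℂ)) := by
      rwa [Complex.ofReal_zero, add_zero]
    have e3 : HasDerivAt (fun t : ℝ => Phi (h (z + (t : ℂ)))) (D 1) 0 :=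
      HasFDerivAt.comp_hasDerivAt (f := fun t : ℝ => z + (t : ℂ)) (0 : ℝ) e2 e1
    exact hasDerivAt_pi.1 (hasDerivAt_pi.1 e3 k) l
  have hDle : ∀ k l, ‖D 1 k l‖ ≤ ‖D‖ := by
    intro k l
    have e1 := D.le_opNorm 1
    rw [norm_one, mul_one] at e1
    exact ((norm_le_pi_norm (D 1 k) l).trans (norm_le_pi_norm (D 1) k)).trans e1
  have hz0 : z + ((0 : ℝ) : ℂ) = z := by rw [Complex.ofReal_zero, add_zero]
  have hPjj : Phi (h z) j j ≠ 0 := (Phi_diag_ne (h0 z hz)).2 hne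
  have hq : HasDerivAt (fun t : ℝ => Phi (h (z + (t : ℂ))) i j / Phi (h (z + (t : ℂ))) j j)
      ((D 1 i j * Phi (h z) j j - Phi (h z) i j * D 1 j j) / Phi (h z) j j ^ 2) 0 := by
    have e1 := (hent i j).div (hent j j) (by rw [hz0]; exact hPjj)
    rw [hz0] at e1
    exact e1
  have hq2 : HasDerivAt (fun t : ℝ => h (z + (t : ℂ)) i / h (z + (t : ℂ)) j)
      (deriv (fun w => h w i / h w j) z) 0 := by
    have e1 : HasDerivAt (fun t : ℝ => z + (t : ℂ)) 1 (0 : ℝ) := by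
      simpa using (Complex.ofRealCLM.hasDerivAt (x := 0)).const_add z
    have e2 : HasDerivAt (fun w => h w i / h w j) (deriv (fun w => h w i / h w j) z)
        (z + ((0 : ℝ) : ℂ)) := by
      rw [hz0]
      exact hr.hasDerivAt
    have e3 := HasDerivAt.scomp (h := fun t : ℝ => z + (t : ℂ)) (0 : ℝ) e2 e1
    rw [one_smul] at e3
    exact e3
  have hev : (fun t : ℝ => Phi (h (z + (t : ℂ))) i j / Phi (h (z + (t : ℂ))) j j) =ᶠ[𝓝 0]
      fun t : ℝ => h (z + (t : ℂ)) i / h (z + (t : ℂ)) j := by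
    have e1 : Tendsto (fun t : ℝ => z + (t : ℂ)) (𝓝 0) (𝓝 z) := by
      have : Continuous (fun t : ℝ => z + (t : ℂ)) := by fun_prop
      have := this.tendsto 0
      rwa [hz0] at this
    filter_upwards [e1.eventually (hV.mem_nhds hz),
      e1.eventually ((hcomp j).continuousAt.eventually_ne hne)] with t ht1 ht2
    exact Phi_ratio (h0 _ ht1) ht2 i
  rw [← hq.unique (hq2.congr_of_eventuallyEq hev)]
  have hx : 0 < ‖Phi (h z) j j‖ := norm_pos_iff.2 hPjj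
  have hN := Phi_diag_ge (h0 z hz) hj
  have hN0 : (0 : ℝ) ≤ N := Nat.cast_nonneg N
  have hD0 : 0 ≤ ‖D‖ := norm_nonneg _
  rw [norm_div, norm_pow, div_le_iff₀ (by positivity)]
  calc ‖D 1 i j * Phi (h z) j j - Phi (h z) i j * D 1 j j‖ ≤
        ‖D 1 i j * Phi (h z) j j‖ + ‖Phi (h z) i j * D 1 j j‖ := norm_sub_le _ _
    _ = ‖D 1 i j‖ * ‖Phi (h z) j j‖ + ‖Phi (h z) i j‖ * ‖D 1 j j‖ := by rw [norm_mul, norm_mul]
    _ ≤ ‖D‖ * ‖Phi (h z) j j‖ + ‖Phi (h z) j j‖ * ‖D‖ :=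
        add_le_add (mul_le_mul_of_nonneg_right (hDle i j) (norm_nonneg _))
          (mul_le_mul (Phi_norm_le hj i) (hDle j j) (norm_nonneg _) (norm_nonneg _))
    _ = 2 * ‖D‖ * ‖Phi (h z) j j‖ * 1 := by ring
    _ ≤ 2 * ‖D‖ * ‖Phi (h z) j j‖ * (N * ‖Phi (h z) j j‖) :=
        mul_le_mul_of_nonneg_left hN (by positivity)
    _ = 2 * N * ‖D‖ * ‖Phi (h z) j j‖ ^ 2 := by ring

/-- **The density** is bounded by the square of the derivative of the projection matrices -/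
theorem density_le {h : ℂ → Fin N → ℂ} {V : Set ℂ} (hV : IsOpen V)
    (hd : DifferentiableOn ℂ h V) (h0 : ∀ w ∈ V, h w ≠ 0) {z : ℂ} (hz : z ∈ V) {B : ℝ}
    (hB : ‖fderiv ℝ (fun w => Phi (h w)) z‖ ≤ B) :
    (∑ i, ∑ j, ‖h z i * deriv h z j - h z j * deriv h z i‖ ^ 2) / 2 / (∑ j, ‖h z j‖ ^ 2) ^ 2 ≤
      8 * (N : ℝ) ^ 4 * B ^ 2 := by
  have hNe : Nonempty (Fin N) := by
    obtain ⟨i, -⟩ := Function.ne_iff.1 (h0 z hz)
    exact ⟨i⟩
  obtain ⟨j, hj⟩ := Finite.exists_max fun i => ‖h z i‖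
  have hne : h z j ≠ 0 := by
    intro h1
    apply h0 z hz
    funext i
    have := hj i
    rw [h1, norm_zero] at this
    exact norm_le_zero_iff.1 this
  have hdz : DifferentiableAt ℂ h z := hd.differentiableAt (hV.mem_nhds hz)
  have hcomp : ∀ k, DifferentiableAt ℂ (fun w => h w k) z := fun k => differentiableAt_pi.1 hdz k
  have hder : ∀ k, deriv (fun w => h w k) z = deriv h z k := fun k =>
    ((hasDerivAt_pi.1 hdz.hasDerivAt) k).deriv
  set r : Fin N → ℂ := fun i => h z i / h z j with hr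
  set r' : Fin N → ℂ := fun i => deriv (fun w => h w i / h w j) z with hr'
  have hr1 : ∀ i, ‖r i‖ ≤ 1 := by
    intro i
    rw [hr]
    simp only
    rw [norm_div]
    exact div_le_one_of_le₀ (hj i) (norm_nonneg _)
  have hB0 : 0 ≤ B := (norm_nonneg _).trans hB
  have hN0 : (0 : ℝ) ≤ N := Nat.cast_nonneg N
  have hr2 : ∀ i, ‖r' i‖ ≤ 2 * N * B := fun i =>
    (ratio_deriv_le hV hd h0 hz hj i).trans (mul_le_mul_of_nonneg_left hB (by positivity))
  have hval : ∀ i, h z i = r i * h z j := fun i => by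
    rw [hr]
    simp only
    rw [div_mul_cancel₀ _ hne]
  have hrd : ∀ i, r' i = (deriv h z i * h z j - h z i * deriv h z j) / h z j ^ 2 := by
    intro i
    rw [hr']
    simp only
    have e1 := (hcomp i).hasDerivAt.div (hcomp j).hasDerivAt hne
    rw [hder, hder] at e1
    exact e1.deriv
  have hdi : ∀ i, deriv h z i = r' i * h z j + r i * deriv h z j := by
    intro i
    rw [hrd, hr]
    simp only
    field_simp
    ring
  have hm : ∀ i k, ‖h z i * deriv h z k - h z k * deriv h z i‖ ≤ 4 * N * B * ‖h z j‖ ^ 2 := by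
    intro i k
    have e1 : h z i * deriv h z k - h z k * deriv h z i =
        (r i * r' k - r k * r' i) * h z j ^ 2 := by
      rw [hdi i, hdi k, hval i, hval k]
      ring
    rw [e1, norm_mul, norm_pow]
    refine mul_le_mul_of_nonneg_right ?_ (by positivity)
    calc ‖r i * r' k - r k * r' i‖ ≤ ‖r i * r' k‖ + ‖r k * r' i‖ := norm_sub_le _ _
      _ = ‖r i‖ * ‖r' k‖ + ‖r k‖ * ‖r' i‖ := by rw [norm_mul, norm_mul]
      _ ≤ 1 * (2 * N * B) + 1 * (2 * N * B) :=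
          add_le_add (mul_le_mul (hr1 i) (hr2 k) (norm_nonneg _) zero_le_one)
            (mul_le_mul (hr1 k) (hr2 i) (norm_nonneg _) zero_le_one)
      _ = 4 * N * B := by ring
  have hsum : ‖h z j‖ ^ 2 ≤ ∑ l, ‖h z l‖ ^ 2 :=
    Finset.single_le_sum (f := fun l => ‖h z l‖ ^ 2) (fun _ _ => by positivity) (Finset.mem_univ j)
  have hpos : 0 < ‖h z j‖ ^ 2 := by
    have := norm_pos_iff.2 hne
    positivity
  have hnum : ∑ i, ∑ k, ‖h z i * deriv h z k - h z k * deriv h z i‖ ^ 2 ≤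
      N * (N * (4 * N * B * ‖h z j‖ ^ 2) ^ 2) := by
    calc ∑ i, ∑ k, ‖h z i * deriv h z k - h z k * deriv h z i‖ ^ 2 ≤
          ∑ _i : Fin N, ∑ _k : Fin N, (4 * N * B * ‖h z j‖ ^ 2) ^ 2 :=
          Finset.sum_le_sum fun i _ => Finset.sum_le_sum fun k _ =>
            pow_le_pow_left₀ (norm_nonneg _) (hm i k) 2
      _ = _ := by simp only [Finset.sum_const, Finset.card_univ, Fintype.card_fin, nsmul_eq_mul]
  have hspos : 0 < ∑ l, ‖h z l‖ ^ 2 := hpos.trans_le hsum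
  rw [div_div, div_le_iff₀ (by positivity)]
  refine hnum.trans ?_
  have e1 : (N : ℝ) * (N * (4 * N * B * ‖h z j‖ ^ 2) ^ 2) =
      8 * (N : ℝ) ^ 4 * B ^ 2 * (2 * (‖h z j‖ ^ 2) ^ 2) := by ring
  rw [e1]
  apply mul_le_mul_of_nonneg_left _ (by positivity)
  exact mul_le_mul_of_nonneg_left (pow_le_pow_left₀ hpos.le hsum 2) (by norm_num)

end Pool.Agent.N154.TB
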