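import Pool.Agent.N154.TB.AGeo
import Pool.Agent.N154.TB.Lip
import Pool.Agent.N154.TB.LDefs
import Pool.Agent.N154.TB.Minor
import Pool.Agent.N154.DD.KGeo

/-! Holomorphic maps of projective sets over complex tori which contract the elliptic curves. -/

set_option autoImplicit false

open Filter Topology Metric Set LinearAlgebra.Projectivization

namespace Pool.Agent.N154.TB

open FF Pool.Agent.Y190.OP Pool.Agent.W602.GT
open Pool.Agent.N154.TT (HolToTorus RiemannForm)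
open Pool.Agent.N154.GG (HolMap HolMapOn toProj toProj_Phi Phi_rep_mk
  Phi_rep_toProj proj_ext holMap_of holP_of Xi holP_of_on toProj_Phi_rep holP_comp_l)

variable {n m N : ℕ} {ι ι' : Type} {F : ι → MvPolynomial (Fin (n + 1)) ℂ}
  {G : ι' → MvPolynomial (Fin (n + 1)) ℂ} {d : ℕ} {L : Submodule ℤ (Fin m → ℂ)}
  {α : (Fin (n + 1) → ℂ) → (Fin m → ℂ) ⧸ L} {H : (Fin m → ℂ) → (Fin m → ℂ) → ℂ}
  {κ : Type} {k : κ → ℕ} {η : κ → (Fin (n + 1) → ℂ) → (Fin (n + 1) → ℂ) → (Fin (n + 1) → ℂ) → ℂ}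
  {X : Set (Fin (n + 1) → ℂ)} {c : (Fin (n + 1) → ℂ) → ℙ ℂ (Fin (N + 1) → ℂ)}

/-- the map of the matrices -/
noncomputable def cM (c : (Fin (n + 1) → ℂ) → ℙ ℂ (Fin (N + 1) → ℂ)) (M : Mat (n + 1)) :
    Mat (N + 1) := Phi (c (toProj M).rep).rep

theorem cM_PM (M : Mat (n + 1)) : cM c M ∈ PM := ⟨_, (c (toProj M).rep).rep_nonzero, rfl⟩

theorem cM_eq (hX : Conic X) (hc : HolToProj X c) {M : Mat (n + 1)} (hM : M ∈ TS X)
    {i : Fin (n + 1)} (hi : M i i ≠ 0) : c (toProj M).rep = c (chart i M) := by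
  have h1 := rep_toProj hX hM
  have h2 : Phi (toProj M).rep = M := Phi_rep_toProj (TS_PM hX hM)
  have h3 : (toProj M).rep i ≠ 0 := by
    rw [← h2] at hi
    exact (Phi_diag_ne (toProj M).rep_nonzero).1 hi
  have h4 : chart i M = ((toProj M).rep i)⁻¹ • (toProj M).rep := by
    conv_lhs => rw [← h2]
    exact chart_Phi (toProj M).rep_nonzero h3
  rw [h4, hc.homog _ h1 _ (inv_ne_zero h3)]

theorem cM_local (hX : Conic X) (hc : HolToProj X c) {M0 : Mat (n + 1)} (hM0 : M0 ∈ TS X)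
    {i : Fin (n + 1)} (hi : M0 i i ≠ 0) :
    ∃ (V : Set (Fin (n + 1) → ℂ)) (h : (Fin (n + 1) → ℂ) → Fin (N + 1) → ℂ), IsOpen V ∧
      chart i M0 ∈ V ∧ DifferentiableOn ℂ h V ∧ ∀ M ∈ TS X, M i i ≠ 0 → chart i M ∈ V →
        h (chart i M) ≠ 0 ∧ cM c M = Phi (h (chart i M)) := by
  obtain ⟨V, h, hV, hMV, hd, hh⟩ := hc.hol _ (TS_chart hX hM0 hi)
  refine ⟨V, h, hV, hMV, hd, fun M hM hMi hMV' => ?_⟩
  obtain ⟨h0, h1⟩ := hh _ hMV' (TS_chart hX hM hMi)
  refine ⟨h0, ?_⟩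
  unfold cM
  rw [cM_eq hX hc hM hMi, h1, Phi_rep_mk]

theorem cM_cont (hX : Conic X) (hc : HolToProj X c) : ContinuousOn (cM c) (TS X) := by
  intro M0 hM0
  obtain ⟨i, hi⟩ := PM.exists_diag (TS_PM hX hM0)
  obtain ⟨V, h, hV, hMV, hd, hh⟩ := cM_local hX hc hM0 hi
  have h1 : ContinuousAt (chart i) M0 := continuousAt_chart hi
  have h2 : ContinuousAt (fun M => h (chart i M)) M0 :=
    ContinuousAt.comp (g := h) (hd.differentiableAt (hV.mem_nhds hMV)).continuousAt h1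
  have h3 : ContinuousAt (fun M => Phi (h (chart i M))) M0 :=
    ContinuousAt.comp (g := Phi) (continuousAt_Phi (hh M0 hM0 hi hMV).1) h2
  have h4 : ∀ᶠ M : Mat (n + 1) in 𝓝 M0, M i i ≠ 0 := by
    have : ContinuousAt (fun M : Mat (n + 1) => M i i) M0 :=
      (continuous_apply_apply i i).continuousAt
    exact this.eventually_ne hi
  refine h3.continuousWithinAt.congr_of_eventuallyEq ?_ (hh M0 hM0 hi hMV).2
  filter_upwards [self_mem_nhdsWithin, mem_nhdsWithin_of_mem_nhds h4,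
    mem_nhdsWithin_of_mem_nhds (h1.eventually (hV.mem_nhds hMV))] with M e1 e2 e3
  exact (hh M e1 e2 e3).2

theorem cM_hol (hX : Conic X) (hc : HolToProj X c) (U : Set ℂ) (P : ℂ → Mat (n + 1))
    (hU : IsOpen U) (hP : HolP U P) (hPT : ∀ z ∈ U, P z ∈ TS X) : HolP U fun z => cM c (P z) := by
  intro z hz
  obtain ⟨i, hi⟩ := PM.exists_diag (TS_PM hX (hPT z hz))
  obtain ⟨V, h, hV, hMV, hd, hh⟩ := cM_local hX hc (hPT z hz) hi
  have hcP : ContinuousAt P z := hP.continuousAt hz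
  have h1 : ∀ᶠ w in 𝓝 z, w ∈ U ∧ P w i i ≠ 0 ∧ chart i (P w) ∈ V := by
    have h4 : ContinuousAt (fun w => P w i i) z := by
      have : Continuous (fun M : Mat (n + 1) => M i i) := continuous_apply_apply i i
      exact ContinuousAt.comp (g := fun M : Mat (n + 1) => M i i) this.continuousAt hcP
    have h5 : ContinuousAt (fun w => chart i (P w)) z := (hP.diff_chart hz hi).continuousAt
    filter_upwards [hU.mem_nhds hz, h4.eventually_ne hi, h5.eventually (hV.mem_nhds hMV)] with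
      w e1 e2 e3
    exact ⟨e1, e2, e3⟩
  obtain ⟨W, hW, hWo, hzW⟩ := _root_.mem_nhds_iff.1 h1
  refine ⟨W, fun w => h (chart i (P w)), hWo, hzW, fun w hw => ?_, fun w hw => ?_⟩
  · obtain ⟨e1, e2, e3⟩ := hW hw
    exact (DifferentiableAt.comp (g := h) w (hd.differentiableAt (hV.mem_nhds e3))
      (hP.diff_chart e1 e2)).differentiableWithinAt
  · obtain ⟨e1, e2, e3⟩ := hW hw
    exact hh _ (hPT w e1) e2 e3

/-- **Maps which contract the elliptic curves** -/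
theorem lip_geo [DiscreteTopology L] [IsZLattice ℝ L] (hF : ∀ i, IsForm (F i))
    (hGf : ∀ j, IsForm (G j)) (hB : BrodyHyp (Cone F ∩ Zeros G))
    (hη : TwoForms (Cone F) (Zeros G) d α k η)
    (hα : HolToTorus (Cone F) L α) (hfib : HypFibres (Cone F) α)
    (hH : RiemannForm L H ∨ ∀ g, CurveIn (Cone F) g → Elliptic g → IsConst g)
    (hc : HolToProj (Cone F) c)
    (hcE : ∀ g, CurveIn (Cone F) g → Elliptic g → IsConst fun z => c (g z).rep) :
    ∃ A : ℝ, 0 < A ∧ ∀ f, DiscIn (Cone F) f → ∀ ρ, Density (ball 0 1) (fun z => c (f z).rep) ρ →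
      ∀ z ∈ ball (0 : ℂ) 1, ρ z ≤ A / (1 - ‖z‖ ^ 2) ^ 2 := by
  classical
  have hX := cone_conic hF
  have hT := td_of hX hα (isCompact_TF hF) Subset.rfl
  have hf : Fib (TS (Cone F)) (La L) (aM L α (Cone F)) :=
    fib_of hX (fun M hM => aM_rep hX hα hM) Subset.rfl hfib
  have hG : GV (TS (Cone F)) (La L) (aM L α (Cone F)) η := ⟨k, SM (Zeros G),
    gd_of hX (Zeros_smul hGf) hα (fun M hM i hi => aM_chart hX hα hM hi) hη Subset.rfl
      (dense_of hX hGf hB Subset.rfl)⟩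
  obtain ⟨C, hC0, hC⟩ := gradient_l hT hf
  have hS : Spl (TS (Cone F)) (La L) (aM L α (Cone F)) := by
    rcases hH with hH | hH
    · exact spl_of hH hT hG hC0 hC
    · intro v g β hv hg
      exfalso
      obtain ⟨p, q, hind, hp, hq⟩ := hg.periods hT hG hC0 hC hv
      have h1 := hH (fun z => toProj (g z)) ⟨holMap_of hg.hol, fun z => rep_toProj hX (hg.mem z)⟩
        (by
          obtain ⟨L', hL'⟩ := pair_periods hind hp hq
          exact ⟨L', fun l hl z => by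
            change toProj (g (z + l)) = toProj (g z)
            rw [hL' l hl z]⟩)
      apply mk_line_ne (L := L) hv (w := β)
      intro z
      rw [← mem_La_iff]
      have h2 : g z = g 0 := by
        have h3 := congrArg (fun p : ℙ ℂ (Fin (n + 1) → ℂ) => Phi p.rep) (h1 z 0)
        change Phi (toProj (g z)).rep = Phi (toProj (g 0)).rep at h3
        rwa [Phi_rep_toProj (TS_PM hX (hg.mem z)), Phi_rep_toProj (TS_PM hX (hg.mem 0))] at h3
      have h3 := (La L).sub_mem (hg.ov z) (hg.ov 0)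
      rw [h2] at h3
      have e : z • v + β - ((0 : ℂ) • v + β) = z • v + β - aM L α (Cone F) (g 0) -
          ((0 : ℂ) • v + β - aM L α (Cone F) (g 0)) := by abel
      rw [e]
      exact h3
  obtain ⟨r, v, β, ℓ, e, hE⟩ := exists_En hT hG hC0 hC hS
  have hvne : ∀ j, v j ≠ 0 := fun j h0 => by
    have := hE.one j
    rw [h0, map_zero] at this
    exact zero_ne_one this
  have hce : ∀ j z, cM c (e j z) = cM c (e j 0) := by
    intro j z
    obtain ⟨p, q, hind, hp, hq⟩ := (hE.lin j).periods hT hG hC0 hC (hvne j)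
    obtain ⟨L', hL'⟩ := pair_periods hind hp hq
    have h1 := hcE (fun z => toProj (e j z))
      ⟨holMap_of (hE.lin j).hol, fun z => rep_toProj hX ((hE.lin j).mem z)⟩
      ⟨L', fun l hl z => by
        change toProj (e j (z + l)) = toProj (e j z)
        rw [hL' l hl z]⟩ z 0
    unfold cM
    have h2 : c (toProj (e j z)).rep = c (toProj (e j 0)).rep := h1
    rw [h2]
  obtain ⟨K, hK0, hK⟩ := lip_of hT hf hG hE (cM_cont hX hc) (fun M _ => cM_PM M) (cM_hol hX hc) hce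
  refine ⟨32 * ((N + 1 : ℕ) : ℝ) ^ 4 * K ^ 2, by positivity, fun f hf' ρ hρ z hz => ?_⟩
  have hz1 : ‖z‖ < 1 := mem_ball_zero_iff.1 hz
  have hz0 : 0 ≤ ‖z‖ := norm_nonneg z
  set Q : ℂ → Mat (n + 1) := fun z => Phi (f z).rep with hQ
  have hQh : HolP (ball 0 1) Q := holP_of_on hf'.1
  have hQT : ∀ z ∈ ball (0 : ℂ) 1, Q z ∈ TS (Cone F) := fun z hz => mem_TS (hf'.2 z hz)
  set R : ℂ → Mat (N + 1) := fun z => cM c (Q z) with hR
  have hRh : HolP (ball 0 1) R := cM_hol hX hc _ _ isOpen_ball hQh hQT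
  have hRf : ∀ z, R z = Phi (c (f z).rep).rep := by
    intro z
    rw [hR, hQ]
    simp only
    unfold cM
    rw [toProj_Phi_rep]
  -- the derivative
  have hmaps : MapsTo (fun w : ℂ => aff z (1 - ‖z‖) w) (ball 0 1) (ball 0 1) := by
    intro w hw
    rw [mem_ball_zero_iff] at hw ⊢
    unfold aff
    refine lt_of_le_of_lt (norm_add_le _ _) ?_
    rw [norm_mul, Complex.norm_real, Real.norm_of_nonneg (by linarith)]
    nlinarith
  have hder : ‖fderiv ℝ R z‖ ≤ K / (1 - ‖z‖) := by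
    have h1 := hK (fun w => Q (aff z (1 - ‖z‖) w))
      (holP_comp_l hQh (aff_diff _ _).differentiableOn isOpen_ball hmaps)
      (fun w hw => hQT _ (hmaps hw))
    have e1 : aff z (1 - ‖z‖) 0 = z := by simp [aff]
    have h2 := norm_fderiv_aff (Ψ := R) (a := z) (ρ := 1 - ‖z‖) (z := 0) (by linarith)
      (by rw [e1]; exact hRh.differentiableAt hz)
    rw [e1] at h2
    rw [le_div_iff₀ (by linarith), mul_comm, ← h2]
    exact h1
  -- the density
  obtain ⟨V, h, hV, hzV, hd, hh⟩ := hRh z hz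
  have hVs : IsOpen (V ∩ ball (0 : ℂ) 1) := hV.inter isOpen_ball
  have hρz := hρ (V ∩ ball 0 1) h hVs inter_subset_right (hd.mono inter_subset_left) (by
    intro w hw
    obtain ⟨h0, h1⟩ := hh w hw.1
    refine ⟨h0, proj_ext ?_⟩
    rw [Phi_rep_mk, ← h1, hRf]) z ⟨hzV, hz⟩
  have hRV : ∀ᶠ w in 𝓝 z, R w = Phi (h w) := by
    filter_upwards [hV.mem_nhds hzV] with w hw
    exact (hh w hw).2
  have hfe : fderiv ℝ (fun w => Phi (h w)) z = fderiv ℝ R z :=
    (Filter.EventuallyEq.fderiv_eq hRV).symm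
  have h3 := density_le hV hd (fun w hw => (hh w hw).1) hzV (B := K / (1 - ‖z‖)) (by
    rw [hfe]
    exact hder)
  rw [hρz]
  refine h3.trans ?_
  have e1 : 1 - ‖z‖ ^ 2 = (1 - ‖z‖) * (1 + ‖z‖) := by ring
  have e2 : 0 < 1 - ‖z‖ := by linarith
  have e3 : (1 - ‖z‖ ^ 2) ^ 2 ≤ 4 * (1 - ‖z‖) ^ 2 := by
    rw [e1, mul_pow]
    have : (1 + ‖z‖) ^ 2 ≤ 4 := by nlinarith
    nlinarith [sq_nonneg (1 - ‖z‖)]
  have e4 : 0 < 1 - ‖z‖ ^ 2 := by
    rw [e1]
    positivity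
  rw [div_pow, le_div_iff₀ (by positivity)]
  calc 8 * ((N + 1 : ℕ) : ℝ) ^ 4 * (K ^ 2 / (1 - ‖z‖) ^ 2) * (1 - ‖z‖ ^ 2) ^ 2 ≤
        8 * ((N + 1 : ℕ) : ℝ) ^ 4 * (K ^ 2 / (1 - ‖z‖) ^ 2) * (4 * (1 - ‖z‖) ^ 2) :=
        mul_le_mul_of_nonneg_left e3 (by positivity)
    _ = 32 * ((N + 1 : ℕ) : ℝ) ^ 4 * K ^ 2 := by
        field_simp
        ring

end Pool.Agent.N154.TB
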