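import Pool.Agent.N154.TB.Cross

/-! There are no rescaled sequences of discs, for abelian varieties. -/

set_option autoImplicit false

open Filter Topology Metric Set

namespace Pool.Agent.N154.TB

open Pool.Agent.Y190.OP Pool.Agent.N155
open Pool.Agent.N154.GG (holP_comp hp_cont UU uu_ge qk qk_ge qk_dvd cf cf_nonneg norm_phi_le Wl
  norm_Wl diff_Wl nz_dich_l it_lim_l affine_of CConv.unif locmax_l KN diff_it ball_sub_l)

variable {N m : ℕ} {T : Set (Mat N)} {Λ : AddSubgroup (Fin m → ℂ)} {a : Mat N → Fin m → ℂ}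
  {κ : Type} {η : κ → (Fin N → ℂ) → (Fin N → ℂ) → (Fin N → ℂ) → ℂ}
  {r : ℕ} {v β : Fin r → Fin m → ℂ} {ℓ : Fin r → ((Fin m → ℂ) →L[ℂ] ℂ)}
  {e : Fin r → ℂ → Mat N} {D C : ℝ} {nn : ℕ → ℕ} {b : ℕ → ℂ}
  {h : ℕ → ℂ → Mat N} {φ : ℕ → ℂ → Fin m → ℂ}

theorem SQv.bW (hs : SQv T Λ a ℓ e D nn b h φ) (i : Fin m) {k q p : ℕ}
    (hp : p * (q + 1) = qk (nn k)) {t : ℂ} (ht : ‖t‖ ≤ k) :
    cf (fun t => φ k t i) (q + 1) t ^ p * ((∏ j, ‖h k t - FF ℓ e j (φ k t)‖) *
      ‖Complex.exp (b k * t)‖) ≤ 2 * ∏ j, ‖h k 0 - FF ℓ e j (φ k 0)‖ := by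
  refine le_trans ?_ (hs.bd k t ht)
  apply mul_le_mul_of_nonneg_right _ (mul_nonneg (Finset.prod_nonneg fun _ _ => norm_nonneg _)
    (norm_nonneg _))
  rw [← hp, mul_comm p, pow_mul]
  have h1 : DifferentiableOn ℂ (φ k) (ball t ((k : ℝ) + 1 - ‖t‖)) := (hs.dsc k).dif.mono ball_sub_l
  have h2 : 0 < (k : ℝ) + 1 - ‖t‖ := by linarith
  exact pow_le_pow_left₀ (cf_nonneg _ _) ((cf_le_cv h1 h2 i _).trans (cv_le_sv_l h1 h2 q)) p

theorem comp_diff {L : ℝ} {ψ : ℂ → Fin m → ℂ} (hd : DifferentiableOn ℂ ψ (ball 0 L)) (i : Fin m) :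
    DifferentiableOn ℂ (fun t => ψ t i) (ball 0 L) := (differentiableOn_pi.1 hd) i

theorem FF_conv (hE : En T Λ a v β ℓ e) {Φ : ℂ → Fin m → ℂ}
    (hΦc : CConv (UU : Filter ℕ) univ φ Φ) (j : Fin r) :
    CConv (UU : Filter ℕ) univ (fun k t => FF ℓ e j (φ k t)) (fun t => FF ℓ e j (Φ t)) :=
  fun z hz => ((FF_cont hE j).tendsto _).comp (hΦc z hz)

/-- the limit function is affine -/
theorem SQv.aff (hT : TV T Λ a) (hs : SQv T Λ a ℓ e D nn b h φ) (hE : En T Λ a v β ℓ e)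
    {i : Fin m} {q : ℕ}
    (hm : ∀ᶠ k in (UU : Filter ℕ), ∀ p : ℕ, p * (q + 1) = qk (nn k) →
      1 / 2 ≤ cf (fun t => φ k t i) (q + 1) 0 ^ p)
    {Φ : ℂ → Fin m → ℂ} {H : ℂ → Mat N} (hΦ : Differentiable ℂ Φ)
    (hΦc : CConv (UU : Filter ℕ) univ φ Φ) (hHT : ∀ z, H z ∈ T)
    (hHc : CConv (UU : Filter ℕ) univ h H) :
    ∃ α β : Fin m → ℂ, α ≠ 0 ∧ ∀ t : ℂ, Φ t = t • α + β := by
  have hkm : ∀ᶠ k : ℕ in (UU : Filter ℕ), q ≤ nn k := by
    filter_upwards [uu_ge (q : ℝ)] with k hk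
    exact (by exact_mod_cast hk : q ≤ k).trans (hs.nge k)
  set d : ℕ → ℂ → ℝ := fun k t => ∏ j, ‖h k t - FF ℓ e j (φ k t)‖ with hd
  have hdnn : ∀ k t, 0 ≤ d k t := fun k t => Finset.prod_nonneg fun _ _ => norm_nonneg _
  have hd0 : ∀ k, 0 < d k 0 := hs.d0
  set E : ℕ → ℂ → ℝ := fun k t => ‖Complex.exp (b k * t)‖ with hEdef
  have hEp : ∀ k t, 0 < E k t := fun k t => norm_pos_iff.2 (Complex.exp_ne_zero _)
  have hE0 : ∀ k, E k 0 = 1 := fun k => by
    rw [hEdef]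
    simp only
    rw [mul_zero, Complex.exp_zero, norm_one]
  set φi : ℕ → ℂ → ℂ := fun k t => φ k t i with hφi
  set G : ℕ → ℂ → ℂ := fun k t => Wl nn b φi q k t / (d k 0 : ℝ) with hG
  have hGn : ∀ k t, ‖G k t‖ = cf (φi k) (q + 1) t ^ (qk (nn k) / (q + 1)) * E k t / d k 0 := by
    intro k t
    rw [hG]
    simp only
    rw [norm_div, norm_Wl, Complex.norm_real, Real.norm_of_nonneg (hd0 k).le]
  have hbd : ∀ L : ℝ, ∀ᶠ k in (UU : Filter ℕ), ∀ z ∈ closedBall (0 : ℂ) L,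
      (∏ j, ‖h k z - FF ℓ e j (φ k z)‖) * ‖G k z‖ ≤ 2 := by
    intro L
    filter_upwards [hkm, uu_ge L] with k hk hkL z hz
    have h1 := hs.bW i (qk_dvd hk) ((mem_closedBall_zero_iff.1 hz).trans hkL)
    rw [hGn, mul_div_assoc', div_le_iff₀ (hd0 k)]
    change d k z * _ ≤ _
    change _ * (d k z * E k z) ≤ 2 * d k 0 at h1
    linarith
  have hN0 : ∀ᶠ k in (UU : Filter ℕ), 1 / 2 ≤ d k 0 * ‖G k 0‖ := by
    filter_upwards [hm, hkm] with k h1 h2
    rw [hGn, hE0, mul_one, mul_div_cancel₀ _ (hd0 k).ne']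
    exact h1 _ (qk_dvd h2)
  have hnz := (nz_dich_l (𝓤 := UU) (P := h) (Q := fun j k t => FF ℓ e j (φ k t)) (Pi := H)
    (Qi := fun j t => FF ℓ e j (Φ t)) (G := G) (fun L => (hs.dscL L).mono fun _ h => h.hol)
    (fun j L => (hs.dscL L).mono fun _ h => (FF_dsc hE.lin j h.dif).hol)
    (fun z => hT.sub (hHT z)) (fun j z => hT.sub ((hE.lin j).mem _)) hHc (FF_conv hE hΦc)
    (fun L => by
      filter_upwards [hs.dscL L] with k hk
      have := diff_Wl (nn := nn) (b := b) (φ := φi) (comp_diff hk.dif i) q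
      rw [hG]
      exact this.div_const _) hbd).resolve_left (by
    intro h0
    have h1 := (h0 0).eventually_lt_const (u := 1 / 2) (by norm_num)
    obtain ⟨k, e1, e2⟩ := (h1.and hN0).exists
    change d k 0 * ‖G k 0‖ < 1 / 2 at e1
    linarith)
  have hkey : ∀ᶠ t in codiscrete ℂ, ∀ᶠ k in (UU : Filter ℕ),
      sv (φ k) t ^ (q + 1) ≤ 2 * cf (φi k) (q + 1) t := by
    filter_upwards [hnz] with t ht
    obtain ⟨ε, hε, hεt⟩ : ∃ ε > 0, ∀ᶠ k in (UU : Filter ℕ), ε ≤ d k t * ‖G k t‖ := by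
      by_contra hcon
      push Not at hcon
      apply ht
      rw [Metric.tendsto_nhds]
      intro ε hε
      filter_upwards [hcon ε hε] with k hk
      rw [dist_zero_right, Real.norm_of_nonneg (mul_nonneg (hdnn k t) (norm_nonneg _))]
      exact hk
    filter_upwards [hεt, hkm, uu_ge ‖t‖, uu_ge (2 / ε * (q + 1))] with k e1 e2 e3 e4
    set p := qk (nn k) / (q + 1) with hp
    have hpm : p * (q + 1) = qk (nn k) := qk_dvd e2
    rw [hGn, ← hp, mul_div_assoc', le_div_iff₀ (hd0 k)] at e1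
    have e5 := hs.bd k t e3
    change sv (φ k) t ^ qk (nn k) * (d k t * E k t) ≤ 2 * d k 0 at e5
    have hdt : 0 < d k t := by
      rcases (hdnn k t).eq_or_lt with h0 | h0
      · rw [← h0, zero_mul] at e1
        exact absurd e1 (not_le.2 (mul_pos hε (hd0 k)))
      · exact h0
    have e6 : ε * (sv (φ k) t ^ qk (nn k)) ≤ 2 * cf (φi k) (q + 1) t ^ p := by
      have h1 : ε * (sv (φ k) t ^ qk (nn k)) * (d k t * E k t) ≤
          2 * cf (φi k) (q + 1) t ^ p * (d k t * E k t) := by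
        calc ε * (sv (φ k) t ^ qk (nn k)) * (d k t * E k t) =
              ε * (sv (φ k) t ^ qk (nn k) * (d k t * E k t)) := by ring
          _ ≤ ε * (2 * d k 0) := mul_le_mul_of_nonneg_left e5 hε.le
          _ = 2 * (ε * d k 0) := by ring
          _ ≤ 2 * (d k t * (cf (φi k) (q + 1) t ^ p * E k t)) := by linarith
          _ = _ := by ring
      exact le_of_mul_le_mul_right h1 (mul_pos hdt (hEp k t))
    have e7 : 2 / ε ≤ 2 ^ p := by
      have h1 : (k : ℝ) ≤ (p : ℝ) * ((q : ℝ) + 1) := by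
        have : k ≤ p * (q + 1) := by
          rw [hpm]
          exact (hs.nge k).trans (qk_ge (nn k))
        exact_mod_cast this
      have h2 : (2 / ε) ≤ (p : ℝ) := by
        have h3 : (0 : ℝ) < (q : ℝ) + 1 := by positivity
        exact le_of_mul_le_mul_right (e4.trans h1) h3
      have h4 : (p : ℝ) ≤ 2 ^ p := by
        have := (Nat.lt_two_pow_self (n := p)).le
        exact_mod_cast this
      exact h2.trans h4
    have e8 : (sv (φ k) t ^ (q + 1)) ^ p ≤ (2 * cf (φi k) (q + 1) t) ^ p := by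
      rw [← pow_mul, mul_comm (q + 1), hpm, mul_pow]
      have h1 : sv (φ k) t ^ qk (nn k) ≤ 2 / ε * cf (φi k) (q + 1) t ^ p := by
        rw [div_mul_eq_mul_div, le_div_iff₀ hε]
        linarith
      exact h1.trans (mul_le_mul_of_nonneg_right e7 (pow_nonneg (cf_nonneg _ _) _))
    have hp0 : p ≠ 0 := by
      intro h0
      rw [h0, zero_mul] at hpm
      unfold qk at hpm
      have := Nat.factorial_pos (nn k + 1)
      omega
    exact le_of_pow_le_pow_left₀ hp0 (mul_nonneg (by norm_num) (cf_nonneg _ _)) e8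
  set Φi : ℂ → ℂ := fun t => Φ t i with hΦi
  have hΦid : Differentiable ℂ Φi := (differentiable_pi.1 hΦ) i
  have hΦic : CConv (UU : Filter ℕ) univ φi Φi := cconv_apply hΦc i
  have hdi : ∀ L : ℝ, ∀ᶠ k in (UU : Filter ℕ), DifferentiableOn ℂ (φi k) (ball 0 L) :=
    fun L => (hs.dscL L).mono fun _ h => comp_diff h.dif i
  have hlimcf : ∀ t, Tendsto (fun k => 2 * cf (φi k) (q + 1) t) UU (𝓝 (2 * cf Φi (q + 1) t)) :=
    fun t => ((it_lim_l hdi hΦic (q + 1) t).norm.div_const _).const_mul 2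
  have hcomp : ∀ (j : Fin m) (t : ℂ), Tendsto (fun k => deriv (φ k) t j) UU (𝓝 (deriv Φ t j)) := by
    intro j t
    have h1 := it_lim_l (φ := fun k t => φ k t j) (Φ := fun t => Φ t j)
      (fun L => (hs.dscL L).mono fun _ h => comp_diff h.dif j) (cconv_apply hΦc j) 1 t
    simp only [iteratedDeriv_one] at h1
    rw [deriv_comp_pi (hΦ t)] at h1
    refine h1.congr' ?_
    filter_upwards [hs.dscL (‖t‖ + 1)] with k hk
    exact deriv_comp_pi (hk.dif.differentiableAt (isOpen_ball.mem_nhds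
      (mem_ball_zero_iff.2 (by linarith)))) j
  have hlimd : ∀ t, Tendsto (fun k => ‖deriv (φ k) t‖ ^ (q + 1)) UU (𝓝 (‖deriv Φ t‖ ^ (q + 1))) :=
    fun t => (tendsto_pi_nhds.2 fun j => hcomp j t).norm.pow _
  have hlow : ∀ t, ∀ᶠ k in (UU : Filter ℕ), (1 / (4 * (1 + ‖t‖))) ≤ sv (φ k) t := by
    intro t
    filter_upwards [uu_ge (‖t‖ + 4 * (‖t‖ + 1))] with k hk
    rw [add_comm 1 ‖t‖]
    exact sv_low (hs.dsc k).dif (hs.s0 k) (norm_nonneg t) (by linarith) le_rfl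
  have hgen : ∀ᶠ t in codiscrete ℂ, ‖deriv Φ t‖ ^ (q + 1) ≤ 2 * cf Φi (q + 1) t ∧
      (1 / (4 * (1 + ‖t‖))) ^ (q + 1) ≤ 2 * cf Φi (q + 1) t := by
    filter_upwards [hkey] with t ht
    constructor
    · refine le_of_tendsto_of_tendsto (hlimd t) (hlimcf t) ?_
      filter_upwards [ht, hs.dscL (‖t‖ + 1)] with k hk hd
      exact (pow_le_pow_left₀ (norm_nonneg _) (deriv_le_sv_l (hd.dif.mono ball_sub_l)
        (by linarith)) _).trans hk
    · refine ge_of_tendsto (hlimcf t) ?_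
      filter_upwards [ht, hlow t] with k hk hl
      exact (pow_le_pow_left₀ (by positivity) hl _).trans hk
  have hccf : Continuous fun t => 2 * cf Φi (q + 1) t :=
    (((diff_it hΦid (q + 1)).continuous.norm).div_const _).const_mul 2
  have hder : Differentiable ℂ (deriv Φ) := fun z => by
    have h1 : AnalyticAt ℂ Φ z := by
      rw [Complex.analyticAt_iff_eventually_differentiableAt]
      exact Eventually.of_forall hΦ
    exact h1.deriv.differentiableAt
  have hcd : Continuous fun t => ‖deriv Φ t‖ ^ (q + 1) := hder.continuous.norm.pow _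
  have hcl : Continuous fun t : ℂ => (1 / (4 * (1 + ‖t‖))) ^ (q + 1) := by
    apply Continuous.pow
    apply Continuous.div (by fun_prop) (by fun_prop)
    intro t
    positivity
  have hb1 : ∀ t, ‖deriv Φ t‖ ^ (q + 1) ≤ 2 * cf Φi (q + 1) t := by
    intro t
    refine le_of_tendsto_of_tendsto (hcd.continuousAt.mono_left nhdsWithin_le_nhds)
      (hccf.continuousAt.mono_left nhdsWithin_le_nhds) (f := fun t => ‖deriv Φ t‖ ^ (q + 1))
      (g := fun t => 2 * cf Φi (q + 1) t) (b := 𝓝[≠] t) ?_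
    filter_upwards [codis_ev hgen t] with z hz
    exact hz.1
  obtain ⟨α0, β0, hα0, hΦa⟩ := affine_of hΦid (m := q) (fun t => by
    refine le_trans (pow_le_pow_left₀ (norm_nonneg _) ?_ _) (hb1 t)
    rw [hΦi, deriv_comp_pi (hΦ t)]
    exact norm_le_pi_norm _ i) (fun t => by
    refine le_of_tendsto_of_tendsto (hcl.continuousAt.mono_left nhdsWithin_le_nhds)
      (hccf.continuousAt.mono_left nhdsWithin_le_nhds)
      (f := fun t : ℂ => (1 / (4 * (1 + ‖t‖))) ^ (q + 1))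
      (g := fun t => 2 * cf Φi (q + 1) t) (b := 𝓝[≠] t) ?_
    filter_upwards [codis_ev hgen t] with z hz
    exact hz.2)
  -- the coefficient is constant
  have hdΦ : deriv Φi = fun _ => α0 := by
    have h1 : Φi = fun t => α0 * t + β0 := funext hΦa
    rw [h1]
    funext t
    have := ((hasDerivAt_id t).const_mul α0).add_const β0
    rw [mul_one] at this
    exact this.deriv
  have hcfb : ∀ t, cf Φi (q + 1) t ≤ ‖α0‖ := by
    intro t
    unfold cf
    rw [iteratedDeriv_succ', hdΦ, iteratedDeriv_const]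
    split_ifs with h0
    · rw [h0, zero_add, Nat.factorial_one, Nat.cast_one, div_one]
    · rw [norm_zero, zero_div]
      exact norm_nonneg _
  have hbb : ∀ t, ‖deriv Φ t‖ ≤ max 1 (2 * ‖α0‖) := by
    intro t
    by_contra hc
    push Not at hc
    have h1 : 1 < ‖deriv Φ t‖ := (le_max_left _ _).trans_lt hc
    have h2 : 2 * ‖α0‖ < ‖deriv Φ t‖ := (le_max_right _ _).trans_lt hc
    have h3 : ‖deriv Φ t‖ ≤ ‖deriv Φ t‖ ^ (q + 1) := le_self_pow₀ h1.le (Nat.succ_ne_zero q)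
    linarith [hb1 t, hcfb t]
  have hconst : ∀ z, deriv Φ z = deriv Φ 0 := fun z => by
    apply hder.apply_eq_apply_of_bounded
    rw [isBounded_iff_forall_norm_le]
    refine ⟨max 1 (2 * ‖α0‖), ?_⟩
    rintro _ ⟨w, rfl⟩
    exact hbb w
  refine ⟨deriv Φ 0, Φ 0, ?_, fun t => ?_⟩
  · intro h0
    apply hα0
    have h1 : deriv Φi 0 = deriv Φ 0 i := deriv_comp_pi (hΦ 0) i
    rw [hdΦ, h0] at h1
    exact h1
  · have h1 : ∀ z, HasDerivAt (fun z => Φ z - z • deriv Φ 0) 0 z := by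
      intro z
      have h2 := (hΦ z).hasDerivAt.sub ((hasDerivAt_id z).smul_const (deriv Φ 0))
      rw [one_smul, hconst z, sub_self] at h2
      exact h2
    have h2 := is_const_of_deriv_eq_zero (fun z => (h1 z).differentiableAt)
      (fun z => (h1 z).deriv) t 0
    simp only [zero_smul, sub_zero] at h2
    rw [← h2]
    abel

end Pool.Agent.N154.TB
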