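import Pool.Agent.N154.TB.Main

/-! There are no rescaled sequences of discs, for abelian varieties. -/

set_option autoImplicit false

open Filter Topology Metric Set

namespace Pool.Agent.N154.TB

open Pool.Agent.Y190.OP Pool.Agent.N155
open Pool.Agent.N154.GG (holP_comp hp_cont UU uu_ge qk qk_ge qk_dvd cf cf_nonneg norm_phi_le Wl
  norm_Wl diff_Wl CConv.unif locmax_l KN ball_sub_l)

variable {N m : ℕ} {T : Set (Mat N)} {Λ : AddSubgroup (Fin m → ℂ)} {a : Mat N → Fin m → ℂ}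
  {κ : Type} {η : κ → (Fin N → ℂ) → (Fin N → ℂ) → (Fin N → ℂ) → ℂ}
  {r : ℕ} {v β : Fin r → Fin m → ℂ} {ℓ : Fin r → ((Fin m → ℂ) →L[ℂ] ℂ)}
  {e : Fin r → ℂ → Mat N} {D C : ℝ} {nn : ℕ → ℕ} {b : ℕ → ℂ}
  {h : ℕ → ℂ → Mat N} {φ : ℕ → ℂ → Fin m → ℂ}

/-- the product of the distances to the other comparison maps, along the sequence -/
noncomputable def Ek (ℓ : Fin r → ((Fin m → ℂ) →L[ℂ] ℂ)) (e : Fin r → ℂ → Mat N)
    (h : ℕ → ℂ → Mat N) (φ : ℕ → ℂ → Fin m → ℂ) (i : Fin r) (k : ℕ) (t : ℂ) : ℝ :=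
  ∏ j ∈ Finset.univ.erase i, ‖h k t - FF ℓ e j (φ k t)‖

theorem Ek_conv (hE : En T Λ a v β ℓ e) {Φ : ℂ → Fin m → ℂ} {H : ℂ → Mat N} {i : Fin r}
    (hΦc : CConv (UU : Filter ℕ) univ φ Φ) (hHc : CConv (UU : Filter ℕ) univ h H)
    (hH : ∀ z, H z = FF ℓ e i (Φ z)) :
    CConv (UU : Filter ℕ) univ (Ek ℓ e h φ i) (fun t => Ev ℓ e i (Φ t)) := by
  intro z _
  unfold Ek Ev
  refine tendsto_finsetProd _ fun j _ => ?_
  have h1 := hHc z (mem_univ z)
  rw [hH z] at h1
  exact (h1.sub (FF_conv hE hΦc j z (mem_univ z))).norm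

theorem Ek_le (hT : TV T Λ a) (hs : SQv T Λ a ℓ e D nn b h φ) (hE : En T Λ a v β ℓ e)
    (i : Fin r) (k : ℕ) : Ek ℓ e h φ i k 0 ≤ 2 ^ r := by
  have h0B : (0 : ℂ) ∈ ball (0 : ℂ) ((k : ℝ) + 1) := mem_ball_self (by positivity)
  unfold Ek
  calc ∏ j ∈ Finset.univ.erase i, ‖h k 0 - FF ℓ e j (φ k 0)‖ ≤
        ∏ _j ∈ Finset.univ.erase i, (2 : ℝ) := by
        refine Finset.prod_le_prod (fun _ _ => norm_nonneg _) fun j _ => ?_
        have := (norm_sub_le (h k 0) (FF ℓ e j (φ k 0))).trans (add_le_add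
          (norm_phi_le (hT.sub ((hs.dsc k).mem 0 h0B)))
          (norm_phi_le (hT.sub ((hE.lin j).mem _))))
        linarith
    _ = 2 ^ (Finset.univ.erase i).card := by rw [Finset.prod_const]
    _ ≤ 2 ^ r := by
        apply pow_le_pow_right₀ (by norm_num)
        refine (Finset.card_le_univ _).trans ?_
        rw [Fintype.card_fin]

theorem Lin.lip {g : ℂ → Mat N} {α' β' : Fin m → ℂ} (h : Lin T Λ a g α' β') (hC0 : 0 < C)
    (hC : GE T Λ a C) (z w : ℂ) : ‖g z - g w‖ ≤ C * ‖α'‖ * ‖z - w‖ :=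
  convex_univ.norm_image_sub_le_of_norm_fderiv_le
    (fun x _ => h.hol.differentiableAt (mem_univ x)) (fun x _ => h.grad hC0 hC x)
    (mem_univ w) (mem_univ z)

/-- **No rescaled sequences** -/
theorem SQv.false (hT : TV T Λ a) (hG : GV T Λ a η) (hs : SQv T Λ a ℓ e D nn b h φ)
    (hE : En T Λ a v β ℓ e) (hC0 : 0 < C) (hC : GE T Λ a C) (hF : GF ℓ e C) : False := by
  obtain ⟨ii, q, hm⟩ := hs.coef hE.lin hC0 hC hF
  obtain ⟨Φ, H, hΦ, hΦc, hH, hHT, hHc, hHo⟩ := hs.lim hT hE.lin hC0 hC hF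
  obtain ⟨α, β', hα, hΦa⟩ := hs.aff hT hE hm hΦ hΦc hHT hHc
  have hΦa' : Φ = fun t : ℂ => t • α + β' := funext hΦa
  -- the limit is one of the curves
  have hHL : Lin T Λ a H α β' := ⟨hH, hHT, by rw [← hΦa']; exact hHo⟩
  obtain ⟨i, c, hc, hαc, hHe'⟩ := hE.surj H α β' hα hHL
  have hHe : ∀ t, H t = FF ℓ e i (Φ t) := fun t => by rw [hHe', hΦa]
  set C1 : ℝ := C * ‖v i‖ with hC1
  have hC10 : 0 ≤ C1 := by positivity
  set ρ0 : ℝ := 1 / (8 * (N + 1) * (C1 + 1)) with hρ0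
  have hρ0pos : 0 < ρ0 := by positivity
  set η0 : ℝ := 1 / (8 * (N + 1)) with hη0
  have hη0pos : 0 < η0 := by positivity
  obtain ⟨ε, hε, hcirc⟩ := circles_v hT hE hρ0pos
  have hkm : ∀ᶠ k : ℕ in (UU : Filter ℕ), q ≤ nn k := by
    filter_upwards [uu_ge (q : ℝ)] with k hk
    exact (by exact_mod_cast hk : q ≤ k).trans (hs.nge k)
  have hprod : ∀ k t, ∏ j, ‖h k t - FF ℓ e j (φ k t)‖ =
      ‖h k t - FF ℓ e i (φ k t)‖ * Ek ℓ e h φ i k t := by
    intro k t
    exact (Finset.mul_prod_erase Finset.univ (fun j => ‖h k t - FF ℓ e j (φ k t)‖)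
      (Finset.mem_univ i)).symm
  have hx0 : ∀ k, 0 < ‖h k 0 - FF ℓ e i (φ k 0)‖ := by
    intro k
    have h1 := hs.d0 k
    rw [hprod] at h1
    rcases (norm_nonneg (h k 0 - FF ℓ e i (φ k 0))).eq_or_lt with h2 | h2
    · rw [← h2, zero_mul] at h1
      exact absurd h1 (lt_irrefl _)
    · exact h2
  set φi : ℕ → ℂ → ℂ := fun k t => φ k t ii with hφi
  set wt : ℕ → ℂ → ℂ := fun k t => 2 * Wl nn b φi q k t / (‖h k 0 - FF ℓ e i (φ k 0)‖ : ℝ) with hwt
  have hwtn : ∀ k t, ‖wt k t‖ = 2 * ‖Wl nn b φi q k t‖ / ‖h k 0 - FF ℓ e i (φ k 0)‖ := by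
    intro k t
    rw [hwt]
    simp only
    rw [norm_div, norm_mul, Complex.norm_real, norm_norm]
    norm_num
  have hwtd : ∀ L : ℝ, ∀ᶠ k in (UU : Filter ℕ), DifferentiableOn ℂ (wt k) (ball 0 L) := by
    intro L
    filter_upwards [hs.dscL L] with k hk
    have := diff_Wl (nn := nn) (b := b) (φ := φi) (comp_diff hk.dif ii) q
    rw [hwt]
    exact (this.const_mul 2).div_const _
  have hosc : 2 * N * (C1 * ρ0 + 2 * η0) ≤ 1 := by
    rw [hρ0, hη0]
    have h1 : C1 * (1 / (8 * (N + 1) * (C1 + 1))) ≤ 1 / (8 * ((N : ℝ) + 1)) := by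
      rw [mul_one_div, div_le_div_iff₀ (by positivity) (by positivity)]
      have : (0 : ℝ) ≤ N := Nat.cast_nonneg N
      nlinarith
    have h2 : 2 * (N : ℝ) * (1 / (8 * ((N : ℝ) + 1)) + 2 * (1 / (8 * ((N : ℝ) + 1)))) ≤ 1 := by
      have : 2 * (N : ℝ) * (1 / (8 * ((N : ℝ) + 1)) + 2 * (1 / (8 * ((N : ℝ) + 1)))) =
          6 * N / (8 * (N + 1)) := by
        field_simp
        ring
      rw [this, div_le_one (by positivity)]
      have : (0 : ℝ) ≤ N := Nat.cast_nonneg N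
      linarith
    refine le_trans ?_ h2
    gcongr
  have hcn : 0 < ‖c‖ := norm_pos_iff.2 hc
  have hℓΦ : ∀ t z, ℓ i (Φ t) - ℓ i (Φ z) = c * (t - z) := by
    intro t z
    rw [hΦa t, hΦa z, hαc]
    simp only [map_add, map_smul, hE.one i, smul_eq_mul]
    ring
  -- the uniform bound
  have hbound : ∀ L : ℝ, ∀ᶠ k in (UU : Filter ℕ), ∀ z ∈ closedBall (0 : ℂ) L,
      ‖h k z - FF ℓ e i (φ k z)‖ * ‖wt k z‖ ≤ KN N ^ 1 * (KN N ^ 1 * (8 * 2 ^ r / ε)) := by
    intro L
    set L' : ℝ := |L| + ρ0 / ‖c‖ with hL'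
    filter_upwards [hkm, uu_ge L', hs.dscL (L' + 1),
      CConv.unif (Ek_conv hE hΦc hHc hHe) (isCompact_closedBall (0 : ℂ) L') (half_pos hε),
      CConv.unif hHc (isCompact_closedBall (0 : ℂ) L') hη0pos,
      CConv.unif (FF_conv hE hΦc i) (isCompact_closedBall (0 : ℂ) L') hη0pos]
      with k hk hkL hdk hEk hHk hek z hz
    obtain ⟨ρ, hρ, hρρ, hcir⟩ := hcirc i (Φ z)
    have hz' : ‖z‖ ≤ |L| := (mem_closedBall_zero_iff.1 hz).trans (le_abs_self L)
    have hρ' : 0 < ρ / ‖c‖ := by positivity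
    have hsub : ∀ t ∈ closedBall z (ρ / ‖c‖), t ∈ closedBall (0 : ℂ) L' := by
      intro t ht
      rw [mem_closedBall, dist_eq_norm] at ht
      rw [mem_closedBall_zero_iff, hL']
      have h1 := norm_add_le (t - z) z
      rw [sub_add_cancel] at h1
      have h2 : ρ / ‖c‖ ≤ ρ0 / ‖c‖ := by gcongr
      linarith
    have hz'' : z ∈ closedBall (0 : ℂ) L' := hsub z (mem_closedBall_self hρ'.le)
    have hlip : ∀ t ∈ closedBall z (ρ / ‖c‖), ‖FF ℓ e i (Φ t) - FF ℓ e i (Φ z)‖ ≤ C1 * ρ0 := by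
      intro t ht
      rw [mem_closedBall, dist_eq_norm] at ht
      refine ((hE.lin i).lip hC0 hC _ _).trans (mul_le_mul_of_nonneg_left ?_ hC10)
      rw [hℓΦ, norm_mul]
      rw [le_div_iff₀ hcn] at ht
      linarith
    have hoscX : ∀ {X : ℂ → Mat N}, (∀ t ∈ closedBall (0 : ℂ) L', ‖X t - FF ℓ e i (Φ t)‖ < η0) →
        ∀ t ∈ closedBall z (ρ / ‖c‖), 2 * N * ‖X t - X z‖ ≤ 1 := by
      intro X hX t ht
      have h1 := hX t (hsub t ht)
      have h2 := hX z hz''
      have h3 := hlip t ht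
      have h4 : ‖X t - X z‖ ≤ C1 * ρ0 + 2 * η0 := by
        have e1 : X t - X z = (X t - FF ℓ e i (Φ t)) + (FF ℓ e i (Φ t) - FF ℓ e i (Φ z)) -
            (X z - FF ℓ e i (Φ z)) := by
          abel
        rw [e1]
        refine (norm_sub_le _ _).trans ?_
        have := norm_add_le (X t - FF ℓ e i (Φ t)) (FF ℓ e i (Φ t) - FF ℓ e i (Φ z))
        linarith
      exact (mul_le_mul_of_nonneg_left h4 (by positivity)).trans hosc
    have h1 := locmax_l (r := 1) (P := h k) (Q := fun _ t => FF ℓ e i (φ k t)) hdk.hol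
      (fun _ => (FF_dsc hE.lin i hdk.dif).hol) hρ' (fun t ht => by
        have := mem_closedBall_zero_iff.1 (hsub t ht)
        exact mem_ball_zero_iff.2 (by linarith)) (hoscX (X := h k) (fun t ht => by
        rw [← hHe]
        exact hHk t ht)) (fun _ => hoscX (X := fun t => FF ℓ e i (φ k t)) hek) (G := wt k)
      (fun t ht => by
        have h3 := mem_closedBall_zero_iff.1 (hsub t ht)
        have h4 : DifferentiableOn ℂ (wt k) (ball 0 (L' + 1)) := by
          have := diff_Wl (nn := nn) (b := b) (φ := φi) (comp_diff hdk.dif ii) q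
          rw [hwt]
          exact (this.const_mul 2).div_const _
        exact h4.differentiableAt (isOpen_ball.mem_nhds (mem_ball_zero_iff.2 (by linarith))))
      (B := 8 * 2 ^ r / ε) (by
        intro t ht
        have ht' := hsub t (sphere_subset_closedBall ht)
        have hEt : ε / 2 ≤ Ek ℓ e h φ i k t := by
          have h2 := hEk t ht'
          have hΦt : Φ t = (c * (t - z)) • v i + Φ z := by
            rw [hΦa t, hΦa z, hαc, mul_sub, sub_smul, smul_smul, smul_smul, mul_comm t c,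
              mul_comm z c]
            abel
          have h3 := hcir (c * (t - z)) (by
            rw [mem_sphere_zero_iff_norm, norm_mul]
            rw [mem_sphere, dist_eq_norm] at ht
            rw [ht]
            field_simp)
          rw [← hΦt] at h3
          rw [Real.norm_eq_abs, abs_lt] at h2
          linarith [h2.1]
        have hb := hs.bW ii (qk_dvd hk) ((mem_closedBall_zero_iff.1 ht').trans hkL)
        have hb' : ‖Wl nn b φi q k t‖ * (∏ j, ‖h k t - FF ℓ e j (φ k t)‖) ≤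
            2 * ∏ j, ‖h k 0 - FF ℓ e j (φ k 0)‖ := by
          rw [norm_Wl]
          refine le_trans (le_of_eq ?_) hb
          ring
        rw [hprod, hprod] at hb'
        have hE0 := Ek_le hT hs hE i k
        simp only [Finset.univ_unique, Finset.prod_singleton]
        rw [hwtn, ← mul_div_assoc, div_le_div_iff₀ (hx0 k) hε]
        set x := ‖h k t - FF ℓ e i (φ k t)‖ with hx
        set x0 := ‖h k 0 - FF ℓ e i (φ k 0)‖ with hx0def
        have hxn : 0 ≤ x := norm_nonneg _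
        have hWn : 0 ≤ ‖Wl nn b φi q k t‖ := norm_nonneg _
        have h2 : ‖Wl nn b φi q k t‖ * (x * (ε / 2)) ≤ 2 * (x0 * 2 ^ r) := by
          calc ‖Wl nn b φi q k t‖ * (x * (ε / 2)) ≤
                ‖Wl nn b φi q k t‖ * (x * Ek ℓ e h φ i k t) := by gcongr
            _ ≤ 2 * (x0 * Ek ℓ e h φ i k 0) := hb'
            _ ≤ 2 * (x0 * 2 ^ r) := by
              have := (hx0 k).le
              gcongr
        linarith)
    simp only [Finset.univ_unique, Finset.prod_singleton] at h1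
    exact h1
  have hℓα : ℓ i α = c := by rw [hαc, map_smul, hE.one i, smul_eq_mul, mul_one]
  have hRV : RV T Λ a UU H (ℓ i) α β' (C * ‖α‖) (KN N ^ 1 * (KN N ^ 1 * (8 * 2 ^ r / ε)))
      (fun k t => FF ℓ e i (φ k t)) h (fun k t => ℓ i (φ k t) • v i + β i) φ wt :=
    { hH := hH
      HT := hHT
      Hov := hHL.ov
      HB := fun z => hHL.grad hC0 hC z
      hα := by rw [hℓα]; exact hc
      hP := fun L => (hs.dscL L).mono fun _ h => FF_dsc hE.lin i h.dif
      hQ := hs.dscL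
      eq := fun t => Eventually.of_forall fun n => by
        simp only [map_add, map_smul, hE.one i, hE.zero i, smul_eq_mul, mul_one, add_zero]
      lim := fun t => by
        have h1 := hΦc.pointwise (mem_univ t)
        have h2 := ((ℓ i).continuous.tendsto _).comp h1
        exact ⟨_, h1.sub ((h2.smul_const (v i)).add_const (β i))⟩
      wtd := hwtd
      cP := by
        have : (fun z => FF ℓ e i (Φ z)) = H := funext fun z => (hHe z).symm
        rw [← this]
        exact FF_conv hE hΦc i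
      cQ := hHc
      bd := hbound }
  refine rigid_v hT hG hRV ?_
  filter_upwards [hm, hkm] with k h1 h2
  have h3 := h1 _ (qk_dvd h2)
  rw [hwtn, mul_div_cancel₀ _ (hx0 k).ne', norm_Wl, mul_zero, Complex.exp_zero, norm_one,
    mul_one]
  linarith

end Pool.Agent.N154.TB
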