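import Pool.Agent.N154.TB.Ent
import Pool.Agent.N154.DD.Pic

/-! Periodic curves on a half plane: the lift and its scale. -/

set_option autoImplicit false

open Filter Topology Metric Set

namespace Pool.Agent.N154.TB

open Pool.Agent.Y190.OP Pool.Agent.N155
open Pool.Agent.N154.GG (holP_comp_l HP tpi tpi_re tpi_im isOpen_HP per_int exists_rep convex_HP
  ball_sub_HP add_tpi_mem kwack weight_zero holP_dich_on qk)

variable {N m : ℕ} {T : Set (Mat N)} {Λ : AddSubgroup (Fin m → ℂ)} {a : Mat N → Fin m → ℂ}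

/-- a periodic curve on the half plane, over a function -/
structure PD (T : Set (Mat N)) (Λ : AddSubgroup (Fin m → ℂ)) (a : Mat N → Fin m → ℂ) (P : ℂ → Mat N) (φ : ℂ → Fin m → ℂ) :
    Prop where
  hol : HolP HP P
  mem : ∀ z ∈ HP, P z ∈ T
  per : ∀ z ∈ HP, P (z + tpi) = P z
  dif : DifferentiableOn ℂ φ HP
  ov : OverOn Λ a HP P φ

/-- existence of the lift -/
theorem exists_PD (hT : TV T Λ a) {P : ℂ → Mat N} (hP : HolP HP P) (hPT : ∀ z ∈ HP, P z ∈ T)
    (hper : ∀ z ∈ HP, P (z + tpi) = P z) : ∃ φ : ℂ → Fin m → ℂ, PD T Λ a P φ := by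
  have hm1 : MapsTo (fun z : ℂ => (z - 1) / (z + 1)) (ball 0 1) HP := by
    intro z hz
    rw [mem_ball_zero_iff] at hz
    have hz1 : z + 1 ≠ 0 := by
      intro h
      have : z = -1 := by linear_combination h
      rw [this, norm_neg, norm_one] at hz
      exact lt_irrefl _ hz
    change ((z - 1) / (z + 1)).re < 0
    have h2 : 0 < Complex.normSq (z + 1) := Complex.normSq_pos.2 hz1
    have h3 : ((z - 1) / (z + 1)).re = (Complex.normSq z - 1) / Complex.normSq (z + 1) := by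
      rw [Complex.div_re]
      simp only [Complex.sub_re, Complex.add_re, Complex.one_re, Complex.sub_im, Complex.add_im,
        Complex.one_im, sub_zero, add_zero]
      rw [← add_div]
      congr 1
      rw [Complex.normSq_apply]
      ring
    rw [h3]
    apply div_neg_of_neg_of_pos _ h2
    rw [Complex.normSq_eq_norm_sq]
    nlinarith [norm_nonneg z]
  have hm2 : MapsTo (fun w : ℂ => (1 + w) / (1 - w)) HP (ball 0 1) := by
    intro w hw
    have hw' : w.re < 0 := hw
    have hw1 : 1 - w ≠ 0 := by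
      intro h
      have : w = 1 := by linear_combination -h
      rw [this, Complex.one_re] at hw'
      linarith
    rw [mem_ball_zero_iff, norm_div, div_lt_one (norm_pos_iff.2 hw1)]
    rw [← sq_lt_sq₀ (norm_nonneg _) (norm_nonneg _), ← Complex.normSq_eq_norm_sq,
      ← Complex.normSq_eq_norm_sq, Complex.normSq_apply, Complex.normSq_apply]
    simp only [Complex.sub_re, Complex.add_re, Complex.one_re, Complex.sub_im, Complex.add_im,
      Complex.one_im, zero_add, zero_sub]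
    nlinarith
  have hd1 : DifferentiableOn ℂ (fun z : ℂ => (z - 1) / (z + 1)) (ball 0 1) := by
    intro z hz
    have hz1 : z + 1 ≠ 0 := by
      intro h
      have : z = -1 := by linear_combination h
      rw [mem_ball_zero_iff, this, norm_neg, norm_one] at hz
      exact lt_irrefl _ hz
    exact ((show DifferentiableAt ℂ (fun z : ℂ => z - 1) z by fun_prop).div
      (show DifferentiableAt ℂ (fun z : ℂ => z + 1) z by fun_prop) hz1).differentiableWithinAt
  have hd2 : DifferentiableOn ℂ (fun w : ℂ => (1 + w) / (1 - w)) HP := by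
    intro w hw
    have hw' : w.re < 0 := hw
    have hw1 : 1 - w ≠ 0 := by
      intro h
      have : w = 1 := by linear_combination -h
      rw [this, Complex.one_re] at hw'
      linarith
    exact ((show DifferentiableAt ℂ (fun w : ℂ => 1 + w) w by fun_prop).div
      (show DifferentiableAt ℂ (fun w : ℂ => 1 - w) w by fun_prop) hw1).differentiableWithinAt
  have hinv : ∀ w ∈ HP, ((1 + w) / (1 - w) - 1) / ((1 + w) / (1 - w) + 1) = w := by
    intro w hw
    have hw' : w.re < 0 := hw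
    have hw1 : 1 - w ≠ 0 := by
      intro h
      have : w = 1 := by linear_combination -h
      rw [this, Complex.one_re] at hw'
      linarith
    have h2 : (1 + w) / (1 - w) + 1 = 2 / (1 - w) := by
      field_simp
      ring
    have h3 : (1 + w) / (1 - w) - 1 = 2 * w / (1 - w) := by
      field_simp
      ring
    rw [h2, h3]
    field_simp
  obtain ⟨ψ, hψ1, hψ2⟩ := hT.exists_lift_ball (c := 0) (R := 1)
    (holP_comp_l hP hd1 isOpen_ball hm1) (fun z hz => hPT _ (hm1 hz))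
  refine ⟨fun w => ψ ((1 + w) / (1 - w)), hP, hPT, hper, hψ1.comp hd2 hm2, fun w hw => ?_⟩
  have := hψ2 _ (hm2 hw)
  simp only at this
  rw [hinv w hw] at this
  exact this

variable {P : ℂ → Mat N} {φ : ℂ → Fin m → ℂ}

theorem PD.dsc (h : PD T Λ a P φ) (z : ℂ) : Dsc T Λ a z (-z.re) P φ where
  hol := h.hol.mono ball_sub_HP
  mem := fun w hw => h.mem w (ball_sub_HP hw)
  dif := h.dif.mono ball_sub_HP
  ov := fun w hw => h.ov w (ball_sub_HP hw)

theorem PD.diffAt (h : PD T Λ a P φ) {z : ℂ} (hz : z ∈ HP) : DifferentiableAt ℂ φ z :=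
  h.dif.differentiableAt (isOpen_HP.mem_nhds hz)

theorem PD.lat (h : PD T Λ a P φ) {z : ℂ} (hz : z ∈ HP) : φ (z + tpi) - φ z ∈ Λ := by
  have h1 := h.ov _ (add_tpi_mem hz)
  rw [h.per z hz] at h1
  have h2 := Λ.sub_mem h1 (h.ov z hz)
  have e : φ (z + tpi) - φ z = φ (z + tpi) - a (P z) - (φ z - a (P z)) := by ring
  rw [e]
  exact h2

theorem PD.iter_per (hT : TV T Λ a) (h : PD T Λ a P φ) {z : ℂ} (hz : z ∈ HP) (q : ℕ) :
    iteratedDeriv (q + 1) φ (z + tpi) = iteratedDeriv (q + 1) φ z := by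
  have h1 : (fun w => φ (w + tpi)) =ᶠ[𝓝 z] fun w => φ w + (φ (z + tpi) - φ z) := by
    have hc : ContinuousAt (fun w => φ (w + tpi) - φ w) z := by
      have e1 : ContinuousAt φ (z + tpi) := (h.diffAt (add_tpi_mem hz)).continuousAt
      have e2 : ContinuousAt (fun w : ℂ => w + tpi) z := by fun_prop
      exact (ContinuousAt.comp (f := fun w : ℂ => w + tpi) e1 e2).sub (h.diffAt hz).continuousAt
    have h2 := hT.ev_const hc (by
      filter_upwards [isOpen_HP.mem_nhds hz] with w hw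
      exact h.lat hw)
    filter_upwards [h2] with w hw
    linear_combination hw
  have h2 : iteratedDeriv (q + 1) (fun w => φ (w + tpi)) z =
      iteratedDeriv (q + 1) φ (z + tpi) := by
    have := iteratedDeriv_comp_add_const (q + 1) φ tpi
    exact congrFun this z
  have h3 : iteratedDeriv (q + 1) (fun w => φ w + (φ (z + tpi) - φ z)) z =
      iteratedDeriv (q + 1) φ z := by
    rw [iteratedDeriv_succ', iteratedDeriv_succ']
    congr 1
    funext w
    rw [deriv_add_const]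
  rw [← h2, ← h3]
  exact h1.iteratedDeriv_eq (q + 1)

theorem PD.cv_per (hT : TV T Λ a) (h : PD T Λ a P φ) {z : ℂ} (hz : z ∈ HP) (q : ℕ) :
    cv φ (q + 1) (z + tpi) = cv φ (q + 1) z := by
  unfold cv
  rw [h.iter_per hT hz q]

theorem PD.sv_per (hT : TV T Λ a) (h : PD T Λ a P φ) {z : ℂ} (hz : z ∈ HP) :
    sv φ (z + tpi) = sv φ z := by
  unfold sv
  congr 1
  funext q
  rw [h.cv_per hT hz q]

/-- the maximum principle in a strip -/
theorem strip_max {g : ℂ → Fin m → ℂ} (hg : DifferentiableOn ℂ g HP)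
    (hper : ∀ z ∈ HP, g (z + tpi) = g z) {x1 x2 C : ℝ} (h12 : x1 < x2) (h2 : x2 < 0)
    (hx1 : ∀ z : ℂ, z.re = x1 → ‖g z‖ ≤ C) (hx2 : ∀ z : ℂ, z.re = x2 → ‖g z‖ ≤ C) {z : ℂ}
    (hz1 : x1 ≤ z.re) (hz2 : z.re ≤ x2) : ‖g z‖ ≤ C := by
  have hcl : closure (Complex.re ⁻¹' Ioo x1 x2) ⊆ HP := by
    refine (closure_minimal (t := Complex.re ⁻¹' Icc x1 x2) (fun w hw => ⟨hw.1.le, hw.2.le⟩)
      (isClosed_Icc.preimage Complex.continuous_re)).trans ?_
    intro w hw
    exact lt_of_le_of_lt hw.2 h2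
  refine PhragmenLindelof.vertical_strip (f := g) (a := x1) (b := x2) ?_ ?_ hx1 hx2 hz1 hz2
  · exact ⟨hg.mono (subset_closure.trans hcl), hg.continuousOn.mono hcl⟩
  · refine ⟨0, div_pos Real.pi_pos (by linarith), 0, ?_⟩
    -- bounded
    have hc0 : IsCompact (Icc x1 x2 ×ˢ Icc (0 : ℝ) (2 * Real.pi)) := isCompact_Icc.prod isCompact_Icc
    have h1 : ContinuousOn (fun p : ℝ × ℝ => ‖g ((p.1 : ℂ) + p.2 * Complex.I)‖)
        (Icc x1 x2 ×ˢ Icc (0 : ℝ) (2 * Real.pi)) := by
      have h3 : ContinuousOn (fun p : ℝ × ℝ => (p.1 : ℂ) + p.2 * Complex.I)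
        (Icc x1 x2 ×ˢ Icc (0 : ℝ) (2 * Real.pi)) := by fun_prop
      refine (hg.continuousOn.comp h3 fun p hp => ?_).norm
      change ((p.1 : ℂ) + p.2 * Complex.I).re < 0
      have : ((p.1 : ℂ) + p.2 * Complex.I).re = p.1 := by simp
      rw [this]
      exact lt_of_le_of_lt hp.1.2 h2
    obtain ⟨B, hB⟩ := hc0.bddAbove_image h1
    refine Asymptotics.IsBigO.of_bound B ?_
    refine eventually_inf_principal.2 (Eventually.of_forall fun w hw => ?_)
    have hw' : x1 < w.re ∧ w.re < x2 := hw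
    obtain ⟨y, hy, n, hn⟩ := exists_rep w
    have hwHP : (w.re : ℂ) + y * Complex.I ∈ HP := by
      change ((w.re : ℂ) + y * Complex.I).re < 0
      have : ((w.re : ℂ) + y * Complex.I).re = w.re := by simp
      rw [this]
      linarith
    have e1 := per_int (F := g) hper hwHP n
    rw [← hn] at e1
    rw [e1]
    simp only [zero_mul, Real.exp_zero, norm_one, mul_one]
    exact hB ⟨(w.re, y), ⟨⟨hw'.1.le, hw'.2.le⟩, hy⟩, rfl⟩

theorem diff_it_HP {f : ℂ → Fin m → ℂ} (hf : DifferentiableOn ℂ f HP) (q : ℕ) :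
    DifferentiableOn ℂ (iteratedDeriv q f) HP := by
  have h1 : AnalyticOnNhd ℂ f HP := hf.analyticOnNhd isOpen_HP
  rw [iteratedDeriv_eq_iterate]
  exact (h1.iterated_deriv q).differentiableOn

/-- a bound on a vertical line -/
theorem PD.line (hT : TV T Λ a) (h : PD T Λ a P φ) {z0 : ℂ} (hz0 : z0 ∈ HP) {s : ℝ} (hs : 0 < s)
    (hs1 : 4 * Real.pi * s ≤ 1) (hR : 1 ≤ -z0.re * s) (hsg : sv φ z0 ≤ s) {z : ℂ}
    (hz : z.re = z0.re) : sv φ z ≤ 4 * s := by
  have hpi := Real.pi_pos
  -- move to the point with imaginary part near that of `z0`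
  set n : ℤ := ⌊(z.im - z0.im) / (2 * Real.pi) + 1 / 2⌋ with hn
  set w : ℂ := z + ((-n : ℤ) : ℂ) * tpi with hw
  have hzHP : z ∈ HP := by
    change z.re < 0
    rw [hz]
    exact hz0
  have e1 : sv φ w = sv φ z := per_int (F := sv φ) (fun z hz => h.sv_per hT hz) hzHP (-n)
  rw [← e1]
  apply sv_harnack_l (h.dsc z0).dif hs hsg hR
  have e2 : w - z0 = ((z.im - z0.im - n * (2 * Real.pi) : ℝ) : ℂ) * Complex.I := by
    rw [hw]
    apply Complex.ext
    · simp [tpi, hz]
    · simp [tpi]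
      ring
  rw [e2, norm_mul, Complex.norm_I, mul_one, Complex.norm_real, Real.norm_eq_abs]
  have e3 : |z.im - z0.im - n * (2 * Real.pi)| ≤ Real.pi := by
    have h1 := Int.floor_le ((z.im - z0.im) / (2 * Real.pi) + 1 / 2)
    have h2 := (Int.lt_floor_add_one ((z.im - z0.im) / (2 * Real.pi) + 1 / 2)).le
    rw [← hn] at h1 h2
    have h3 : (n : ℝ) * (2 * Real.pi) ≤ z.im - z0.im + Real.pi := by
      have := mul_le_mul_of_nonneg_right h1 (show 0 ≤ 2 * Real.pi by positivity)
      rw [add_mul, div_mul_cancel₀ _ (by positivity)] at this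
      linarith
    have h4 : z.im - z0.im + Real.pi ≤ (n + 1 : ℝ) * (2 * Real.pi) := by
      have := mul_le_mul_of_nonneg_right h2 (show 0 ≤ 2 * Real.pi by positivity)
      rw [add_mul, div_mul_cancel₀ _ (by positivity)] at this
      linarith
    rw [abs_le]
    constructor <;> linarith
  calc 4 * |z.im - z0.im - n * (2 * Real.pi)| * s ≤ 4 * Real.pi * s := by gcongr
    _ ≤ 1 := hs1

/-- **Dichotomy** for the scale -/
theorem PD.dich (hT : TV T Λ a) (h : PD T Λ a P φ) :
    (∃ c : ℝ, 0 < c ∧ ∃ A : ℝ, 0 < A ∧ ∀ z : ℂ, z.re ≤ -A → c ≤ sv φ z) ∨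
      ∀ ε : ℝ, 0 < ε → ∃ A : ℝ, 0 < A ∧ ∀ z : ℂ, z.re ≤ -A → sv φ z ≤ ε := by
  by_contra hcon
  push Not at hcon
  obtain ⟨h1, ε, hε, h2⟩ := hcon
  have hpi := Real.pi_pos
  set s : ℝ := min (ε / 4) (1 / (4 * Real.pi)) with hs
  have hs0 : 0 < s := lt_min (by positivity) (by positivity)
  have hs1 : 4 * Real.pi * s ≤ 1 := by
    have := min_le_right (ε / 4) (1 / (4 * Real.pi))
    rw [le_div_iff₀ (by positivity)] at this
    linarith
  have hs2 : 4 * s ≤ ε := by
    have := min_le_left (ε / 4) (1 / (4 * Real.pi))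
    linarith
  have hlines : ∀ A : ℝ, 1 / s ≤ A → ∃ x : ℝ, x ≤ -A ∧ ∀ z : ℂ, z.re = x → sv φ z ≤ 4 * s := by
    intro A hA
    have hA0 : 0 < A := lt_of_lt_of_le (by positivity) hA
    obtain ⟨z0, hz0, hz0'⟩ := h1 s hs0 A hA0
    refine ⟨z0.re, hz0, fun z hz => ?_⟩
    refine h.line hT (show z0.re < 0 by linarith) hs0 hs1 ?_ hz0'.le hz
    have e1 : 1 / s ≤ -z0.re := by linarith
    rwa [div_le_iff₀ hs0] at e1
  obtain ⟨x0, hx0, hx0'⟩ := hlines (1 / s) le_rfl
  have hx00 : x0 < 0 := by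
    have : 0 < 1 / s := by positivity
    linarith
  obtain ⟨z, hz, hz'⟩ := h2 (-x0) (by linarith)
  rw [neg_neg] at hz
  obtain ⟨x1, hx1, hx1'⟩ := hlines (max (1 / s) (-z.re + 1)) (le_max_left _ _)
  have hx1z : x1 ≤ z.re - 1 := by
    have := le_max_right (1 / s) (-z.re + 1)
    linarith
  apply absurd hz'
  push Not
  refine (sv_le (by positivity) fun q => ?_).trans hs2
  have hdm := diff_it_HP h.dif (q + 1)
  have hln : ∀ x : ℝ, x < 0 → (∀ z : ℂ, z.re = x → sv φ z ≤ 4 * s) → ∀ z : ℂ, z.re = x →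
      ‖iteratedDeriv (q + 1) φ z‖ ≤ (4 * s) ^ (q + 1) * (q + 1).factorial := by
    intro x hx hxs z hz
    have e1 := (cv_le_sv_l (h.dsc z).dif (by linarith) q).trans
      (pow_le_pow_left₀ (sv_nn φ z) (hxs z hz) (q + 1))
    unfold cv at e1
    rwa [div_le_iff₀ (by positivity)] at e1
  have e1 := strip_max hdm (fun z hz => h.iter_per hT hz q) (show x1 < x0 by linarith) hx00
    (hln x1 (by linarith) hx1') (hln x0 hx00 hx0') (z := z) (by linarith) hz
  unfold cv
  rwa [div_le_iff₀ (by positivity)]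

end Pool.Agent.N154.TB
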