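import Pool.Agent.N154.TB.Per

/-! The big Picard theorem, for curves in compact sets of projection matrices. -/

set_option autoImplicit false

open Filter Topology Metric Set

namespace Pool.Agent.N154.TB

open Pool.Agent.Y190.OP Pool.Agent.N155
open Pool.Agent.N154.GG (holP_comp_l HP isOpen_HP convex_HP kwack weight_zero holP_dich_on qk)

variable {N m : ℕ} {T : Set (Mat N)} {Λ : AddSubgroup (Fin m → ℂ)} {a : Mat N → Fin m → ℂ}
  {κ : Type} {η : κ → (Fin N → ℂ) → (Fin N → ℂ) → (Fin N → ℂ) → ℂ}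
  {r : ℕ} {v β : Fin r → Fin m → ℂ} {ℓ : Fin r → ((Fin m → ℂ) →L[ℂ] ℂ)}
  {e : Fin r → ℂ → Mat N}

variable {P : ℂ → Mat N} {φ : ℂ → Fin m → ℂ}

/-- if the scale does not tend to zero then the curve is contained in the exceptional set -/
theorem PD.factor (hT : TV T Λ a) (hf : Fib T Λ a) (hG : GV T Λ a η) (hE : En T Λ a v β ℓ e)
    (h : PD T Λ a P φ) {c A : ℝ} (hc : 0 < c) (hA : 0 < A)
    (hcA : ∀ z : ℂ, z.re ≤ -A → c ≤ sv φ z) : ∃ j, ∀ z ∈ HP, P z = FF ℓ e j (φ z) := by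
  classical
  obtain ⟨k1, hk1⟩ := contraction hT hf hG hE
  obtain ⟨k2, hk2⟩ := main_estimate hT hf hG hE
  set k : ℕ := max (max k1 k2) 1 with hk
  have hkk1 : k1 ≤ k := (le_max_left _ _).trans (le_max_left _ _)
  have hkk2 : k2 ≤ k := (le_max_right _ _).trans (le_max_left _ _)
  have hk11 : 1 ≤ k := le_max_right _ _
  have hk0 : (0 : ℝ) < k := by exact_mod_cast hk11
  have hcon := hk1 k hkk1
  obtain ⟨C, hC, hmain⟩ := hk2 k hkk2
  have h2r : (0 : ℝ) < 2 ^ r := by positivity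
  have hqpos : qk k ≠ 0 := by
    unfold qk
    positivity
  have hq0 : 0 < ((qk k : ℕ) : ℝ)⁻¹ := by
    have := Nat.pos_of_ne_zero hqpos
    positivity
  set R : ℝ := k / c with hR
  have hR0 : 0 < R := by positivity
  set B : ℝ := A + (k + 1) / c + R + 1 with hB
  have hB0 : 0 < B := by positivity
  set u : ℂ → ℝ := fun z => sv φ z ^ qk k * Pr ℓ e P φ z with hu
  have hu0 : ∀ z, 0 ≤ u z := fun z => mul_nonneg (pow_nonneg (sv_nn φ z) _) (Pr_nonneg P φ z)
  have hx0 : ∀ z, 0 ≤ Pr ℓ e P φ z / 2 ^ r := fun z => div_nonneg (Pr_nonneg P φ z) h2r.le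
  have huM : ∀ z : ℂ, z.re ≤ -B + R → u z ≤ C ^ qk k * 2 ^ r := by
    intro z hz
    have hz1 : 1 ≤ -z.re := by
      have : 0 < (k + 1 : ℝ) / c := by positivity
      linarith
    have h1 := hmain P φ z (-z.re) (by linarith) (h.dsc z)
    have h2 : C / -z.re ≤ C := div_le_self hC.le hz1
    have h3 := pow_le_pow_left₀ (mul_nonneg (sv_nn φ z) (Real.rpow_nonneg (hx0 z) _))
      (h1.trans h2) (qk k)
    rw [mul_pow, Real.rpow_inv_natCast_pow (hx0 z) hqpos, ← mul_div_assoc, div_le_iff₀ h2r] at h3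
    exact h3
  have hzero := weight_zero (u := u) (A := B) (R := R) (M := C ^ qk k * 2 ^ r) hR0
    (fun z _ => hu0 z) huM (by
      intro b hb z hz
      have hzA : z.re ≤ -A := by
        have : 0 < (k + 1 : ℝ) / c := by positivity
        linarith
      have hs := hcA z hzA
      have hs0 : 0 < sv φ z := hc.trans_le hs
      obtain ⟨w, hw1, hw2⟩ := hcon P φ z (-z.re) ((-b : ℝ) : ℂ) (h.dsc z) (by
        have h1 : ((k : ℝ) + 1) / c ≤ -z.re := by linarith
        calc (k : ℝ) + 1 = ((k : ℝ) + 1) / c * c := by field_simp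
          _ ≤ -z.re * sv φ z := by
              have : 0 ≤ ((k : ℝ) + 1) / c := by positivity
              have h3 : 0 ≤ -z.re := by linarith
              gcongr)
      refine ⟨w, ?_, ?_⟩
      · rw [hR, le_div_iff₀ hc]
        calc ‖w - z‖ * c ≤ ‖w - z‖ * sv φ z := by gcongr
          _ ≤ k := hw1
      · have h1 : ‖Complex.exp (((-b : ℝ) : ℂ) * (w - z))‖ = Real.exp (-b * (w.re - z.re)) := by
          rw [Complex.norm_exp, Complex.re_ofReal_mul, Complex.sub_re]
        rw [h1] at hw2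
        exact hw2)
  -- every point is in the exceptional set
  have hex : ∀ z : ℂ, z.re < -B → ∃ j, P z = FF ℓ e j (φ z) := by
    intro z hz
    have h1 := hzero z hz
    have hs0 : 0 < sv φ z := hc.trans_le (hcA z (by
      have : 0 < (k + 1 : ℝ) / c := by positivity
      linarith))
    have h2 : Pr ℓ e P φ z = 0 := by
      rcases mul_eq_zero.1 h1 with h2 | h2
      · exact absurd h2 (pow_pos hs0 _).ne'
      · exact h2
    obtain ⟨j, -, hj⟩ := Finset.prod_eq_zero_iff.1 h2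
    exact ⟨j, sub_eq_zero.1 (norm_eq_zero.1 hj)⟩
  -- the identity theorem
  by_contra hno
  push Not at hno
  have hej : ∀ j, HolP HP (fun z => FF ℓ e j (φ z)) := fun j =>
    holP_comp_l (hE.lin j).hol ((ℓ j).differentiable.comp_differentiableOn h.dif) isOpen_HP (mapsTo_univ _ _)
  have hall : ∀ j, ∀ z ∈ HP, ∀ᶠ w in 𝓝[≠] z, ¬ P w = FF ℓ e j (φ w) := by
    intro j
    refine (holP_dich_on isOpen_HP convex_HP.isPreconnected h.hol (hej j)).resolve_left ?_
    intro h1
    obtain ⟨z, hz, hz'⟩ := hno j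
    exact hz' (h1 z hz)
  set z1 : ℂ := ((-B - 1 : ℝ) : ℂ) with hz1
  have hz1re : z1.re = -B - 1 := by rw [hz1, Complex.ofReal_re]
  have hz1HP : z1 ∈ HP := by
    change z1.re < 0
    rw [hz1re]
    linarith
  have h1 : ∀ᶠ w in 𝓝[≠] z1, ∀ j, ¬ P w = FF ℓ e j (φ w) := eventually_all.2 fun j => hall j z1 hz1HP
  have h2 : ∀ᶠ w in 𝓝[≠] z1, w.re < -B := by
    apply Eventually.filter_mono nhdsWithin_le_nhds
    exact Complex.continuous_re.continuousAt.eventually_lt_const (by rw [hz1re]; linarith)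
  obtain ⟨w, hw1, hw2⟩ := (h1.and h2).exists
  obtain ⟨j, hj⟩ := hex w hw2
  exact hw1 j hj

/-- **The big Picard theorem** -/
theorem PD.picard (hT : TV T Λ a) (hf : Fib T Λ a) (hG : GV T Λ a η) (hE : En T Λ a v β ℓ e)
    (h : PD T Λ a P φ) :
    (∃ M0 ∈ T, ∀ ε : ℝ, 0 < ε → ∃ A : ℝ, 0 < A ∧ ∀ z : ℂ, z.re ≤ -A → ‖P z - M0‖ ≤ ε) ∨
      ∃ j, ∀ z ∈ HP, P z = FF ℓ e j (φ z) := by
  rcases h.dich hT with ⟨c, hc, A, hA, h1⟩ | h1
  · exact Or.inr (h.factor hT hf hG hE hc hA h1)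
  · left
    obtain ⟨C, hC, hgrad⟩ := gradient_l hT hf
    refine kwack hT.comp hT.sub h.hol h.mem h.per fun ε hε => ?_
    obtain ⟨A, hA, hA'⟩ := h1 (ε / C) (by positivity)
    refine ⟨max A (C / ε), lt_max_of_lt_left hA, fun z hz => ?_⟩
    have hzA : z.re ≤ -A := by
      have := le_max_left A (C / ε)
      linarith
    have hzC : C / ε ≤ -z.re := by
      have := le_max_right A (C / ε)
      linarith
    have hz0 : 0 < -z.re := by
      have : 0 < C / ε := by positivity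
      linarith
    have h2 := hgrad P φ z (-z.re) hz0 (h.dsc z)
    refine h2.trans ?_
    have h3 : max (sv φ z) (1 / -z.re) ≤ ε / C := by
      apply max_le (hA' z hzA)
      rw [div_le_iff₀ hz0]
      rw [div_le_iff₀ hε] at hzC
      rw [div_mul_eq_mul_div, le_div_iff₀ hC]
      linarith
    calc C * max (sv φ z) (1 / -z.re) ≤ C * (ε / C) := mul_le_mul_of_nonneg_left h3 hC.le
      _ = ε := by field_simp

end Pool.Agent.N154.TB
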